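import Mathlib

/-! Lists of lattice points: walks, polygons, states and the attaching step. -/

set_option autoImplicit false

namespace Pool.Agent.Work.MP_376faf_co

abbrev Pt := ℤ × ℤ

/-- nearest neighbours -/
def Nb (p q : Pt) : Prop := |q.1 - p.1| + |q.2 - p.2| = 1

theorem Nb.symm {p q : Pt} (h : Nb p q) : Nb q p := by
  unfold Nb at *
  rw [abs_sub_comm p.1, abs_sub_comm p.2]; exact h

theorem nb_add {p q d : Pt} : Nb (p + d) (q + d) ↔ Nb p q := by
  unfold Nb
  simp

theorem nb_right (u : Pt) : Nb u (u + (1, 0)) := by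
  unfold Nb; simp

theorem Nb.le_one {p q : Pt} (h : Nb p q) : q.2 ≤ p.2 + 1 ∧ p.2 ≤ q.2 + 1 ∧
    q.1 ≤ p.1 + 1 ∧ p.1 ≤ q.1 + 1 := by
  unfold Nb at h
  have h1 := abs_nonneg (q.1 - p.1)
  have h2 := abs_nonneg (q.2 - p.2)
  have h3 : |q.1 - p.1| ≤ 1 := by omega
  have h4 : |q.2 - p.2| ≤ 1 := by omega
  rw [abs_le] at h3 h4
  omega

def IsSaw (l : List Pt) : Prop := l.Nodup ∧ l.IsChain Nb

def IsPoly (l : List Pt) : Prop := l.Nodup ∧ 3 ≤ l.length ∧ Cycle.Chain Nb (l : Cycle Pt)

theorem IsPoly.rot {l l' : List Pt} (h : IsPoly l) (hr : l.IsRotated l') : IsPoly l' := by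
  refine ⟨hr.nodup_iff.1 h.1, ?_, ?_⟩
  · rw [← hr.perm.length_eq]; exact h.2.1
  · have : (l' : Cycle Pt) = (l : Cycle Pt) := (Cycle.coe_eq_coe.2 hr).symm
    rw [this]; exact h.2.2

theorem IsPoly.translate {l : List Pt} (h : IsPoly l) (d : Pt) : IsPoly (l.map (· + d)) := by
  refine ⟨h.1.map (fun a b hab => by simpa using hab), by simpa using h.2.1, ?_⟩
  have := (Cycle.chain_map (r := Nb) (fun p : Pt => p + d) (s := (l : Cycle Pt))).2
    (by
      refine Cycle.chain_mono (fun a b hab => ?_) _ h.2.2
      exact nb_add.2 hab)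
  simpa using this

theorem IsPoly.saw {l : List Pt} (h : IsPoly l) : IsSaw l := by
  refine ⟨h.1, ?_⟩
  rcases l with - | ⟨v, t⟩
  · simp
  · have := (Cycle.chain_coe_cons Nb v t).1 h.2.2
    have h2 : List.IsChain Nb ((v :: t) ++ [v]) := by simpa using this
    exact h2.left_of_append

theorem IsSaw.reverse {l : List Pt} (h : IsSaw l) : IsSaw l.reverse := by
  refine ⟨List.nodup_reverse.2 h.1, ?_⟩
  rw [List.isChain_reverse]
  exact h.2.imp (fun a b hab => hab.symm)

theorem IsSaw.translate {l : List Pt} (h : IsSaw l) (d : Pt) : IsSaw (l.map (· + d)) := by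
  refine ⟨h.1.map (fun a b hab => by simpa using hab), ?_⟩
  rw [List.isChain_map]
  exact h.2.imp (fun a b hab => nb_add.2 hab)

/-- discrete intermediate value theorem along a chain -/
theorem ivt {l : List Pt} (h : l.IsChain Nb) {p q : Pt} (hp : p ∈ l) (hq : q ∈ l) (b : ℤ)
    (h1 : p.2 ≤ b) (h2 : b ≤ q.2) : ∃ r ∈ l, r.2 = b := by
  induction l generalizing p q with
  | nil => simp at hp
  | cons a l ih =>
    by_cases hab : a.2 = b
    · exact ⟨a, by simp, hab⟩
    · rw [List.isChain_cons] at h
      obtain ⟨ha, hl⟩ := h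
      rcases List.mem_cons.1 hp with rfl | hp'
      · rcases List.mem_cons.1 hq with rfl | hq'
        · exact absurd (le_antisymm h1 h2) hab
        · rcases l with - | ⟨c, l⟩
          · simp at hq'
          · have hc := (ha c (by simp)).le_one
            obtain ⟨r, hr, hrb⟩ := ih hl (p := c) (q := q) (by simp) hq' (by omega) h2
            exact ⟨r, by simp only [List.mem_cons] at hr ⊢; tauto, hrb⟩
      · rcases List.mem_cons.1 hq with rfl | hq'
        · rcases l with - | ⟨c, l⟩
          · simp at hp'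
          · have hc := (ha c (by simp)).le_one
            obtain ⟨r, hr, hrb⟩ := ih hl (p := p) (q := c) hp' (by simp) h1 (by omega)
            exact ⟨r, by simp only [List.mem_cons] at hr ⊢; tauto, hrb⟩
        · obtain ⟨r, hr, hrb⟩ := ih hl hp' hq' h1 h2
          exact ⟨r, by simp [hr], hrb⟩

/-- nodup lists which are rotations of each other with the same head agree -/
theorem rot_eq {l l' : List Pt} (h : l.Nodup) (hr : l.IsRotated l') (v : Pt)
    (h1 : l.head? = some v) (h2 : l'.head? = some v) : l = l' := by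
  obtain ⟨n, hn⟩ := hr
  rcases Nat.eq_zero_or_pos l.length with h0 | h0
  · rw [List.length_eq_zero_iff] at h0
    subst h0; simp at h1
  · have hmod : l.rotate (n % l.length) = l' := by rw [List.rotate_mod]; exact hn
    have hlt : n % l.length < l.length := Nat.mod_lt _ h0
    rw [← hmod, List.head?_rotate hlt] at h2
    rw [List.head?_eq_getElem?] at h1
    rw [List.getElem?_eq_getElem hlt] at h2
    rw [List.getElem?_eq_getElem h0] at h1
    have he : l[n % l.length] = l[0] := by
      have := h2.trans h1.symm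
      simpa using this
    have := (h.getElem_inj_iff).1 he
    rw [this] at hmod
    simpa using hmod

end Pool.Agent.Work.MP_376faf_co
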