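import Pool.Agent.Work.MP_376faf_co.Growth

/-! Self-avoiding walks: counting, connective constant, generating function. -/

set_option autoImplicit false

namespace Pool.Agent.Work.MP_376faf_co

open Filter Topology

abbrev WalkFun (n : ℕ) : Type := {f : Fin (n+1) → ℤ × ℤ // f 0 = 0 ∧ Function.Injective f ∧
  ∀ i : Fin n, |(f i.succ).1 - (f i.castSucc).1| + |(f i.succ).2 - (f i.castSucc).2| = 1}

theorem walk_box {n : ℕ} (f : Fin (n+1) → ℤ × ℤ) (h0 : f 0 = 0)
    (hs : ∀ i : Fin n, Nb (f i.castSucc) (f i.succ)) (i : Fin (n+1)) :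
    |(f i).1| ≤ i.val ∧ |(f i).2| ≤ i.val := by
  induction i using Fin.induction with
  | zero => simp [h0]
  | succ i ih =>
    have h := (hs i).le_one
    simp only [Fin.val_succ, Fin.val_castSucc] at *
    obtain ⟨h1, h2⟩ := ih
    rw [abs_le] at h1 h2
    constructor
    · rw [abs_le]; push_cast; constructor <;> omega
    · rw [abs_le]; push_cast; constructor <;> omega

instance walkFinite (n : ℕ) : Finite (WalkFun n) := by
  have hfin : (Set.pi Set.univ (fun _ : Fin (n+1) =>
      (Set.Icc ((-(n:ℤ), -(n:ℤ)) : ℤ × ℤ) ((n:ℤ), (n:ℤ))))).Finite :=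
    Set.Finite.pi (fun _ => Set.finite_Icc _ _)
  refine (hfin.subset (t := {f : Fin (n+1) → ℤ × ℤ | f 0 = 0 ∧ Function.Injective f ∧
    ∀ i : Fin n, |(f i.succ).1 - (f i.castSucc).1| + |(f i.succ).2 - (f i.castSucc).2| = 1})
    ?_).to_subtype
  rintro f ⟨h0, -, hs⟩ i -
  have := walk_box f h0 hs i
  have hi : (i.val : ℤ) ≤ n := by have := i.is_lt; omega
  rw [abs_le, abs_le] at this
  simp only [Set.mem_Icc, Prod.le_def]
  omega

theorem walk_pos (n : ℕ) : 1 ≤ Nat.card (WalkFun n) := by
  have : Nonempty (WalkFun n) := by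
    refine ⟨⟨fun i => ((i.val : ℤ), 0), by simp, ?_, ?_⟩⟩
    · intro i j hij
      simp only [Prod.mk.injEq, Nat.cast_inj, and_true] at hij
      exact Fin.ext hij
    · intro i
      simp
  exact Nat.card_pos

theorem walk_submul (m n : ℕ) :
    Nat.card (WalkFun (m + n)) ≤ Nat.card (WalkFun m) * Nat.card (WalkFun n) := by
  rw [← Nat.card_prod]
  let φ : WalkFun (m + n) → WalkFun m × WalkFun n := fun f =>
    (⟨fun i => f.1 ⟨i.val, by omega⟩, f.2.1, by
        refine ⟨fun i j hij => ?_, fun i => ?_⟩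
        · have := f.2.2.1 hij
          simp only [Fin.mk.injEq] at this
          exact Fin.ext this
        · exact f.2.2.2 ⟨i.val, by omega⟩⟩,
      ⟨fun j => f.1 ⟨m + j.val, by omega⟩ - f.1 ⟨m, by omega⟩, by simp, by
        refine ⟨fun i j hij => ?_, fun i => ?_⟩
        · have h1 : f.1 ⟨m + i.val, by omega⟩ = f.1 ⟨m + j.val, by omega⟩ := by
            simpa using hij
          have := f.2.2.1 h1
          simp only [Fin.mk.injEq] at this
          exact Fin.ext (by omega)
        · have := f.2.2.2 ⟨m + i.val, by omega⟩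
          simpa [add_assoc] using this⟩)
  refine Nat.card_le_card_of_injective φ ?_
  intro f g hfg
  simp only [φ, Prod.mk.injEq, Subtype.mk.injEq] at hfg
  obtain ⟨h1, h2⟩ := hfg
  apply Subtype.ext
  funext i
  by_cases hi : i.val ≤ m
  · have := congrFun h1 ⟨i.val, by omega⟩
    simpa using this
  · have a1 := congrFun h1 ⟨m, by omega⟩
    have a2 := congrFun h2 ⟨i.val - m, by omega⟩
    simp only at a1 a2
    have e : m + (i.val - m) = i.val := by omega
    simp only [e] at a2
    rw [a1] at a2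
    simpa using a2

/-- existence of the connective constant -/
theorem exists_mu : ∃ μ : ℝ, 1 ≤ μ ∧
    Tendsto (fun n : ℕ => ((Nat.card (WalkFun n) : ℕ) : ℝ) ^ ((1:ℝ) / (n:ℝ))) atTop (𝓝 μ) := by
  set u : ℕ → ℝ := fun n => Real.log (Nat.card (WalkFun n)) with hu
  have hpos : ∀ n, (0:ℝ) < (Nat.card (WalkFun n) : ℝ) := fun n => by
    have := walk_pos n
    exact_mod_cast this
  have hone : ∀ n, (1:ℝ) ≤ (Nat.card (WalkFun n) : ℝ) := fun n => by
    have := walk_pos n
    exact_mod_cast this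
  have hsub : Subadditive u := by
    intro m n
    simp only [hu]
    rw [← Real.log_mul (hpos m).ne' (hpos n).ne']
    exact Real.log_le_log (hpos _) (by exact_mod_cast walk_submul m n)
  have hnn : ∀ n, 0 ≤ u n / n := fun n =>
    div_nonneg (Real.log_nonneg (hone n)) (Nat.cast_nonneg n)
  have hlim := hsub.tendsto_lim ⟨0, by rintro _ ⟨n, rfl⟩; exact hnn n⟩
  have hL : 0 ≤ hsub.lim := ge_of_tendsto' hlim hnn
  refine ⟨Real.exp hsub.lim, Real.one_le_exp hL, ?_⟩
  have := (Real.continuous_exp.tendsto _).comp hlim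
  refine this.congr (fun n => ?_)
  simp only [Function.comp, hu]
  rw [Real.rpow_def_of_pos (hpos n)]
  congr 1
  ring

theorem walk_summable {μ x : ℝ} (hx : 0 < x) (hμx : μ * x < 1) (hμ1 : 1 ≤ μ)
    (hμ : Tendsto (fun n : ℕ => ((Nat.card (WalkFun n) : ℕ) : ℝ) ^ ((1:ℝ) / (n:ℝ))) atTop (𝓝 μ)) :
    Summable (fun n : ℕ => (Nat.card (WalkFun n) : ℝ) * x ^ (n + 1)) := by
  obtain ⟨ρ, h1, h2⟩ : ∃ ρ, μ < ρ ∧ ρ * x < 1 := by
    refine ⟨(μ + 1 / x) / 2, ?_, ?_⟩
    · have : μ < 1 / x := by rw [lt_div_iff₀ hx]; exact hμx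
      linarith
    · have : (μ + 1 / x) / 2 * x = (μ * x + 1) / 2 := by field_simp
      rw [this]; linarith
  have hρ : 0 < ρ := by linarith
  have hev : ∀ᶠ n : ℕ in atTop, ‖(Nat.card (WalkFun n) : ℝ) * x ^ (n + 1)‖ ≤ x * (ρ * x) ^ n := by
    filter_upwards [hμ.eventually_lt_const h1, eventually_gt_atTop 0] with n hn hn0
    have hc : (0:ℝ) ≤ (Nat.card (WalkFun n) : ℝ) := Nat.cast_nonneg _
    have hle : (Nat.card (WalkFun n) : ℝ) ≤ ρ ^ n := by
      have hn' : (n:ℝ) ≠ 0 := by exact_mod_cast hn0.ne'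
      calc (Nat.card (WalkFun n) : ℝ) = ((Nat.card (WalkFun n) : ℝ) ^ ((1:ℝ) / (n:ℝ))) ^ (n:ℝ) := by
            rw [← Real.rpow_mul hc, one_div_mul_cancel hn', Real.rpow_one]
        _ ≤ ρ ^ (n:ℝ) := Real.rpow_le_rpow (Real.rpow_nonneg hc _) hn.le (Nat.cast_nonneg n)
        _ = ρ ^ n := Real.rpow_natCast _ _
    rw [Real.norm_of_nonneg (by positivity), mul_pow, pow_succ]
    have := mul_le_mul_of_nonneg_right hle (show 0 ≤ x ^ n * x by positivity)
    calc (Nat.card (WalkFun n) : ℝ) * (x ^ n * x) ≤ ρ ^ n * (x ^ n * x) := this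
      _ = x * (ρ ^ n * x ^ n) := by ring
  refine Summable.of_norm_bounded_eventually_nat (g := fun n => x * (ρ * x) ^ n) ?_ hev
  exact (summable_geometric_of_lt_one (by positivity) h2).mul_left x

theorem walk_card_le (n : ℕ) (F : Finset (List Pt)) (hF : ∀ l ∈ F, IsWalk l ∧ l.length = n + 1) :
    F.card ≤ Nat.card (WalkFun n) := by
  have h1 : F.card = Nat.card F := by simp
  rw [h1]
  let φ : F → WalkFun n := fun l =>
    ⟨fun i => l.1.reverse[i.val]'(by
        have := (hF l.1 l.2).2
        have := i.is_lt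
        simp only [List.length_reverse]; omega), by
      obtain ⟨⟨hs, hl⟩, hlen⟩ := hF l.1 l.2
      refine ⟨?_, ?_, ?_⟩
      · have h0 : (0 : ℕ) < l.1.reverse.length := by simp only [List.length_reverse]; omega
        have : l.1.reverse[0]? = some 0 := by
          rw [← List.head?_eq_getElem?, List.head?_reverse]; exact hl
        rw [List.getElem?_eq_getElem h0] at this
        simpa using this
      · intro i j hij
        have := (hs.reverse.1.getElem_inj_iff).1 hij
        exact Fin.ext this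
      · intro i
        have := List.isChain_iff_getElem.1 hs.reverse.2 i.val (by
          have := i.is_lt
          simp only [List.length_reverse]; omega)
        exact this⟩
  refine Nat.card_le_card_of_injective φ ?_
  intro l l' h
  have h' := congrArg Subtype.val h
  simp only [φ] at h'
  have hlen := (hF l.1 l.2).2
  have hlen' := (hF l'.1 l'.2).2
  apply Subtype.ext
  rw [← List.reverse_inj]
  apply List.ext_getElem
  · simp [hlen, hlen']
  · intro i hi hi'
    simp only [List.length_reverse] at hi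
    exact congrFun h' ⟨i, by omega⟩

theorem walkBound {μ x : ℝ} (hx : 0 < x) (hμx : μ * x < 1) (hμ1 : 1 ≤ μ)
    (hμ : Tendsto (fun n : ℕ => ((Nat.card (WalkFun n) : ℕ) : ℝ) ^ ((1:ℝ) / (n:ℝ))) atTop (𝓝 μ)) :
    ∃ κ, WalkBound x κ := by
  have hsum := walk_summable hx hμx hμ1 hμ
  refine ⟨∑' n : ℕ, (Nat.card (WalkFun n) : ℝ) * x ^ (n + 1), ?_⟩
  intro F hF
  classical
  set N := F.sup List.length with hN
  have hmaps : ∀ l ∈ F, l.length - 1 ∈ Finset.range (N + 1) := by
    intro l hl
    have : l.length ≤ N := Finset.le_sup (f := List.length) hl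
    rw [Finset.mem_range]; omega
  rw [← Finset.sum_fiberwise_of_maps_to hmaps]
  refine le_trans (Finset.sum_le_sum (fun n _ => ?_))
    (hsum.sum_le_tsum (Finset.range (N + 1)) (fun _ _ => by positivity))
  have hlen : ∀ l ∈ F.filter (fun l => l.length - 1 = n), IsWalk l ∧ l.length = n + 1 := by
    intro l hl
    rw [Finset.mem_filter] at hl
    have hw := hF l hl.1
    refine ⟨hw, ?_⟩
    have : l ≠ [] := by rintro rfl; simpa using hw.2
    have := List.length_pos_iff.2 this
    omega
  rw [Finset.sum_congr rfl (fun l hl => by rw [(hlen l hl).2])]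
  rw [Finset.sum_const, nsmul_eq_mul]
  exact mul_le_mul_of_nonneg_right (by exact_mod_cast walk_card_le n _ hlen) (by positivity)

end Pool.Agent.Work.MP_376faf_co
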