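import Pool.Agent.Work.MP_376faf_co.Poly

/-! The inequalities at the critical point and the tail of the polygon series. -/

set_option autoImplicit false

namespace Pool.Agent.Work.MP_376faf_co

open Filter Topology

def IsMu (μ : ℝ) : Prop := 1 ≤ μ ∧
  Tendsto (fun n : ℕ => ((Nat.card (WalkFun n) : ℕ) : ℝ) ^ ((1:ℝ) / (n:ℝ))) atTop (𝓝 μ)

theorem crit_limit {μ : ℝ} (hμ : IsMu μ) (g : ℝ → ℝ) (hg : Continuous g)
    (h : ∀ x, 0 < x → (∃ κ, WalkBound x κ) → g x ≤ 1) : g μ⁻¹ ≤ 1 := by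
  have hμ0 : 0 < μ := by have := hμ.1; linarith
  have ht : Tendsto (fun k : ℕ => μ⁻¹ * (1 - 1 / ((k:ℝ) + 2))) atTop (𝓝 (μ⁻¹ * (1 - 0))) := by
    refine Tendsto.const_mul _ (Tendsto.const_sub _ ?_)
    have h1 : Tendsto (fun k : ℕ => (1:ℝ) / ((k + 1 : ℕ) + 1 : ℝ)) atTop (𝓝 0) :=
      (tendsto_one_div_add_atTop_nhds_zero_nat (𝕜 := ℝ)).comp (tendsto_add_atTop_nat 1)
    refine h1.congr (fun k => ?_)
    push_cast
    congr 1
    ring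
  rw [sub_zero, mul_one] at ht
  refine le_of_tendsto' ((hg.tendsto _).comp ht) (fun k => ?_)
  have hk : (0:ℝ) < 1 - 1 / ((k:ℝ) + 2) := by
    have : (0:ℝ) < (k:ℝ) + 2 := by positivity
    rw [sub_pos, div_lt_one this]; linarith [(Nat.cast_nonneg k : (0:ℝ) ≤ k)]
  have hk1 : (0:ℝ) < 1 / ((k:ℝ) + 2) := by positivity
  refine h _ (by positivity) (walkBound (by positivity) ?_ hμ.1 hμ.2)
  rw [← mul_assoc, mul_inv_cancel₀ hμ0.ne', one_mul]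
  linarith

theorem critA {μ : ℝ} (hμ : IsMu μ) {m : ℕ} (hm : 1 ≤ m)
    (𝒬 : Finset (List Pt)) (h𝒬 : ∀ Q ∈ 𝒬, Canon Q ∧ ∃ q ∈ Q, 2 * (m : ℤ) - 1 ≤ q.2) :
    ∑ Q ∈ 𝒬, μ⁻¹ ^ Q.length ≤ μ ^ 2 / m := by
  have hμ0 : 0 < μ := by have := hμ.1; linarith
  have h := crit_limit hμ (fun x => x ^ 2 * m * ∑ Q ∈ 𝒬, x ^ Q.length) (by fun_prop)
    (fun x hx ⟨κ, hκ⟩ => ineqA hx hκ hm 𝒬 h𝒬)
  have hm0 : (0:ℝ) < m := by exact_mod_cast hm
  rw [le_div_iff₀ hm0]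
  have h2 : μ⁻¹ ^ 2 * m * ∑ Q ∈ 𝒬, μ⁻¹ ^ Q.length =
      ((∑ Q ∈ 𝒬, μ⁻¹ ^ Q.length) * m) / μ ^ 2 := by
    field_simp
  rw [h2, div_le_one (by positivity)] at h
  exact h

theorem critB {μ : ℝ} (hμ : IsMu μ) {m : ℕ} (hm : 1 ≤ m)
    (𝒬 : Finset (List Pt)) (h𝒬 : ∀ Q ∈ 𝒬, Canon Q ∧ ∃ q ∈ Q, 4 * (m : ℤ) - 1 ≤ q.2)
    (𝒮 : Finset (List Pt × ℕ)) (h𝒮 : ∀ R ∈ 𝒮, Canon R.1 ∧ (∀ r ∈ R.1, r.2 ≤ m) ∧
      ∃ r ∈ R.1, (R.2 : ℤ) ≤ r.2) :
    (m * ∑ Q ∈ 𝒬, μ⁻¹ ^ Q.length) * (∑ R ∈ 𝒮, μ⁻¹ ^ R.1.length) ≤ μ ^ 4 := by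
  have hμ0 : 0 < μ := by have := hμ.1; linarith
  have h := crit_limit hμ (fun x => x ^ 2 * m * (∑ Q ∈ 𝒬, x ^ Q.length) *
    (1 + x ^ 2 * ∑ R ∈ 𝒮, x ^ R.1.length)) (by fun_prop)
    (fun x hx ⟨κ, hκ⟩ => ineqB hx hκ hm 𝒬 h𝒬 𝒮 h𝒮)
  have h1 : 0 ≤ ∑ Q ∈ 𝒬, μ⁻¹ ^ Q.length := Finset.sum_nonneg (fun _ _ => by positivity)
  have h2 : 0 ≤ ∑ R ∈ 𝒮, μ⁻¹ ^ R.1.length := Finset.sum_nonneg (fun _ _ => by positivity)
  have h3 : μ⁻¹ ^ 2 * m * (∑ Q ∈ 𝒬, μ⁻¹ ^ Q.length) * (μ⁻¹ ^ 2 * ∑ R ∈ 𝒮, μ⁻¹ ^ R.1.length) ≤ 1 := by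
    refine le_trans ?_ h
    have : 0 ≤ μ⁻¹ ^ 2 * m * (∑ Q ∈ 𝒬, μ⁻¹ ^ Q.length) := by positivity
    nlinarith
  have h4 : μ⁻¹ ^ 2 * m * (∑ Q ∈ 𝒬, μ⁻¹ ^ Q.length) * (μ⁻¹ ^ 2 * ∑ R ∈ 𝒮, μ⁻¹ ^ R.1.length) =
      ((m * ∑ Q ∈ 𝒬, μ⁻¹ ^ Q.length) * (∑ R ∈ 𝒮, μ⁻¹ ^ R.1.length)) / μ ^ 4 := by
    field_simp
  rw [h4, div_le_one (by positivity)] at h3
  exact h3

/-- the normalised number of polygons -/
noncomputable def aa (μ : ℝ) (n : ℕ) : ℝ := (Nat.card (PolyFun n) : ℝ) / (4 * (n:ℝ)) / μ ^ (2*n)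

theorem aa_nonneg {μ : ℝ} (hμ : 1 ≤ μ) (n : ℕ) : 0 ≤ aa μ n := by
  unfold aa
  have : 0 < μ := by linarith
  positivity

/-- tail sums are bounded by weights of tall canonical polygons -/
theorem tail_le {μ : ℝ} (hμ : 1 ≤ μ) {N t : ℕ} (hN : 2 ≤ N) (ht : t ^ 2 < 2 * N) (B : ℝ)
    (hB : ∀ 𝒬 : Finset (List Pt), (∀ Q ∈ 𝒬, Canon Q ∧ ∃ q ∈ Q, (t : ℤ) ≤ q.2) →
      ∑ Q ∈ 𝒬, μ⁻¹ ^ Q.length ≤ B) (F : Finset ℕ) (hF : ∀ n ∈ F, N ≤ n) :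
    ∑ n ∈ F, aa μ n ≤ B := by
  classical
  have hμ0 : 0 < μ := by linarith
  have hex : ∀ n : ℕ, ∃ 𝒬 : Finset (List Pt), 2 ≤ n →
      (∀ Q ∈ 𝒬, Canon Q ∧ Q.length = 2 * n ∧ ∃ q ∈ Q, (t:ℤ) ≤ q.2) ∧
      Nat.card (TallFun n t) ≤ 2 * n * 𝒬.card := by
    intro n
    by_cases hn : 2 ≤ n
    · obtain ⟨𝒬, h⟩ := tall_count hn (t : ℤ)
      exact ⟨𝒬, fun _ => h⟩
    · exact ⟨∅, fun h => absurd h hn⟩
  choose 𝒬 h𝒬 using hex
  have hterm : ∀ n ∈ F, aa μ n ≤ ∑ Q ∈ 𝒬 n, μ⁻¹ ^ Q.length := by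
    intro n hn
    have hNn := hF n hn
    have hn2 : 2 ≤ n := by omega
    have h1 := poly_split (n := n) (by omega) t (by omega)
    have h2 := (h𝒬 n hn2).2
    have h3 : Nat.card (PolyFun n) ≤ 4 * n * (𝒬 n).card := by
      calc Nat.card (PolyFun n) ≤ 2 * Nat.card (TallFun n t) := h1
        _ ≤ 2 * (2 * n * (𝒬 n).card) := by omega
        _ = 4 * n * (𝒬 n).card := by ring
    have h4 : (Nat.card (PolyFun n) : ℝ) ≤ (4 * n) * (𝒬 n).card := by exact_mod_cast h3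
    have hn0 : (0:ℝ) < 4 * n := by
      have : (0:ℝ) < n := by exact_mod_cast (by omega : 0 < n)
      positivity
    have h5 : (Nat.card (PolyFun n) : ℝ) / (4 * n) ≤ (𝒬 n).card := by
      rw [div_le_iff₀ hn0, mul_comm]; exact h4
    have h6 : ∑ Q ∈ 𝒬 n, μ⁻¹ ^ Q.length = (𝒬 n).card / μ ^ (2 * n) := by
      rw [Finset.sum_congr rfl (fun Q hQ => by rw [((h𝒬 n hn2).1 Q hQ).2.1])]
      rw [Finset.sum_const, nsmul_eq_mul, inv_pow, div_eq_mul_inv]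
    rw [h6]
    unfold aa
    exact div_le_div_of_nonneg_right h5 (by positivity)
  calc ∑ n ∈ F, aa μ n ≤ ∑ n ∈ F, ∑ Q ∈ 𝒬 n, μ⁻¹ ^ Q.length := Finset.sum_le_sum hterm
    _ = ∑ Q ∈ F.biUnion 𝒬, μ⁻¹ ^ Q.length := by
        rw [Finset.sum_biUnion]
        intro i hi j hj hij
        rw [Function.onFun, Finset.disjoint_left]
        intro Q h1 h2
        have hi2 := hF i hi
        have hj2 := hF j hj
        have e1 := ((h𝒬 i (by omega)).1 Q h1).2.1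
        have e2 := ((h𝒬 j (by omega)).1 Q h2).2.1
        omega
    _ ≤ B := by
        refine hB _ (fun Q hQ => ?_)
        obtain ⟨n, hn, hQn⟩ := Finset.mem_biUnion.1 hQ
        have hn2 := hF n hn
        have := (h𝒬 n (by omega)).1 Q hQn
        exact ⟨this.1, this.2.2⟩

theorem tail_summable {μ : ℝ} (hμ : IsMu μ) : Summable (aa μ) := by
  rw [← summable_nat_add_iff 2]
  refine summable_of_sum_le (c := μ ^ 2 / (1:ℕ)) (fun n => aa_nonneg hμ.1 _) (fun u => ?_)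
  have h := tail_le hμ.1 (N := 2) (t := 1) le_rfl (by norm_num) (μ ^ 2 / (1:ℕ))
    (fun 𝒬 h𝒬 => critA hμ le_rfl 𝒬 (by
      intro Q hQ
      obtain ⟨h1, q, h2, h3⟩ := h𝒬 Q hQ
      exact ⟨h1, q, h2, by push_cast at h3 ⊢; omega⟩)) (u.image (fun n => n + 2))
    (by
      intro n hn
      obtain ⟨k, -, rfl⟩ := Finset.mem_image.1 hn
      omega)
  rw [Finset.sum_image (fun a _ b _ hab => by simpa using hab)] at h
  exact h

theorem tail_tsum {μ : ℝ} (hμ : IsMu μ) {N t : ℕ} (hN : 2 ≤ N) (ht : t ^ 2 < 2 * N) (B : ℝ)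
    (hB : ∀ 𝒬 : Finset (List Pt), (∀ Q ∈ 𝒬, Canon Q ∧ ∃ q ∈ Q, (t : ℤ) ≤ q.2) →
      ∑ Q ∈ 𝒬, μ⁻¹ ^ Q.length ≤ B) : ∑' n : ℕ, aa μ (n + N) ≤ B := by
  have hs : Summable (fun n => aa μ (n + N)) := (summable_nat_add_iff N).2 (tail_summable hμ)
  refine hs.tsum_le_of_sum_le (fun u => ?_)
  have h := tail_le hμ.1 hN ht B hB (u.image (fun n => n + N)) (by
      intro n hn
      obtain ⟨k, -, rfl⟩ := Finset.mem_image.1 hn
      omega)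
  rw [Finset.sum_image (fun a _ b _ hab => by simpa using hab)] at h
  exact h

theorem tailA {μ : ℝ} (hμ : IsMu μ) {N : ℕ} (hN : 2 ≤ N) :
    ∑' n : ℕ, aa μ (n + N) ≤ 3 * μ ^ 2 / √(2 * N) := by
  set q := Nat.sqrt (2 * N - 1) with hq
  have h1 : q * q ≤ 2 * N - 1 := Nat.sqrt_le _
  have h2 : 2 * N - 1 < (q + 1) * (q + 1) := Nat.lt_succ_sqrt _
  have h2' : 2 * N ≤ (q + 1) * (q + 1) := by omega
  have hq1 : 1 ≤ q := by
    by_contra h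
    have : q = 0 := by omega
    rw [this] at h2; omega
  set m := (q + 1) / 2 with hm
  have hm1 : 1 ≤ m := by omega
  have hmq : 2 * m - 1 ≤ q := by omega
  have hqm : q ≤ 2 * m := by omega
  have hN0 : (0:ℝ) < 2 * N := by
    have : (0:ℝ) < N := by exact_mod_cast (by omega : 0 < N)
    linarith
  have hs0 : 0 < √(2 * N : ℝ) := Real.sqrt_pos.2 hN0
  have hm0 : (1:ℝ) ≤ m := by exact_mod_cast hm1
  have hμ0 : 0 < μ := by have := hμ.1; linarith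
  refine le_trans (tail_tsum hμ hN (t := 2 * m - 1) ?_ (μ ^ 2 / m) ?_) ?_
  · calc (2 * m - 1) ^ 2 ≤ q ^ 2 := Nat.pow_le_pow_left hmq 2
      _ = q * q := by ring
      _ < 2 * N := by omega
  · intro 𝒬 h𝒬
    refine critA hμ hm1 𝒬 (fun Q hQ => ?_)
    obtain ⟨h1, q, h2, h3⟩ := h𝒬 Q hQ
    exact ⟨h1, q, h2, by omega⟩
  · rw [div_le_div_iff₀ (by linarith) hs0]
    have h3 : √(2 * N : ℝ) ≤ 2 * m + 1 := by
      rw [Real.sqrt_le_left (by positivity)]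
      have : 2 * N ≤ (2 * m + 1) * (2 * m + 1) := by nlinarith
      have : (2 * N : ℝ) ≤ (2 * m + 1) * (2 * m + 1) := by exact_mod_cast this
      nlinarith
    nlinarith [sq_nonneg μ]

/-- a bound for the heights occurring in a finite family -/
def hmax {ι : Type*} (s : Finset ι) (f : ι → List Pt) : ℕ :=
  s.sup (fun i => (f i).toFinset.sup (fun p => p.2.toNat))

theorem le_hmax {ι : Type*} (s : Finset ι) (f : ι → List Pt) {i : ι} (hi : i ∈ s) {p : Pt}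
    (hp : p ∈ f i) : p.2 ≤ hmax s f := by
  have h1 : p.2.toNat ≤ (f i).toFinset.sup (fun p => p.2.toNat) :=
    Finset.le_sup (f := fun p : Pt => p.2.toNat) (List.mem_toFinset.2 hp)
  have h2 : (f i).toFinset.sup (fun p => p.2.toNat) ≤ hmax s f :=
    Finset.le_sup (f := fun i => (f i).toFinset.sup (fun p => p.2.toNat)) hi
  omega

/-- the weight of polygons of height at least t is o(1/t) -/
theorem littleT {μ : ℝ} (hμ : IsMu μ) (ε : ℝ) (hε : 0 < ε) : ∃ t0 : ℕ, ∀ t : ℕ, t0 ≤ t →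
    ∀ 𝒬 : Finset (List Pt), (∀ Q ∈ 𝒬, Canon Q ∧ ∃ q ∈ Q, (t : ℤ) ≤ q.2) →
      t * ∑ Q ∈ 𝒬, μ⁻¹ ^ Q.length ≤ ε := by
  classical
  have hμ0 : 0 < μ := by have := hμ.1; linarith
  set G : List Pt × ℕ → ℝ := fun R =>
    if Canon R.1 ∧ ∃ r ∈ R.1, (R.2 : ℤ) ≤ r.2 then μ⁻¹ ^ R.1.length else 0 with hG
  have hGn : ∀ R, 0 ≤ G R := by
    intro R
    simp only [hG]
    split_ifs
    · positivity
    · exact le_rfl
  by_cases hsum : Summable G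
  · rw [summable_iff_vanishing_norm] at hsum
    obtain ⟨s, hs⟩ := hsum ε hε
    refine ⟨hmax s Prod.fst + 1, fun t ht 𝒬 h𝒬 => ?_⟩
    have hdis : Disjoint (𝒬 ×ˢ Finset.range t) s := by
      rw [Finset.disjoint_left]
      intro R hR hRs
      rw [Finset.mem_product] at hR
      obtain ⟨-, q, hq, hqt⟩ := h𝒬 _ hR.1
      have := le_hmax s Prod.fst hRs hq
      omega
    have h1 := hs _ hdis
    have h2 : ∑ R ∈ 𝒬 ×ˢ Finset.range t, G R = t * ∑ Q ∈ 𝒬, μ⁻¹ ^ Q.length := by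
      rw [Finset.sum_product, Finset.mul_sum]
      refine Finset.sum_congr rfl (fun Q hQ => ?_)
      have : ∀ o ∈ Finset.range t, G (Q, o) = μ⁻¹ ^ Q.length := by
        intro o ho
        rw [Finset.mem_range] at ho
        obtain ⟨hc, q, hq, hqt⟩ := h𝒬 Q hQ
        simp only [hG]
        rw [if_pos ⟨hc, q, hq, by omega⟩]
      rw [Finset.sum_congr rfl this]
      simp
    rw [h2] at h1
    exact (le_abs_self _).trans (by rw [← Real.norm_eq_abs]; exact h1.le)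
  · set M : ℝ := 7 * μ ^ 4 / ε with hM
    have hM0 : 0 < M := by positivity
    obtain ⟨s, hs⟩ : ∃ s : Finset (List Pt × ℕ), M < ∑ R ∈ s, G R := by
      by_contra h
      push Not at h
      exact hsum (summable_of_sum_le hGn h)
    set S := s.filter (fun R => Canon R.1 ∧ ∃ r ∈ R.1, (R.2 : ℤ) ≤ r.2) with hS
    have hsS : ∑ R ∈ S, μ⁻¹ ^ R.1.length = ∑ R ∈ s, G R := by
      rw [hS, Finset.sum_filter]
    refine ⟨4 * hmax s Prod.fst + 4, fun t ht 𝒬 h𝒬 => ?_⟩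
    set m := (t + 1) / 4 with hm
    have hm1 : 1 ≤ m := by omega
    have h := critB hμ hm1 𝒬 (by
      intro Q hQ
      obtain ⟨hc, q, hq, hqt⟩ := h𝒬 Q hQ
      exact ⟨hc, q, hq, by omega⟩) S (by
      intro R hR
      rw [hS, Finset.mem_filter] at hR
      refine ⟨hR.2.1, fun r hr => ?_, hR.2.2⟩
      have := le_hmax s Prod.fst hR.1 hr
      omega)
    rw [hsS] at h
    set X := ∑ Q ∈ 𝒬, μ⁻¹ ^ Q.length with hX
    have hX0 : 0 ≤ X := Finset.sum_nonneg (fun _ _ => by positivity)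
    have htm : (t:ℝ) ≤ 7 * m := by
      have : t ≤ 7 * m := by omega
      exact_mod_cast this
    have hmX : 0 ≤ (m:ℝ) * X := by positivity
    have h3 : (m:ℝ) * X * M ≤ μ ^ 4 := by
      refine le_trans ?_ h
      exact mul_le_mul_of_nonneg_left hs.le hmX
    have h4 : (m:ℝ) * X ≤ ε / 7 := by
      have : (m:ℝ) * X ≤ μ ^ 4 / M := by rw [le_div_iff₀ hM0]; exact h3
      refine this.trans (le_of_eq ?_)
      rw [hM]; field_simp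
    calc (t:ℝ) * X ≤ 7 * m * X := mul_le_mul_of_nonneg_right htm hX0
      _ = 7 * (m * X) := by ring
      _ ≤ ε := by linarith

theorem tailB {μ : ℝ} (hμ : IsMu μ) :
    Tendsto (fun N : ℕ => √(N:ℝ) * ∑' n : ℕ, aa μ (n + N)) atTop (𝓝 0) := by
  rw [Metric.tendsto_atTop]
  intro ε hε
  obtain ⟨t0, ht0⟩ := littleT hμ (ε / 4) (by positivity)
  refine ⟨(t0 + 1) ^ 2 + 2, fun N hN => ?_⟩
  have hN2 : 2 ≤ N := by omega
  set t := Nat.sqrt (2 * N - 1) with hq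
  have h1 : t * t ≤ 2 * N - 1 := Nat.sqrt_le _
  have h2 : 2 * N - 1 < (t + 1) * (t + 1) := Nat.lt_succ_sqrt _
  have h1' : t * t < 2 * N := by omega
  have h2' : 2 * N ≤ (t + 1) * (t + 1) := by omega
  have ht : t0 ≤ t := by
    by_contra h
    have : t + 1 ≤ t0 := by omega
    nlinarith
  have ht1 : 1 ≤ t := by
    by_contra h
    have : t = 0 := by omega
    rw [this] at h2; omega
  have ht1' : (1:ℝ) ≤ t := by exact_mod_cast ht1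
  have hb := tail_tsum hμ hN2 (t := t) (by nlinarith [h1']) (ε / 4 / t) (by
    intro 𝒬 h𝒬
    rw [le_div_iff₀ (by linarith), mul_comm]
    exact ht0 t ht 𝒬 h𝒬)
  have hnn : 0 ≤ ∑' n : ℕ, aa μ (n + N) := tsum_nonneg (fun n => aa_nonneg hμ.1 _)
  have hs : √(N:ℝ) ≤ 2 * t := by
    rw [Real.sqrt_le_left (by positivity)]
    have : N ≤ (2 * t) * (2 * t) := by nlinarith
    have : (N:ℝ) ≤ (2 * t) * (2 * t) := by exact_mod_cast this
    nlinarith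
  rw [Real.dist_eq, sub_zero, abs_of_nonneg (by positivity)]
  calc √(N:ℝ) * ∑' n : ℕ, aa μ (n + N) ≤ (2 * t) * (ε / 4 / t) := by
        exact mul_le_mul hs hb hnn (by positivity)
    _ = ε / 2 := by field_simp; norm_num
    _ < ε := by linarith

end Pool.Agent.Work.MP_376faf_co
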