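import Pool.Agent.Work.MP_376faf_co.Moves

/-! Weighted counting of states. -/

set_option autoImplicit false

namespace Pool.Agent.Work.MP_376faf_co

open Finset

theorem growth {σ ι : Type*} (J : σ → Prop) (w : σ → ℝ) (I : Finset ι) (c : ι → ℝ)
    (Rel : σ → ι → σ → Prop)
    (h_ex : ∀ s, J s → ∀ i ∈ I, ∃ s', Rel s i s' ∧ J s' ∧ w s' = w s * c i)
    (h_inj : ∀ s1 i1 s2 i2 s', J s1 → J s2 → i1 ∈ I → i2 ∈ I → Rel s1 i1 s' → Rel s2 i2 s' →
      s1 = s2 ∧ i1 = i2)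
    (s0 : σ) (hs0 : J s0) (hw0 : 0 < w s0) (K : ℝ)
    (hK : ∀ F : Finset σ, (∀ s ∈ F, J s) → ∑ s ∈ F, w s ≤ K) :
    ∑ i ∈ I, c i ≤ 1 := by
  classical
  by_contra hlt
  push Not at hlt
  set T := ∑ i ∈ I, c i with hT
  have key : ∀ r : ℕ, ∃ F : Finset σ, (∀ s ∈ F, J s) ∧ ∑ s ∈ F, w s = w s0 * T ^ r := by
    intro r
    induction r with
    | zero => exact ⟨{s0}, by simpa using hs0, by simp⟩
    | succ r ih =>
      obtain ⟨F, hF, hsum⟩ := ih
      let Φ : σ × ι → σ := fun x =>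
        if h : ∃ s', Rel x.1 x.2 s' ∧ J s' ∧ w s' = w x.1 * c x.2 then h.choose else x.1
      have hΦ : ∀ x ∈ F ×ˢ I, Rel x.1 x.2 (Φ x) ∧ J (Φ x) ∧ w (Φ x) = w x.1 * c x.2 := by
        intro x hx
        rw [Finset.mem_product] at hx
        have h := h_ex x.1 (hF _ hx.1) x.2 hx.2
        simp only [Φ, dif_pos h]
        exact h.choose_spec
      refine ⟨(F ×ˢ I).image Φ, ?_, ?_⟩
      · intro s hs
        obtain ⟨x, hx, rfl⟩ := Finset.mem_image.1 hs
        exact (hΦ x hx).2.1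
      · rw [Finset.sum_image]
        · rw [Finset.sum_congr rfl (fun x hx => (hΦ x hx).2.2), Finset.sum_product]
          simp only
          rw [pow_succ, ← mul_assoc, ← hsum, Finset.sum_mul]
          refine Finset.sum_congr rfl (fun s _ => ?_)
          rw [hT, Finset.mul_sum]
        · intro x hx y hy hxy
          have hx' := Finset.mem_product.1 (Finset.mem_coe.1 hx)
          have hy' := Finset.mem_product.1 (Finset.mem_coe.1 hy)
          have h1 := (hΦ x hx).1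
          have h2 := (hΦ y hy).1
          rw [hxy] at h1
          obtain ⟨e1, e2⟩ := h_inj _ _ _ _ _ (hF _ hx'.1) (hF _ hy'.1) hx'.2 hy'.2 h1 h2
          exact Prod.ext e1 e2
  have htend : Filter.Tendsto (fun r : ℕ => w s0 * T ^ r) Filter.atTop Filter.atTop :=
    (tendsto_pow_atTop_atTop_of_one_lt hlt).const_mul_atTop hw0
  obtain ⟨r, hr⟩ := (htend.eventually_gt_atTop K).exists
  obtain ⟨F, hF, hsum⟩ := key r
  have := hK F hF
  rw [hsum] at this
  exact absurd this (not_le.2 hr)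

def IsWalk (l : List Pt) : Prop := IsSaw l ∧ l.getLast? = some 0

def WalkBound (x κ : ℝ) : Prop :=
  ∀ F : Finset (List Pt), (∀ l ∈ F, IsWalk l) → ∑ l ∈ F, x ^ l.length ≤ κ

noncomputable def recenter (s : St) : List Pt × List Pt × List Pt :=
  (s.1, s.2.1, (s.2.2.map (· + (-(s.1.head?.getD 0)))).reverse)

theorem recenter_inj {s s' : St} (h : recenter s = recenter s') : s = s' := by
  unfold recenter at h
  simp only [Prod.mk.injEq] at h
  obtain ⟨h1, h2, h3⟩ := h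
  rw [h1, List.reverse_inj] at h3
  have h4 := List.map_injective_iff.2 (add_left_injective _) h3
  exact Prod.ext h1 (Prod.ext h2 h4)

theorem recenter_walk {s : St} (h : IsGood s) : IsWalk (recenter s).1 ∧ IsWalk (recenter s).2.1 ∧
    IsWalk (recenter s).2.2 := by
  obtain ⟨v, L0, U0, P0, g⟩ := h
  refine ⟨?_, ?_, ?_⟩
  · rw [g.eq]; exact ⟨g.sawL, g.lastL⟩
  · rw [g.eq]; exact ⟨g.sawU, g.lastU⟩
  · rw [g.eq]
    refine ⟨(g.poly.saw.translate _).reverse, ?_⟩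
    simp [recenter]

theorem recenter_wt (s : St) : wt s = (recenter s).1.length + (recenter s).2.1.length +
    (recenter s).2.2.length := by
  simp [recenter, wt]

theorem state_bound {x κ : ℝ} (hx : 0 ≤ x) (hκ : WalkBound x κ) (F : Finset St)
    (hF : ∀ s ∈ F, IsGood s) : ∑ s ∈ F, x ^ wt s ≤ κ ^ 3 := by
  classical
  have hκ0 : 0 ≤ κ := by simpa using hκ ∅ (by simp)
  set A := F.image (fun s => (recenter s).1) with hA
  set B := F.image (fun s => (recenter s).2.1) with hB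
  set C := F.image (fun s => (recenter s).2.2) with hC
  have h1 : ∑ s ∈ F, x ^ wt s = ∑ t ∈ F.image recenter,
      x ^ (t.1.length + t.2.1.length + t.2.2.length) := by
    rw [Finset.sum_image (fun a _ b _ hab => recenter_inj hab)]
    exact Finset.sum_congr rfl (fun s _ => by rw [recenter_wt s])
  have h2 : F.image recenter ⊆ A ×ˢ (B ×ˢ C) := by
    intro t ht
    obtain ⟨s, hs, rfl⟩ := Finset.mem_image.1 ht
    rw [Finset.mem_product, Finset.mem_product]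
    exact ⟨Finset.mem_image_of_mem _ hs, Finset.mem_image_of_mem _ hs,
      Finset.mem_image_of_mem _ hs⟩
  have h3 : ∑ t ∈ A ×ˢ (B ×ˢ C), x ^ (t.1.length + t.2.1.length + t.2.2.length) =
      (∑ l ∈ A, x ^ l.length) * ((∑ l ∈ B, x ^ l.length) * (∑ l ∈ C, x ^ l.length)) := by
    rw [Finset.sum_product, Finset.sum_mul]
    refine Finset.sum_congr rfl (fun a _ => ?_)
    rw [Finset.sum_product, Finset.sum_mul, Finset.mul_sum]
    refine Finset.sum_congr rfl (fun b _ => ?_)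
    rw [Finset.mul_sum, Finset.mul_sum]
    refine Finset.sum_congr rfl (fun c _ => ?_)
    rw [pow_add, pow_add]; ring
  have wA : ∑ l ∈ A, x ^ l.length ≤ κ := hκ A (by
    intro l hl
    obtain ⟨s, hs, rfl⟩ := Finset.mem_image.1 hl
    exact (recenter_walk (hF s hs)).1)
  have wB : ∑ l ∈ B, x ^ l.length ≤ κ := hκ B (by
    intro l hl
    obtain ⟨s, hs, rfl⟩ := Finset.mem_image.1 hl
    exact (recenter_walk (hF s hs)).2.1)
  have wC : ∑ l ∈ C, x ^ l.length ≤ κ := hκ C (by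
    intro l hl
    obtain ⟨s, hs, rfl⟩ := Finset.mem_image.1 hl
    exact (recenter_walk (hF s hs)).2.2)
  have pB : 0 ≤ ∑ l ∈ B, x ^ l.length := Finset.sum_nonneg (fun _ _ => pow_nonneg hx _)
  have pC : 0 ≤ ∑ l ∈ C, x ^ l.length := Finset.sum_nonneg (fun _ _ => pow_nonneg hx _)
  calc ∑ s ∈ F, x ^ wt s ≤ ∑ t ∈ A ×ˢ (B ×ˢ C), x ^ (t.1.length + t.2.1.length + t.2.2.length) := by
        rw [h1]
        exact Finset.sum_le_sum_of_subset_of_nonneg h2 (fun _ _ _ => pow_nonneg hx _)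
    _ = (∑ l ∈ A, x ^ l.length) * ((∑ l ∈ B, x ^ l.length) * (∑ l ∈ C, x ^ l.length)) := h3
    _ ≤ κ * (κ * κ) := by
        refine mul_le_mul wA (mul_le_mul wB wC pC hκ0) (mul_nonneg pB pC) hκ0
    _ = κ ^ 3 := by ring

/-- the starting state -/
theorem start {c : ℤ} {Q : List Pt} (hQ : Canon Q) (hc : ∃ q ∈ Q, c ≤ q.2) :
    Inv c ([0], [0], Q) := by
  obtain ⟨t, ht⟩ := exists_top (P := Q) (by rintro rfl; simpa using hQ.head)
  rcases Q with - | ⟨v, P0⟩
  · simpa using hQ.head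
  have hv : v = 0 := by simpa using hQ.head
  subst hv
  obtain ⟨q, hq, hcq⟩ := hc
  refine ⟨0, [], [], P0, t, ⟨rfl, ⟨by simp, by simp⟩, ⟨by simp, by simp⟩, hQ.poly, by simp,
    by simp, by simp, by simp⟩, ht, ?_⟩
  intro x hx
  have : x = 0 := by simpa using hx
  subst this
  have := ht.2 q hq
  simp only [Prod.snd_zero, zero_add]
  omega

/-- first inequality -/
theorem ineqA {x κ : ℝ} (hx : 0 < x) (hκ : WalkBound x κ) {m : ℕ} (hm : 1 ≤ m)
    (𝒬 : Finset (List Pt)) (h𝒬 : ∀ Q ∈ 𝒬, Canon Q ∧ ∃ q ∈ Q, 2 * (m : ℤ) - 1 ≤ q.2) :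
    x ^ 2 * m * ∑ Q ∈ 𝒬, x ^ Q.length ≤ 1 := by
  rcases 𝒬.eq_empty_or_nonempty with rfl | ⟨Q0, hQ0⟩
  · simp
  have h := growth (σ := St) (ι := List Pt × ℕ) (Inv (m : ℤ)) (fun s => x ^ wt s)
    (𝒬 ×ˢ Finset.range m) (fun i => x ^ (i.1.length + 2))
    (fun s i s' => Step s s' ∧ Rec s i.1 i.2 s')
    (by
      intro s hs i hi
      rw [Finset.mem_product, Finset.mem_range] at hi
      obtain ⟨hQ, q, hq, hqm⟩ := h𝒬 _ hi.1
      obtain ⟨s', h1, h2, h3, h4⟩ := move (c := (m : ℤ)) (k := (i.2 : ℤ)) (by omega)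
        (by omega) hs hQ ⟨q, hq, by omega⟩
      refine ⟨s', ⟨h1, h4⟩, h2, ?_⟩
      rw [h3, add_assoc, pow_add])
    (by
      intro s1 i1 s2 i2 s' hs1 hs2 hi1 hi2 h1 h2
      rw [Finset.mem_product] at hi1 hi2
      have e := step_unique hs1.good hs2.good h1.1 h2.1
      subst e
      obtain ⟨e1, e2⟩ := Rec.unique (h𝒬 _ hi1.1).1 (h𝒬 _ hi2.1).1 h1.2 h2.2
      exact ⟨rfl, Prod.ext e1 (by exact_mod_cast e2)⟩)
    ([0], [0], Q0) (start (h𝒬 _ hQ0).1 (by
      obtain ⟨q, hq, hqm⟩ := (h𝒬 _ hQ0).2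
      exact ⟨q, hq, by omega⟩)) (pow_pos hx _) (κ ^ 3)
    (fun F hF => state_bound hx.le hκ F (fun s hs => (hF s hs).good))
  rw [Finset.sum_product] at h
  simp only [Finset.sum_const, Finset.card_range, nsmul_eq_mul] at h
  calc x ^ 2 * m * ∑ Q ∈ 𝒬, x ^ Q.length = ∑ Q ∈ 𝒬, (m : ℝ) * x ^ (Q.length + 2) := by
        rw [Finset.mul_sum]
        refine Finset.sum_congr rfl (fun Q _ => ?_)
        rw [pow_add]; ring
    _ ≤ 1 := h

/-- second inequality: with optional insertion of a short polygon -/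
theorem ineqB {x κ : ℝ} (hx : 0 < x) (hκ : WalkBound x κ) {m : ℕ} (hm : 1 ≤ m)
    (𝒬 : Finset (List Pt)) (h𝒬 : ∀ Q ∈ 𝒬, Canon Q ∧ ∃ q ∈ Q, 4 * (m : ℤ) - 1 ≤ q.2)
    (𝒮 : Finset (List Pt × ℕ)) (h𝒮 : ∀ R ∈ 𝒮, Canon R.1 ∧ (∀ r ∈ R.1, r.2 ≤ m) ∧
      ∃ r ∈ R.1, (R.2 : ℤ) ≤ r.2) :
    x ^ 2 * m * (∑ Q ∈ 𝒬, x ^ Q.length) * (1 + x ^ 2 * ∑ R ∈ 𝒮, x ^ R.1.length) ≤ 1 := by
  rcases 𝒬.eq_empty_or_nonempty with rfl | ⟨Q0, hQ0⟩
  · simp
  have h := growth (σ := St) (ι := (List Pt × ℕ) × Option (List Pt × ℕ)) (Inv (2 * (m : ℤ)))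
    (fun s => x ^ wt s)
    ((𝒬 ×ˢ Finset.range m) ×ˢ Finset.insertNone 𝒮)
    (fun i => x ^ (i.1.1.length + 2) * (match i.2 with
      | none => 1
      | some R => x ^ (R.1.length + 2)))
    (fun s i s' => match i.2 with
      | none => Step s s' ∧ Rec s i.1.1 i.1.2 s'
      | some R => ∃ s1, Step s s1 ∧ Step s1 s' ∧ IsGood s1 ∧ Rec2 s i.1.1 i.1.2 R.1 R.2 s1 s')
    (by
      rintro s hs ⟨i, R⟩ hi
      rw [Finset.mem_product, Finset.mem_product, Finset.mem_range] at hi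
      obtain ⟨hQ, q, hq, hqm⟩ := h𝒬 _ hi.1.1
      have hi2 := hi.1.2
      simp only at hi2 hQ hq
      rcases R with - | R
      · obtain ⟨s', h1, h2, h3, h4⟩ := move (c := 2 * (m : ℤ)) (k := (i.2 : ℤ)) (by omega)
          (by omega) hs hQ ⟨q, hq, by omega⟩
        refine ⟨s', ⟨h1, h4⟩, h2, ?_⟩
        simp only
        rw [h3, add_assoc, pow_add, mul_one]
      · have hR : R ∈ 𝒮 := by simpa using hi.2
        obtain ⟨hR1, hR2, hR3⟩ := h𝒮 _ hR
        obtain ⟨s1, s', h1, h2, h3, h4, h5, h6⟩ := move2 (m := (m : ℤ)) (k := (i.2 : ℤ))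
          (by omega) (by omega) hs hQ ⟨q, hq, hqm⟩ hR1 hR2 (o := (R.2 : ℤ)) (by omega) hR3
        refine ⟨s', ⟨s1, h1, h2, h4, h6⟩, h3, ?_⟩
        simp only
        rw [h5, ← pow_add, ← pow_add]
        congr 1
        ring)
    (by
      rintro s1 ⟨i1, R1⟩ s2 ⟨i2, R2⟩ s' hs1 hs2 hi1 hi2 h1 h2
      rw [Finset.mem_product, Finset.mem_product] at hi1 hi2
      have hnot : ∀ {s s1 : St} {Q R : List Pt} {k o : ℤ}, Inv (2 * (m : ℤ)) s1 →
          (∀ r ∈ R, r.2 ≤ m) → Canon R → ¬ Rec2 s Q k R o s1 s' := by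
        intro s s1 Q R k o hI hRm hRc hrec
        obtain ⟨d, e, t, a, b, -⟩ := hrec
        obtain ⟨v, L0, U0, P0, t', g, ht', hc⟩ := hI
        have hv := hc v (by simp)
        obtain ⟨y, hy, hyt⟩ := ht'.1
        rw [g.eq] at b
        obtain ⟨z, hz, rfl⟩ := (b.mem y).1 hy
        obtain ⟨z', hz', hz'e⟩ := (b.mem v).1 (by simp)
        have e1 := hRm z hz
        have e2 := hRc.low z' hz'
        have e3 := congrArg Prod.snd hz'e
        simp only [Prod.snd_add] at e3 hyt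
        omega
      rcases R1 with - | R1 <;> rcases R2 with - | R2
      · have e := step_unique hs1.good hs2.good h1.1 h2.1
        subst e
        obtain ⟨e1, e2⟩ := Rec.unique (h𝒬 _ hi1.1.1).1 (h𝒬 _ hi2.1.1).1 h1.2 h2.2
        exact ⟨rfl, Prod.ext (Prod.ext e1 (by exact_mod_cast e2)) rfl⟩
      · exfalso
        obtain ⟨s3, a1, a2, a3, a4⟩ := h2
        have hR : R2 ∈ 𝒮 := by simpa using hi2.2
        have e := step_unique hs1.good a3 h1.1 a2
        subst e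
        exact hnot hs1 (h𝒮 _ hR).2.1 (h𝒮 _ hR).1 a4
      · exfalso
        obtain ⟨s3, a1, a2, a3, a4⟩ := h1
        have hR : R1 ∈ 𝒮 := by simpa using hi1.2
        have e := step_unique hs2.good a3 h2.1 a2
        subst e
        exact hnot hs2 (h𝒮 _ hR).2.1 (h𝒮 _ hR).1 a4
      · obtain ⟨s3, a1, a2, a3, a4⟩ := h1
        obtain ⟨s4, b1, b2, b3, b4⟩ := h2
        have hR1 : R1 ∈ 𝒮 := by simpa using hi1.2
        have hR2 : R2 ∈ 𝒮 := by simpa using hi2.2
        have e := step_unique a3 b3 a2 b2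
        subst e
        have e := step_unique hs1.good hs2.good a1 b1
        subst e
        obtain ⟨e1, e2, e3, e4⟩ := Rec2.unique (h𝒬 _ hi1.1.1).1 (h𝒬 _ hi2.1.1).1
          (h𝒮 _ hR1).1 (h𝒮 _ hR2).1 a4 b4
        refine ⟨rfl, Prod.ext (Prod.ext e1 (by exact_mod_cast e2)) ?_⟩
        simp only [Option.some.injEq]
        exact Prod.ext e3 (by exact_mod_cast e4))
    ([0], [0], Q0) (start (h𝒬 _ hQ0).1 (by
      obtain ⟨q, hq, hqm⟩ := (h𝒬 _ hQ0).2
      exact ⟨q, hq, by omega⟩)) (pow_pos hx _) (κ ^ 3)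
    (fun F hF => state_bound hx.le hκ F (fun s hs => (hF s hs).good))
  rw [Finset.sum_product] at h
  simp only [Finset.sum_insertNone, mul_one] at h
  have e : ∀ i : List Pt × ℕ, x ^ (i.1.length + 2) + ∑ R ∈ 𝒮, x ^ (i.1.length + 2) *
      x ^ (R.1.length + 2) = x ^ (i.1.length + 2) * (1 + x ^ 2 * ∑ R ∈ 𝒮, x ^ R.1.length) := by
    intro i
    have e1 : ∀ R ∈ 𝒮, x ^ (i.1.length + 2) * x ^ (R.1.length + 2) =
        x ^ (i.1.length + 2) * (x ^ 2 * x ^ R.1.length) := fun R _ => by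
      rw [pow_add x R.1.length]; ring
    rw [Finset.sum_congr rfl e1, ← Finset.mul_sum, ← Finset.mul_sum]; ring
  simp only [e] at h
  rw [← Finset.sum_mul, Finset.sum_product] at h
  simp only [Finset.sum_const, Finset.card_range, nsmul_eq_mul] at h
  refine le_trans (le_of_eq ?_) h
  congr 1
  rw [Finset.mul_sum]
  refine Finset.sum_congr rfl (fun Q _ => ?_)
  rw [pow_add]; ring

end Pool.Agent.Work.MP_376faf_co
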