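import Pool.Agent.Work.MP_376faf_co.LSum

/-! Few polygons have few bumps. -/

set_option autoImplicit false

namespace Pool.Agent.Work.MP_376faf_co.LC

open Dir Finset

/-- no immediate reversal -/
def NR : List Dir → Prop
  | [] => True
  | [_] => True
  | a :: b :: t => b ≠ a.op ∧ NR (b :: t)

instance decNR : (w : List Dir) → Decidable (NR w)
  | [] => isTrue trivial
  | [_] => isTrue trivial
  | a :: b :: t => by
    unfold NR
    have := decNR (b :: t)
    infer_instance

lemma NR_iff {w : List Dir} : NR w ↔ ∀ l a b r, w = l ++ a :: b :: r → b ≠ a.op := by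
  induction w with
  | nil => simp [NR]
  | cons x t ih =>
    rcases t with _ | ⟨y, t⟩
    · simp only [NR, true_iff]
      intro l a b r h
      have := congrArg List.length h
      simp at this
      omega
    · rw [NR, ih]
      constructor
      · rintro ⟨h1, h2⟩ l a b r h
        rcases l with _ | ⟨z, l⟩
        · simp only [List.nil_append, List.cons.injEq] at h
          obtain ⟨rfl, rfl, rfl⟩ := h
          exact h1
        · simp only [List.cons_append, List.cons.injEq] at h
          exact h2 l a b r h.2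
      · intro h
        exact ⟨h [] x y t rfl, fun l a b r h' => h (x :: l) a b r (by rw [h']; rfl)⟩

lemma NR_of_isPoly {w : List Dir} (h : IsPoly w) (hl : 3 ≤ w.length) : NR w := by
  rw [NR_iff]
  rintro l a b r hw rfl
  obtain ⟨h0, hn⟩ := h
  rcases r with _ | ⟨c, r⟩
  · rw [hw] at h0
    simp only [endp_append, endp_cons, endp_nil, vec_op, add_zero, add_neg_cancel] at h0
    rcases l with _ | ⟨d, l⟩
    · rw [hw] at hl; simp at hl
    · have e1 : w = [] ++ d :: (l ++ [a, a.op]) := by rw [hw]; simp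
      have e2 : w = (d :: l) ++ a :: [a.op] := hw
      have := prefix_unique hn e1 e2 (by rw [h0]; rfl)
      simp at this
  · have e1 : w = l ++ a :: (a.op :: c :: r) := hw
    have e2 : w = (l ++ [a, a.op]) ++ c :: r := by rw [hw]; simp
    have := prefix_unique hn e1 e2 (by simp [vec_op])
    have h3 := congrArg List.length this.1
    simp at h3

/-- weight of a word -/
noncomputable def wt (w : List Dir) : ℝ := if NR w then (7 / 100 : ℝ) ^ kk w else 0

lemma wt_cons (a b c : Dir) (t : List Dir) : wt (a :: b :: c :: t) =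
    (if b = a.op then 0 else if c = a.op then 7 / 100 else 1) * wt (b :: c :: t) := by
  unfold wt
  rw [kk_cons_cons_cons]
  have h : NR (a :: b :: c :: t) ↔ b ≠ a.op ∧ NR (b :: c :: t) := Iff.rfl
  by_cases h1 : b = a.op
  · rw [if_neg (by rw [h]; tauto), if_pos h1, zero_mul]
  · by_cases h2 : NR (b :: c :: t)
    · rw [if_pos (by rw [h]; tauto), if_neg h1, if_pos h2]
      split_ifs <;> ring
    · rw [if_neg (by rw [h]; tauto), if_neg h2, mul_zero]

/-- potential -/
noncomputable def hh (a b : Dir) : ℝ := if b = a.op then 0 else if b = a then 138 / 100 else 1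

lemma sum_wt_le (m : ℕ) (a b : Dir) :
    ∑ t ∈ words m, wt (a :: b :: t) ≤ (49 / 20 : ℝ) ^ m * hh a b := by
  induction m generalizing a b with
  | zero =>
    simp only [words, sum_singleton, pow_zero, one_mul]
    unfold wt hh
    have h : NR [a, b] ↔ b ≠ a.op := by simp [NR]
    rw [kk_two, pow_zero]
    by_cases h1 : b = a.op
    · rw [if_neg (by rw [h]; tauto), if_pos h1]
    · rw [if_pos (by rw [h]; tauto), if_neg h1]
      split_ifs <;> norm_num
  | succ m ih =>
    rw [sum_words_succ]
    simp only [wt_cons, ← mul_sum]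
    have hp : (0 : ℝ) < (49 / 20 : ℝ) ^ m := by positivity
    calc ∑ c : Dir, (if b = a.op then (0 : ℝ) else if c = a.op then 7 / 100 else 1) *
          ∑ t ∈ words m, wt (b :: c :: t)
        ≤ ∑ c : Dir, (if b = a.op then (0 : ℝ) else if c = a.op then 7 / 100 else 1) *
          ((49 / 20 : ℝ) ^ m * hh b c) := by
          apply sum_le_sum
          intro c _
          apply mul_le_mul_of_nonneg_left (ih b c)
          split_ifs <;> norm_num
      _ ≤ (49 / 20 : ℝ) ^ (m + 1) * hh a b := by
          have e : ∀ c : Dir, (if b = a.op then (0 : ℝ) else if c = a.op then 7 / 100 else 1) *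
              ((49 / 20 : ℝ) ^ m * hh b c) = (49 / 20 : ℝ) ^ m *
              ((if b = a.op then (0 : ℝ) else if c = a.op then 7 / 100 else 1) * hh b c) := by
            intro c; ring
          simp only [e, ← mul_sum]
          rw [pow_succ, mul_assoc]
          apply mul_le_mul_of_nonneg_left _ hp.le
          rw [sum_dir]
          cases a <;> cases b <;> simp [hh, op] <;> norm_num

lemma sum_wt_words (m : ℕ) : ∑ w ∈ words (m + 2), wt w ≤ 14 * (49 / 20 : ℝ) ^ m := by
  rw [sum_words_succ]
  have hp : (0 : ℝ) < (49 / 20 : ℝ) ^ m := by positivity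
  calc ∑ a : Dir, ∑ t ∈ words (m + 1), wt (a :: t)
      = ∑ a : Dir, ∑ b : Dir, ∑ t ∈ words m, wt (a :: b :: t) := by
        apply sum_congr rfl
        intro a _
        rw [sum_words_succ]
    _ ≤ ∑ a : Dir, ∑ b : Dir, (49 / 20 : ℝ) ^ m * hh a b :=
        sum_le_sum fun a _ => sum_le_sum fun b _ => sum_wt_le m a b
    _ = (49 / 20 : ℝ) ^ m * ∑ a : Dir, ∑ b : Dir, hh a b := by
        simp only [mul_sum]
    _ ≤ (49 / 20 : ℝ) ^ m * 14 := by
        apply mul_le_mul_of_nonneg_left _ hp.le
        simp only [sum_dir]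
        simp [hh, op]
        norm_num
    _ = _ := by ring

lemma wt_nonneg (w : List Dir) : 0 ≤ wt w := by
  unfold wt; split_ifs <;> positivity

theorem bad_le (L K : ℕ) (hL : 3 ≤ L) :
    bad L K ≤ 14 * (100 / 7 : ℝ) ^ K * (49 / 20 : ℝ) ^ L := by
  obtain ⟨m, rfl⟩ : ∃ m, L = m + 2 := ⟨L - 2, by omega⟩
  have h1 : bad (m + 2) K * (7 / 100 : ℝ) ^ K ≤ 14 * (49 / 20 : ℝ) ^ m := by
    refine le_trans ?_ (sum_wt_words m)
    have h2 : bad (m + 2) K * (7 / 100 : ℝ) ^ K =
        ∑ w ∈ (W (m + 2)).filter (fun w => kk w < K), (7 / 100 : ℝ) ^ K := by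
      rw [sum_const, nsmul_eq_mul]; rfl
    rw [h2]
    calc ∑ w ∈ (W (m + 2)).filter (fun w => kk w < K), (7 / 100 : ℝ) ^ K
        ≤ ∑ w ∈ (W (m + 2)).filter (fun w => kk w < K), wt w := by
          apply sum_le_sum
          intro w hw
          rw [mem_filter, mem_W] at hw
          obtain ⟨⟨h3, h4⟩, h5⟩ := hw
          rw [wt, if_pos (NR_of_isPoly h4 (by omega))]
          apply pow_le_pow_of_le_one (by norm_num) (by norm_num) h5.le
      _ ≤ ∑ w ∈ words (m + 2), wt w := by
          apply sum_le_sum_of_subset_of_nonneg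
          · exact (filter_subset _ _).trans (filter_subset _ _)
          · intro w _ _; exact wt_nonneg w
  have h3 : (100 / 7 : ℝ) ^ K * (7 / 100 : ℝ) ^ K = 1 := by
    rw [← mul_pow]; norm_num
  have h4 : (49 / 20 : ℝ) ^ m ≤ (49 / 20 : ℝ) ^ (m + 2) :=
    pow_le_pow_right₀ (by norm_num) (by omega)
  calc bad (m + 2) K = (100 / 7 : ℝ) ^ K * (bad (m + 2) K * (7 / 100 : ℝ) ^ K) := by
        rw [mul_comm (bad (m + 2) K), ← mul_assoc, h3, one_mul]
    _ ≤ (100 / 7 : ℝ) ^ K * (14 * (49 / 20 : ℝ) ^ m) :=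
        mul_le_mul_of_nonneg_left h1 (by positivity)
    _ ≤ (100 / 7 : ℝ) ^ K * (14 * (49 / 20 : ℝ) ^ (m + 2)) := by gcongr
    _ = _ := by ring

end Pool.Agent.Work.MP_376faf_co.LC
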