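import Pool.Agent.Work.MP_376faf_co.LWin
import Pool.Agent.Work.MP_376faf_co.LCount

/-! The bound for all lengths, from the tail bound. -/

set_option autoImplicit false

namespace Pool.Agent.Work.MP_376faf_co.LC

open Finset Filter Topology

lemma beta_aux : (100 / 7 : ℝ) ≤ (203 / 200 : ℝ) ^ 200 := by
  have h1 : (106 / 100 : ℝ) ≤ (203 / 200 : ℝ) ^ 4 := by norm_num
  have h2 : (133 / 100 : ℝ) ≤ (106 / 100 : ℝ) ^ 5 := by norm_num
  have h3 : (100 / 7 : ℝ) ≤ (133 / 100 : ℝ) ^ 10 := by norm_num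
  calc (100 / 7 : ℝ) ≤ (133 / 100 : ℝ) ^ 10 := h3
    _ ≤ ((106 / 100 : ℝ) ^ 5) ^ 10 := pow_le_pow_left₀ (by norm_num) h2 10
    _ = (106 / 100 : ℝ) ^ 50 := by rw [← pow_mul]
    _ ≤ ((203 / 200 : ℝ) ^ 4) ^ 50 := pow_le_pow_left₀ (by norm_num) h1 50
    _ = (203 / 200 : ℝ) ^ 200 := by rw [← pow_mul]

lemma beta_bound {μ : ℝ} (hμ : 249 / 100 ≤ μ) (n : ℕ) :
    bad (2 * n + 2) (n / 200) / μ ^ (2 * n + 2) ≤ 14 * (983 / 1000 : ℝ) ^ n := by
  rcases Nat.eq_zero_or_pos n with h0 | hpos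
  · subst h0
    have : bad (2 * 0 + 2) (0 / 200) = 0 := by
      unfold bad
      simp
    rw [this]
    norm_num
  · have h1 := bad_le (2 * n + 2) (n / 200) (by omega)
    have h2 : (100 / 7 : ℝ) ^ (n / 200) ≤ (203 / 200 : ℝ) ^ n := by
      calc (100 / 7 : ℝ) ^ (n / 200) ≤ ((203 / 200 : ℝ) ^ 200) ^ (n / 200) :=
            pow_le_pow_left₀ (by norm_num) beta_aux _
        _ = (203 / 200 : ℝ) ^ (200 * (n / 200)) := by rw [← pow_mul]
        _ ≤ (203 / 200 : ℝ) ^ n := pow_le_pow_right₀ (by norm_num) (Nat.mul_div_le n 200)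
    have h3 : (249 / 100 : ℝ) ^ (2 * n + 2) ≤ μ ^ (2 * n + 2) :=
      pow_le_pow_left₀ (by norm_num) hμ _
    have h4 : (0 : ℝ) < (249 / 100 : ℝ) ^ (2 * n + 2) := by positivity
    have h5 : (0 : ℝ) < (49 / 20 : ℝ) ^ (2 * n + 2) := by positivity
    have h6 : (49 / 20 : ℝ) ^ (2 * n + 2) / (249 / 100 : ℝ) ^ (2 * n + 2) ≤
        ((245 / 249 : ℝ) ^ 2) ^ n := by
      rw [← div_pow, ← pow_mul]
      have : (49 / 20 : ℝ) / (249 / 100) = 245 / 249 := by norm_num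
      rw [this]
      exact pow_le_pow_of_le_one (by norm_num) (by norm_num) (by omega)
    calc bad (2 * n + 2) (n / 200) / μ ^ (2 * n + 2)
        ≤ (14 * (203 / 200 : ℝ) ^ n * (49 / 20 : ℝ) ^ (2 * n + 2)) /
          (249 / 100 : ℝ) ^ (2 * n + 2) := by
          apply div_le_div₀ (by positivity) _ h4 h3
          refine h1.trans ?_
          apply mul_le_mul_of_nonneg_right _ h5.le
          linarith
      _ = 14 * ((203 / 200 : ℝ) ^ n * ((49 / 20 : ℝ) ^ (2 * n + 2) /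
          (249 / 100 : ℝ) ^ (2 * n + 2))) := by rw [mul_assoc, mul_div_assoc, mul_div_assoc]
      _ ≤ 14 * ((203 / 200 : ℝ) ^ n * ((245 / 249 : ℝ) ^ 2) ^ n) := by
          apply mul_le_mul_of_nonneg_left _ (by norm_num)
          apply mul_le_mul_of_nonneg_left h6 (by positivity)
      _ = 14 * ((203 / 200 : ℝ) * (245 / 249 : ℝ) ^ 2) ^ n := by rw [mul_pow]
      _ ≤ 14 * (983 / 1000 : ℝ) ^ n := by
          apply mul_le_mul_of_nonneg_left _ (by norm_num)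
          apply pow_le_pow_left₀ (by norm_num)
          norm_num

lemma rel_alg {μ x y z b K n M : ℝ} (hμ : 249 / 100 ≤ μ) (hx0 : 0 ≤ x) (hy0 : 0 ≤ y)
    (hz0 : 0 ≤ z) (hM0 : 0 < M) (hn' : 4000 ≤ n) (hKn : n ≤ 200 * K + 200) (hK9 : 9 ≤ K)
    (h : (y - b) ^ 2 ≤ (1 + 13 / (K - 8)) ^ 2 * (x * (z + 68 / K * y))) :
    (y / (M * μ ^ 2) - b / (M * μ ^ 2)) ^ 2 ≤
      (1 + 30000 / n) ^ 2 * (x / M * (z / (M * μ ^ 4) + 30000 / n * (y / (M * μ ^ 2)))) := by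
  have hμ0 : 0 < μ := by linarith
  have hK0 : 0 < K := by linarith
  have e1 : 13 / (K - 8) ≤ 30000 / n := by
    rw [div_le_div_iff₀ (by linarith) (by linarith)]
    linarith
  have e2 : 68 / K / μ ^ 2 ≤ 30000 / n := by
    have e3 : 68 / K / μ ^ 2 ≤ 68 / K := by
      apply div_le_self (by positivity)
      nlinarith
    refine e3.trans ?_
    rw [div_le_div_iff₀ (by linarith) (by linarith)]
    linarith
  have hm2 : 0 < μ ^ 2 := by positivity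
  have hm4 : 0 < μ ^ 4 := by positivity
  have hLHS : (y / (M * μ ^ 2) - b / (M * μ ^ 2)) ^ 2 = (y - b) ^ 2 / (M ^ 2 * μ ^ 4) := by
    rw [← sub_div, div_pow]
    congr 1
    ring
  rw [hLHS, div_le_iff₀ (by positivity)]
  refine h.trans ?_
  have hf : (0 : ℝ) ≤ 13 / (K - 8) := div_nonneg (by norm_num) (by linarith)
  have e4 : x * (z + 68 / K * y) =
      (x / M * (z / (M * μ ^ 4) + 68 / K / μ ^ 2 * (y / (M * μ ^ 2)))) * (M ^ 2 * μ ^ 4) := by
    have hμne := hμ0.ne'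
    have hMne := hM0.ne'
    field_simp
  rw [e4, ← mul_assoc]
  apply mul_le_mul_of_nonneg_right _ (by positivity)
  apply mul_le_mul
  · apply pow_le_pow_left₀ (by linarith)
    linarith
  · apply mul_le_mul_of_nonneg_left _ (by positivity)
    have := mul_le_mul_of_nonneg_right e2 (by positivity : 0 ≤ y / (M * μ ^ 2))
    linarith
  · positivity
  · positivity

theorem rel_scaled {μ : ℝ} (hμ : 249 / 100 ≤ μ) (n : ℕ) (hn : 4000 ≤ n) :
    (NN (2 * (n + 1)) / μ ^ (2 * (n + 1)) - bad (2 * n + 2) (n / 200) / μ ^ (2 * n + 2)) ^ 2 ≤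
      (1 + 30000 / (n : ℝ)) ^ 2 * (NN (2 * n) / μ ^ (2 * n) * (NN (2 * (n + 2)) / μ ^ (2 * (n + 2)) +
        30000 / (n : ℝ) * (NN (2 * (n + 1)) / μ ^ (2 * (n + 1))))) := by
  have hμ0 : 0 < μ := by linarith
  have hK : 9 ≤ n / 200 := by omega
  have h := lc_raw (2 * n) (n / 200) hK
  have hn' : (4000 : ℝ) ≤ n := by exact_mod_cast hn
  have hKn : (n : ℝ) ≤ 200 * ((n / 200 : ℕ) : ℝ) + 200 := by
    have : n ≤ 200 * (n / 200) + 200 := by omega
    exact_mod_cast this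
  have hK9 : (9 : ℝ) ≤ ((n / 200 : ℕ) : ℝ) := by exact_mod_cast hK
  have hM0 : 0 < μ ^ (2 * n) := pow_pos hμ0 _
  have p1 : μ ^ (2 * (n + 1)) = μ ^ (2 * n) * μ ^ 2 := by rw [← pow_add]; congr 1
  have p2 : μ ^ (2 * (n + 2)) = μ ^ (2 * n) * μ ^ 4 := by rw [← pow_add]; congr 1
  have p3 : μ ^ (2 * n + 2) = μ ^ (2 * n) * μ ^ 2 := pow_add _ _ _
  rw [p1, p2, p3, show 2 * (n + 1) = 2 * n + 2 by ring, show 2 * (n + 2) = 2 * n + 4 by ring]
  exact rel_alg hμ (NN_nonneg _) (NN_nonneg _) (NN_nonneg _) hM0 hn' hKn hK9 h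

theorem all_lengths {μ : ℝ} (hμ : 249 / 100 ≤ μ)
    (htail : ∀ c : ℝ, 0 < c → ∃ N0 : ℕ, ∀ n, N0 ≤ n → ∀ M,
      ∑ m ∈ Ico n M, NN (2 * m) / μ ^ (2 * m) / m ≤ c / Real.sqrt n) :
    Tendsto (fun n => NN (2 * n) / μ ^ (2 * n)) atTop (𝓝 0) := by
  have hμ0 : 0 < μ := by linarith
  exact tendsto_zero (a := fun n => NN (2 * n) / μ ^ (2 * n))
    (β := fun n => bad (2 * n + 2) (n / 200) / μ ^ (2 * n + 2)) (D := 30000) (C0 := 14)
    (ρ := 983 / 1000) (n0 := 4000) (fun n => div_nonneg (NN_nonneg _) (by positivity))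
    (by norm_num) (by norm_num) (by norm_num) (beta_bound hμ) (rel_scaled hμ) htail

end Pool.Agent.Work.MP_376faf_co.LC
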