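import Mathlib

/-! Step words on the square lattice: positions, edges, polygons. -/

set_option autoImplicit false

namespace Pool.Agent.Work.MP_376faf_co.LC

/-- The four unit directions. -/
inductive Dir
  | e | n | w | s
  deriving DecidableEq, Fintype

namespace Dir

/-- opposite direction -/
def op : Dir → Dir
  | e => w | n => s | w => e | s => n

/-- unit vector -/
def vec : Dir → ℤ × ℤ
  | e => (1, 0) | n => (0, 1) | w => (-1, 0) | s => (0, -1)

@[simp] lemma op_op (d : Dir) : d.op.op = d := by cases d <;> rfl

lemma vec_op (d : Dir) : d.op.vec = -d.vec := by cases d <;> rfl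

lemma vec_inj {a b : Dir} (h : a.vec = b.vec) : a = b := by
  cases a <;> cases b <;> simp_all [vec]

lemma vec_ne_zero (d : Dir) : d.vec ≠ 0 := by cases d <;> simp [vec, Prod.ext_iff]

lemma vec_add_eq_zero {a b : Dir} (h : a.vec + b.vec = 0) : b = a.op := by
  cases a <;> cases b <;> simp_all [vec, op]

end Dir

abbrev Pt := ℤ × ℤ

/-- endpoint of the walk starting at the origin -/
def endp : List Dir → Pt
  | [] => 0
  | d :: l => d.vec + endp l

/-- directed edges of the walk: starting point and direction -/
def es : List Dir → List (Pt × Dir)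
  | [] => []
  | d :: l => (0, d) :: (es l).map (fun q => (d.vec + q.1, q.2))

/-- starting points of the steps -/
def vs (w : List Dir) : List Pt := (es w).map Prod.fst

@[simp] lemma endp_nil : endp [] = 0 := rfl

@[simp] lemma endp_cons (d : Dir) (l : List Dir) : endp (d :: l) = d.vec + endp l := rfl

@[simp] lemma es_nil : es [] = [] := rfl

@[simp] lemma es_cons (d : Dir) (l : List Dir) :
    es (d :: l) = (0, d) :: (es l).map (fun q => (d.vec + q.1, q.2)) := rfl

@[simp] lemma vs_nil : vs [] = [] := rfl

lemma vs_cons (d : Dir) (l : List Dir) : vs (d :: l) = 0 :: (vs l).map (fun q => d.vec + q) := by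
  simp [vs, Function.comp_def]

@[simp] lemma endp_append (l r : List Dir) : endp (l ++ r) = endp l + endp r := by
  induction l with
  | nil => simp
  | cons d l ih => simp [ih, add_assoc]

lemma es_append (l r : List Dir) :
    es (l ++ r) = es l ++ (es r).map (fun q => (endp l + q.1, q.2)) := by
  induction l with
  | nil => simp
  | cons d l ih => simp [ih, add_assoc, Function.comp_def]

lemma vs_append (l r : List Dir) : vs (l ++ r) = vs l ++ (vs r).map (fun q => endp l + q) := by
  simp [vs, es_append, Function.comp_def]

@[simp] lemma length_es (w : List Dir) : (es w).length = w.length := by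
  induction w with
  | nil => rfl
  | cons d l ih => simp [ih]

@[simp] lemma length_vs (w : List Dir) : (vs w).length = w.length := by simp [vs]

lemma mem_es {w : List Dir} {p : Pt} {b : Dir} :
    (p, b) ∈ es w ↔ ∃ l r, w = l ++ b :: r ∧ p = endp l := by
  constructor
  · intro h
    induction w generalizing p with
    | nil => simp at h
    | cons d t ih =>
      simp only [es_cons, List.mem_cons, Prod.mk.injEq, List.mem_map] at h
      rcases h with ⟨rfl, rfl⟩ | ⟨⟨q1, q2⟩, hq, h1⟩
      · exact ⟨[], t, rfl, rfl⟩
      · simp only at h1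
        obtain ⟨h1, rfl⟩ := h1
        obtain ⟨l, r, rfl, rfl⟩ := ih hq
        exact ⟨d :: l, r, rfl, h1.symm⟩
  · rintro ⟨l, r, rfl, rfl⟩
    rw [es_append]
    simp

lemma mem_vs {w : List Dir} {p : Pt} :
    p ∈ vs w ↔ ∃ l b r, w = l ++ b :: r ∧ p = endp l := by
  constructor
  · intro h
    simp only [vs, List.mem_map, Prod.exists, exists_and_right, exists_eq_right] at h
    obtain ⟨b, hb⟩ := h
    obtain ⟨l, r, h1, h2⟩ := mem_es.1 hb
    exact ⟨l, b, r, h1, h2⟩
  · rintro ⟨l, b, r, h1, h2⟩
    simp only [vs, List.mem_map, Prod.exists, exists_and_right, exists_eq_right]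
    exact ⟨b, mem_es.2 ⟨l, r, h1, h2⟩⟩

/-- closed self-avoiding words -/
def IsPoly (w : List Dir) : Prop := endp w = 0 ∧ (vs w).Nodup

instance (w : List Dir) : Decidable (IsPoly w) := by unfold IsPoly; infer_instance

/-- all words of given length -/
def words : ℕ → Finset (List Dir)
  | 0 => {[]}
  | m + 1 => (Finset.univ ×ˢ words m).map
      ⟨fun p : Dir × List Dir => p.1 :: p.2, fun p q h => by
        simp only [List.cons.injEq] at h; exact Prod.ext h.1 h.2⟩

lemma mem_words {m : ℕ} {w : List Dir} : w ∈ words m ↔ w.length = m := by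
  induction m generalizing w with
  | zero => simp [words]
  | succ m ih =>
    cases w with
    | nil => simp [words]
    | cons a t =>
      simp [words, ih]

lemma sum_words_succ {M : Type*} [AddCommMonoid M] (m : ℕ) (f : List Dir → M) :
    ∑ w ∈ words (m + 1), f w = ∑ a : Dir, ∑ t ∈ words m, f (a :: t) := by
  rw [words, Finset.sum_map, Finset.sum_product]
  rfl

/-- polygons of given length -/
def W (m : ℕ) : Finset (List Dir) := (words m).filter IsPoly

lemma mem_W {m : ℕ} {w : List Dir} : w ∈ W m ↔ w.length = m ∧ IsPoly w := by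
  simp [W, mem_words]

/-- sum over directions -/
lemma sum_dir {M : Type*} [AddCommMonoid M] (f : Dir → M) :
    ∑ a : Dir, f a = f .e + f .n + f .w + f .s := by
  have : (Finset.univ : Finset Dir) = {.e, .n, .w, .s} := rfl
  rw [this]
  simp [add_assoc]

end Pool.Agent.Work.MP_376faf_co.LC
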