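import Pool.Agent.Work.MP_376faf_co.LBase

/-! Unit bumps of a polygon and their insertion. -/

set_option autoImplicit false

namespace Pool.Agent.Work.MP_376faf_co.LC

open Dir

/-- decomposition data: prefix, side direction, direction, suffix -/
abbrev Dec := List Dir × Dir × Dir × List Dir

/-- the word with the bump -/
def big (x : Dec) : List Dir := x.1 ++ x.2.1 :: x.2.2.1 :: x.2.1.op :: x.2.2.2

/-- the word without the bump -/
def sml (x : Dec) : List Dir := x.1 ++ x.2.2.1 :: x.2.2.2

/-- prepend a direction to the prefix -/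
def pre (d : Dir) (x : Dec) : Dec := (d :: x.1, x.2)

/-- bump at the head -/
def hb (a : Dir) : List Dir → List Dec
  | [] => []
  | [_] => []
  | b :: c :: r => if c = a.op then [([], a, b, r)] else []

/-- list of bumps -/
def bumps : List Dir → List Dec
  | [] => []
  | a :: t => hb a t ++ (bumps t).map (pre a)

/-- number of bumps -/
def kk (w : List Dir) : ℕ := (bumps w).length

lemma kk_nil : kk [] = 0 := rfl

lemma kk_cons_le (a : Dir) (t : List Dir) : kk (a :: t) ≤ kk t + 1 := by
  unfold kk
  rw [bumps]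
  rcases t with _ | ⟨b, _ | ⟨c, r⟩⟩
  · simp [hb]
  · simp [hb]
  · simp only [hb, List.length_append, List.length_map]
    split_ifs
    · simp; omega
    · simp

lemma le_kk_cons (a : Dir) (t : List Dir) : kk t ≤ kk (a :: t) := by
  unfold kk
  rw [bumps]
  simp

lemma kk_cons_cons_cons (a b c : Dir) (r : List Dir) :
    kk (a :: b :: c :: r) = kk (b :: c :: r) + if c = a.op then 1 else 0 := by
  unfold kk
  rw [bumps]
  simp only [hb, List.length_append, List.length_map]
  split_ifs <;> simp [add_comm]

lemma kk_two (a b : Dir) : kk [a, b] = 0 := rfl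

lemma kk_append_ge (l r : List Dir) : kk l + kk r ≤ kk (l ++ r) := by
  induction l with
  | nil => simp [kk_nil]
  | cons a t ih =>
    match t, ih with
    | [], _ =>
      have : kk [a] = 0 := rfl
      rw [this, zero_add]
      exact le_kk_cons a r
    | [b], _ =>
      rw [kk_two, zero_add]
      exact (le_kk_cons b r).trans (le_kk_cons a (b :: r))
    | b :: c :: t', ih =>
      rw [List.cons_append, List.cons_append, List.cons_append, kk_cons_cons_cons,
        kk_cons_cons_cons]
      simp only [List.cons_append] at ih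
      omega

lemma kk_append_le (l r : List Dir) : kk (l ++ r) ≤ kk l + kk r + 2 := by
  induction l with
  | nil => simp [kk_nil]
  | cons a t ih =>
    match t, ih with
    | [], _ =>
      have := kk_cons_le a r
      simp only [List.cons_append, List.nil_append]
      omega
    | [b], _ =>
      have h1 := kk_cons_le a (b :: r)
      have h2 := kk_cons_le b r
      simp only [List.cons_append, List.nil_append]
      omega
    | b :: c :: t', ih =>
      rw [List.cons_append, List.cons_append, List.cons_append, kk_cons_cons_cons,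
        kk_cons_cons_cons]
      simp only [List.cons_append] at ih
      omega

lemma kk_big_le (x : Dec) : kk (big x) ≤ kk (sml x) + 5 := by
  obtain ⟨l, a, b, r⟩ := x
  unfold big sml
  simp only
  have h1 := kk_append_le l (a :: b :: a.op :: r)
  have h2 := kk_append_ge l (b :: r)
  have h3 := kk_cons_le a (b :: a.op :: r)
  have h4 := kk_cons_le b (a.op :: r)
  have h5 := kk_cons_le a.op r
  have h6 := le_kk_cons b r
  omega

lemma kk_sml_le (x : Dec) : kk (sml x) ≤ kk (big x) + 3 := by
  obtain ⟨l, a, b, r⟩ := x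
  unfold big sml
  simp only
  have h1 := kk_append_le l (b :: r)
  have h2 := kk_append_ge l (a :: b :: a.op :: r)
  have h3 := le_kk_cons a (b :: a.op :: r)
  have h4 := le_kk_cons b (a.op :: r)
  have h5 := le_kk_cons a.op r
  have h6 := kk_cons_le b r
  omega

lemma mem_bumps {w : List Dir} {x : Dec} : x ∈ bumps w ↔ big x = w := by
  obtain ⟨l, a, b, r⟩ := x
  induction w generalizing l with
  | nil => simp [bumps, big]
  | cons d t ih =>
    have h2 : ((l, a, b, r) : Dec) ∈ (bumps t).map (pre d) ↔ ∃ l', l = d :: l' ∧ big (l', a, b, r) = t := by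
      simp only [List.mem_map]
      constructor
      · rintro ⟨⟨l', a', b', r'⟩, h, he⟩
        simp only [pre, Prod.mk.injEq] at he
        obtain ⟨rfl, rfl, rfl, rfl⟩ := he
        exact ⟨l', rfl, (ih l').1 h⟩
      · rintro ⟨l', rfl, h⟩
        exact ⟨(l', a, b, r), (ih l').2 h, rfl⟩
    rw [bumps, List.mem_append, h2]
    constructor
    · rintro (h | ⟨l', rfl, h⟩)
      · rcases t with _ | ⟨b', _ | ⟨c, r'⟩⟩
        · simp [hb] at h
        · simp [hb] at h
        · simp only [hb] at h
          split_ifs at h with hc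
          · simp only [List.mem_singleton, Prod.mk.injEq] at h
            obtain ⟨rfl, rfl, rfl, rfl⟩ := h
            simp [big, hc]
          · simp at h
      · simp only [big, List.cons_append] at h ⊢
        rw [h]
    · intro h
      cases l with
      | nil =>
        left
        simp only [big, List.nil_append, List.cons.injEq] at h
        obtain ⟨rfl, rfl⟩ := h
        simp [hb]
      | cons x l' =>
        right
        simp only [big, List.cons_append, List.cons.injEq] at h
        obtain ⟨rfl, h⟩ := h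
        exact ⟨l', rfl, h⟩

lemma nodup_bumps (w : List Dir) : (bumps w).Nodup := by
  induction w with
  | nil => simp [bumps]
  | cons d t ih =>
    rw [bumps, List.nodup_append]
    refine ⟨?_, ?_, ?_⟩
    · rcases t with _ | ⟨b, _ | ⟨c, r⟩⟩
      · simp [hb]
      · simp [hb]
      · simp only [hb]
        split_ifs <;> simp
    · apply ih.map
      rintro ⟨l, x⟩ ⟨l', x'⟩ h
      simp only [pre, Prod.mk.injEq, List.cons.injEq, true_and] at h
      exact Prod.ext h.1 h.2
    · intro x hx y hy hxy
      subst hxy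
      simp only [List.mem_map] at hy
      obtain ⟨z, -, rfl⟩ := hy
      rcases t with _ | ⟨b, _ | ⟨c, r⟩⟩
      · simp [hb] at hx
      · simp [hb] at hx
      · simp only [hb] at hx
        split_ifs at hx <;> simp [pre] at hx

/-- vertices after insertion -/
lemma vs_big (x : Dec) : (vs (big x)).Perm
    ((endp x.1 + x.2.1.vec) :: (endp x.1 + x.2.1.vec + x.2.2.1.vec) :: vs (sml x)) := by
  obtain ⟨l, a, b, r⟩ := x
  unfold big sml
  simp only
  rw [vs_append, vs_append, vs_cons, vs_cons, vs_cons, vs_cons]
  have h1 : (List.map (fun q => endp l + q) (0 :: List.map (fun q => a.vec + q)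
      (0 :: List.map (fun q => b.vec + q) (0 :: List.map (fun q => a.op.vec + q) (vs r))))) =
      endp l :: (endp l + a.vec) :: (endp l + a.vec + b.vec) ::
        List.map (fun q => endp l + b.vec + q) (vs r) := by
    simp only [List.map_cons, List.map_map, Function.comp_def, add_zero, List.cons.injEq, true_and]
    refine ⟨by rw [← add_assoc], ?_⟩
    apply List.map_congr_left
    intro q _
    rw [vec_op]; abel
  have h2 : (List.map (fun q => endp l + q) (0 :: List.map (fun q => b.vec + q) (vs r))) =
      endp l :: List.map (fun q => endp l + b.vec + q) (vs r) := by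
    simp only [List.map_cons, List.map_map, Function.comp_def, add_zero, List.cons.injEq, true_and]
    apply List.map_congr_left
    intro q _
    rw [add_assoc]
  rw [h1, h2]
  set R := List.map (fun q => endp l + b.vec + q) (vs r)
  have h3 : (vs l ++ endp l :: (endp l + a.vec) :: (endp l + a.vec + b.vec) :: R).Perm
      (vs l ++ (endp l + a.vec) :: (endp l + a.vec + b.vec) :: endp l :: R) := by
    apply List.Perm.append_left
    exact (List.Perm.swap _ _ _).trans ((List.Perm.swap _ _ _).cons _)
  refine h3.trans ?_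
  refine List.perm_middle.trans (List.Perm.cons _ ?_)
  exact List.perm_middle

lemma endp_big (x : Dec) : endp (big x) = endp (sml x) := by
  obtain ⟨l, a, b, r⟩ := x
  simp only [big, sml, endp_append, endp_cons, vec_op]
  abel

lemma isPoly_big {x : Dec} : IsPoly (big x) ↔ IsPoly (sml x) ∧
    endp x.1 + x.2.1.vec ∉ vs (sml x) ∧ endp x.1 + x.2.1.vec + x.2.2.1.vec ∉ vs (sml x) := by
  unfold IsPoly
  rw [endp_big, (vs_big x).nodup_iff, List.nodup_cons, List.nodup_cons, List.mem_cons]
  have h : endp x.1 + x.2.1.vec ≠ endp x.1 + x.2.1.vec + x.2.2.1.vec := by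
    intro h
    exact vec_ne_zero x.2.2.1 (by simpa using h)
  tauto

lemma mem_vs_big {x : Dec} {p : Pt} : p ∈ vs (big x) ↔
    p = endp x.1 + x.2.1.vec ∨ p = endp x.1 + x.2.1.vec + x.2.2.1.vec ∨ p ∈ vs (sml x) := by
  rw [(vs_big x).mem_iff, List.mem_cons, List.mem_cons]

lemma es_sml_subset {x : Dec} {q : Pt × Dir} (hq : q ∈ es (sml x))
    (hne : q ≠ (endp x.1, x.2.2.1)) : q ∈ es (big x) := by
  obtain ⟨l, a, b, r⟩ := x
  simp only [sml, big, es_append, es_cons, List.map_cons, List.map_map, Function.comp_def,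
    List.mem_append, List.mem_cons, add_zero, List.mem_map] at hq hne ⊢
  rcases hq with h | h | ⟨z, hz, h⟩
  · exact Or.inl h
  · exact absurd h hne
  · right; right; right; right
    refine ⟨z, hz, ?_⟩
    rw [← h, vec_op]
    congr 1
    abel

/-- free sites of a polygon -/
def JJ (u : List Dir) : Finset ((Pt × Dir) × Dir) :=
  ((es u).toFinset ×ˢ Finset.univ).filter
    (fun y => y.1.1 + y.2.vec ∉ vs u ∧ y.1.1 + y.2.vec + y.1.2.vec ∉ vs u)

lemma mem_JJ {u : List Dir} {y : (Pt × Dir) × Dir} : y ∈ JJ u ↔
    y.1 ∈ es u ∧ y.1.1 + y.2.vec ∉ vs u ∧ y.1.1 + y.2.vec + y.1.2.vec ∉ vs u := by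
  simp [JJ]

/-- the sites destroyed by an insertion -/
def Bad (x : Dec) : Finset ((Pt × Dir) × Dir) :=
  (Finset.univ : Finset Dir).image (fun a => ((endp x.1, x.2.2.1), a)) ∪
  (({endp x.1 + x.2.1.vec, endp x.1 + x.2.1.vec + x.2.2.1.vec} : Finset Pt) ×ˢ
    ((Finset.univ : Finset Dir) ×ˢ (Finset.univ : Finset Dir))).image
      (fun z => ((z.1 - z.2.2.vec, z.2.1), z.2.2)) ∪
  (({endp x.1 + x.2.1.vec, endp x.1 + x.2.1.vec + x.2.2.1.vec} : Finset Pt) ×ˢ
    ((Finset.univ : Finset Dir) ×ˢ (Finset.univ : Finset Dir))).image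
      (fun z => ((z.1 - z.2.2.vec - z.2.1.vec, z.2.1), z.2.2))

lemma card_Bad (x : Dec) : (Bad x).card ≤ 68 := by
  unfold Bad
  refine (Finset.card_union_le _ _).trans ?_
  have h1 : (({endp x.1 + x.2.1.vec, endp x.1 + x.2.1.vec + x.2.2.1.vec} : Finset Pt) ×ˢ
    ((Finset.univ : Finset Dir) ×ˢ (Finset.univ : Finset Dir))).card ≤ 32 := by
    rw [Finset.card_product, Finset.card_product]
    have : (Finset.univ : Finset Dir).card = 4 := rfl
    rw [this]
    have := Finset.card_le_two (a := endp x.1 + x.2.1.vec)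
      (b := endp x.1 + x.2.1.vec + x.2.2.1.vec)
    omega
  have h2 : ((Finset.univ : Finset Dir).image (fun a => ((endp x.1, x.2.2.1), a))).card ≤ 4 :=
    Finset.card_image_le
  have h3 := (Finset.card_image_le (s := (({endp x.1 + x.2.1.vec,
    endp x.1 + x.2.1.vec + x.2.2.1.vec} : Finset Pt) ×ˢ
    ((Finset.univ : Finset Dir) ×ˢ (Finset.univ : Finset Dir))))
      (f := fun z => ((z.1 - z.2.2.vec, z.2.1), z.2.2))).trans h1
  have h4 := (Finset.card_image_le (s := (({endp x.1 + x.2.1.vec,
    endp x.1 + x.2.1.vec + x.2.2.1.vec} : Finset Pt) ×ˢ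
    ((Finset.univ : Finset Dir) ×ˢ (Finset.univ : Finset Dir))))
      (f := fun z => ((z.1 - z.2.2.vec - z.2.1.vec, z.2.1), z.2.2))).trans h1
  have h5 := Finset.card_union_le ((Finset.univ : Finset Dir).image
    (fun a => ((endp x.1, x.2.2.1), a))) ((({endp x.1 + x.2.1.vec,
    endp x.1 + x.2.1.vec + x.2.2.1.vec} : Finset Pt) ×ˢ
    ((Finset.univ : Finset Dir) ×ˢ (Finset.univ : Finset Dir))).image
      (fun z => ((z.1 - z.2.2.vec, z.2.1), z.2.2)))
  omega

lemma JJ_sub (x : Dec) : JJ (sml x) ⊆ JJ (big x) ∪ Bad x := by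
  rintro ⟨⟨p, b'⟩, a'⟩ hy
  rw [mem_JJ] at hy
  simp only at hy
  obtain ⟨h1, h2, h3⟩ := hy
  by_contra hcon
  rw [Finset.mem_union, not_or, mem_JJ] at hcon
  obtain ⟨hc1, hc2⟩ := hcon
  simp only [Bad, Finset.mem_union, not_or] at hc2
  obtain ⟨⟨hb1, hb2⟩, hb3⟩ := hc2
  apply hc1
  refine ⟨es_sml_subset h1 ?_, ?_, ?_⟩
  · intro h
    simp only [Prod.mk.injEq] at h
    obtain ⟨rfl, rfl⟩ := h
    exact hb1 (Finset.mem_image_of_mem (fun a => ((endp x.1, x.2.2.1), a)) (Finset.mem_univ a'))
  · simp only [mem_vs_big, not_or]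
    have key : ∀ N : Pt, p + a'.vec = N → (((p, b'), a') : (Pt × Dir) × Dir) =
        (fun z : Pt × Dir × Dir => ((z.1 - z.2.2.vec, z.2.1), z.2.2)) (N, b', a') := by
      rintro N rfl
      simp
    refine ⟨?_, ?_, h2⟩
    · intro h
      apply hb2
      rw [key _ h]
      exact Finset.mem_image_of_mem _ (by simp)
    · intro h
      apply hb2
      rw [key _ h]
      exact Finset.mem_image_of_mem _ (by simp)
  · simp only [mem_vs_big, not_or]
    have key : ∀ N : Pt, p + a'.vec + b'.vec = N → (((p, b'), a') : (Pt × Dir) × Dir) =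
        (fun z : Pt × Dir × Dir => ((z.1 - z.2.2.vec - z.2.1.vec, z.2.1), z.2.2)) (N, b', a') := by
      rintro N rfl
      simp only [Prod.mk.injEq, and_true]
      abel
    refine ⟨?_, ?_, h3⟩
    · intro h
      apply hb3
      rw [key _ h]
      exact Finset.mem_image_of_mem _ (by simp)
    · intro h
      apply hb3
      rw [key _ h]
      exact Finset.mem_image_of_mem _ (by simp)

lemma card_JJ_sml_le (x : Dec) : (JJ (sml x)).card ≤ (JJ (big x)).card + 68 := by
  refine (Finset.card_le_card (JJ_sub x)).trans ((Finset.card_union_le _ _).trans ?_)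
  have := card_Bad x
  omega

end Pool.Agent.Work.MP_376faf_co.LC
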