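import Pool.Agent.Work.MP_376faf_co.LBump

/-! Double counting of the pairs (polygon, bump). -/

set_option autoImplicit false

namespace Pool.Agent.Work.MP_376faf_co.LC

open Dir Finset

/-- pairs (polygon of length `L+2`, bump) -/
def EE (L : ℕ) : Finset Dec := (W (L + 2)).biUnion (fun w => (bumps w).toFinset)

lemma mem_EE {L : ℕ} {x : Dec} : x ∈ EE L ↔ big x ∈ W (L + 2) := by
  simp only [EE, mem_biUnion, List.mem_toFinset, mem_bumps]
  constructor
  · rintro ⟨w, hw, h⟩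
    rw [h]; exact hw
  · intro h
    exact ⟨_, h, rfl⟩

lemma length_big (x : Dec) : (big x).length = (sml x).length + 2 := by
  simp [big, sml]; omega

lemma sml_mem {L : ℕ} {x : Dec} (hx : x ∈ EE L) : sml x ∈ W L := by
  rw [mem_EE, mem_W, length_big] at hx
  rw [mem_W]
  exact ⟨by omega, (isPoly_big.1 hx.2).1⟩

/-- number of free sites -/
def jj (u : List Dir) : ℕ := (JJ u).card

lemma sum_big (L : ℕ) (g : List Dir → ℝ) :
    ∑ x ∈ EE L, g (big x) = ∑ w ∈ W (L + 2), (kk w : ℝ) * g w := by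
  rw [EE, sum_biUnion]
  · apply sum_congr rfl
    intro w _
    have : ∑ x ∈ (bumps w).toFinset, g (big x) = ∑ x ∈ (bumps w).toFinset, g w := by
      apply sum_congr rfl
      intro x hx
      rw [List.mem_toFinset, mem_bumps] at hx
      rw [hx]
    rw [this, sum_const, List.toFinset_card_of_nodup (nodup_bumps w), nsmul_eq_mul]
    rfl
  · intro w _ w' _ hne
    simp only [Function.onFun]
    rw [disjoint_left]
    intro x hx hx'
    rw [List.mem_toFinset, mem_bumps] at hx hx'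
    exact hne (hx.symm.trans hx')

lemma vs_getElem? (l : List Dir) (b : Dir) (r : List Dir) :
    (vs (l ++ b :: r))[l.length]? = some (endp l) := by
  rw [vs_append, List.getElem?_append_right (by simp), length_vs, Nat.sub_self, vs_cons]
  simp

lemma prefix_unique {u l l' : List Dir} {b b' : Dir} {r r' : List Dir} (hu : (vs u).Nodup)
    (h : u = l ++ b :: r) (h' : u = l' ++ b' :: r') (he : endp l = endp l') :
    l = l' ∧ b = b' ∧ r = r' := by
  have e1 : (vs u)[l.length]? = some (endp l) := by rw [h]; exact vs_getElem? l b r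
  have e2 : (vs u)[l'.length]? = some (endp l') := by rw [h']; exact vs_getElem? l' b' r'
  have hlen : l.length = l'.length := by
    have h1 : l.length < (vs u).length := by rw [length_vs, h]; simp
    apply (List.getElem?_inj h1 hu).1
    rw [e1, e2, he]
  rw [h] at h'
  have h3 := List.append_inj h' hlen
  have h4 := h3.2
  simp only [List.cons.injEq] at h4
  exact ⟨h3.1, h4⟩

lemma card_fiber {L : ℕ} {u : List Dir} (hu : u ∈ W L) :
    ((EE L).filter (fun x => sml x = u)).card = jj u := by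
  rw [mem_W] at hu
  obtain ⟨hlen, hp⟩ := hu
  unfold jj
  apply card_bij (fun x _ => ((endp x.1, x.2.2.1), x.2.1))
  · rintro x hx
    rw [mem_filter, mem_EE, mem_W, isPoly_big] at hx
    obtain ⟨⟨-, -, h1, h2⟩, h3⟩ := hx
    rw [h3] at h1 h2
    rw [mem_JJ]
    refine ⟨mem_es.2 ⟨x.1, x.2.2.2, h3.symm, rfl⟩, h1, h2⟩
  · rintro ⟨l, a, b, r⟩ hx ⟨l', a', b', r'⟩ hx' h
    rw [mem_filter] at hx hx'
    simp only [Prod.mk.injEq] at h
    obtain ⟨⟨h1, h2⟩, h3⟩ := h
    obtain ⟨e1, e2, e3⟩ := prefix_unique hp.2 hx.2.symm hx'.2.symm h1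
    simp only [Prod.mk.injEq]
    exact ⟨e1, h3, e2, e3⟩
  · rintro ⟨⟨p, b⟩, a⟩ hy
    rw [mem_JJ] at hy
    simp only at hy
    obtain ⟨h1, h2, h3⟩ := hy
    obtain ⟨l, r, e1, e2⟩ := mem_es.1 h1
    have hs : sml (l, a, b, r) = u := e1.symm
    refine ⟨(l, a, b, r), ?_, ?_⟩
    · rw [mem_filter, mem_EE, mem_W, isPoly_big, length_big, hs]
      refine ⟨⟨by omega, hp, ?_, ?_⟩, rfl⟩
      · simp only; rw [← e2]; exact h2
      · simp only; rw [← e2]; exact h3
    · simp only [e2]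

lemma sum_sml (L : ℕ) (g : List Dir → ℝ) :
    ∑ x ∈ EE L, g (sml x) = ∑ u ∈ W L, (jj u : ℝ) * g u := by
  rw [← sum_fiberwise_of_maps_to (t := W L) (g := sml) (fun x hx => sml_mem hx)]
  apply sum_congr rfl
  intro u hu
  have : ∑ x ∈ (EE L).filter (fun x => sml x = u), g (sml x) =
      ∑ x ∈ (EE L).filter (fun x => sml x = u), g u := by
    apply sum_congr rfl
    intro x hx
    rw [mem_filter] at hx
    rw [hx.2]
  rw [this, sum_const, card_fiber hu, nsmul_eq_mul]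

lemma kk_big_pos (x : Dec) : 1 ≤ kk (big x) := by
  have : x ∈ bumps (big x) := mem_bumps.2 rfl
  exact List.length_pos_of_mem this

/-- number of polygons -/
noncomputable def NN (L : ℕ) : ℝ := ((W L).card : ℝ)

lemma NN_nonneg (L : ℕ) : 0 ≤ NN L := Nat.cast_nonneg _

/-- number of polygons with few bumps -/
noncomputable def bad (L K : ℕ) : ℝ := (((W L).filter (fun w => kk w < K)).card : ℝ)

lemma bad_nonneg (L K : ℕ) : 0 ≤ bad L K := Nat.cast_nonneg _

lemma S1 (L K : ℕ) (hK : 9 ≤ K) : NN (L + 2) ≤ bad (L + 2) K +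
    ∑ u ∈ (W L).filter (fun u => K - 5 ≤ kk u), (jj u : ℝ) / ((kk u : ℝ) - 3) := by
  have h1 : NN (L + 2) = bad (L + 2) K +
      ∑ w ∈ W (L + 2), (kk w : ℝ) * (if kk w < K then 0 else 1 / (kk w : ℝ)) := by
    have h2 : ∀ w ∈ W (L + 2), (kk w : ℝ) * (if kk w < K then 0 else 1 / (kk w : ℝ)) =
        if kk w < K then 0 else 1 := by
      intro w _
      split_ifs with h
      · simp
      · have : (kk w : ℝ) ≠ 0 := by
          have : 0 < kk w := by omega
          exact_mod_cast this.ne'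
        field_simp
    have h3 : ∀ w ∈ W (L + 2), (if kk w < K then (0 : ℝ) else 1) =
        if ¬ kk w < K then 1 else 0 := by
      intro w _
      split_ifs <;> rfl
    rw [sum_congr rfl h2, sum_congr rfl h3, sum_boole, bad, NN]
    have := card_filter_add_card_filter_not (s := W (L + 2)) (fun w => kk w < K)
    exact_mod_cast this.symm
  rw [h1]
  gcongr
  rw [← sum_big L (fun w => if kk w < K then 0 else 1 / (kk w : ℝ))]
  have h3 : ∑ u ∈ (W L).filter (fun u => K - 5 ≤ kk u), (jj u : ℝ) / ((kk u : ℝ) - 3) =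
      ∑ u ∈ W L, (jj u : ℝ) * (if K - 5 ≤ kk u then 1 / ((kk u : ℝ) - 3) else 0) := by
    rw [sum_filter]
    apply sum_congr rfl
    intro u _
    split_ifs
    · ring
    · ring
  rw [h3, ← sum_sml L (fun u => if K - 5 ≤ kk u then 1 / ((kk u : ℝ) - 3) else 0)]
  apply sum_le_sum
  intro x _
  have e1 := kk_big_le x
  have e2 := kk_sml_le x
  by_cases h : kk (big x) < K
  · rw [if_pos h]
    split_ifs with h'
    · have : (3 : ℝ) < kk (sml x) := by
        have : 3 < kk (sml x) := by omega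
        exact_mod_cast this
      apply div_nonneg zero_le_one; linarith
    · exact le_rfl
  · rw [if_neg h, if_pos (by omega)]
    have h4 : (3 : ℝ) < kk (sml x) := by
      have : 3 < kk (sml x) := by omega
      exact_mod_cast this
    have h5 : (kk (sml x) : ℝ) ≤ kk (big x) + 3 := by exact_mod_cast e2
    apply one_div_le_one_div_of_le <;> linarith

lemma S3' (L : ℕ) (g : List Dir → ℝ) (hg : ∀ w, 0 ≤ g w) :
    ∑ x ∈ EE L, (1 / (kk (big x) : ℝ)) * g (big x) ≤ ∑ w ∈ W (L + 2), g w := by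
  rw [sum_big L (fun w => (1 / (kk w : ℝ)) * g w)]
  apply sum_le_sum
  intro w _
  by_cases h : kk w = 0
  · rw [h]; simp [hg w]
  · have : (kk w : ℝ) ≠ 0 := by exact_mod_cast h
    rw [← mul_assoc, mul_one_div_cancel this, one_mul]

lemma S3 (L : ℕ) : ∑ u ∈ W L, (jj u : ℝ) / ((kk u : ℝ) + 5) ≤ NN (L + 2) := by
  have h := S3' L (fun _ => 1) (fun _ => zero_le_one)
  rw [sum_const, nsmul_eq_mul, mul_one] at h
  refine le_trans ?_ h
  have h1 : ∑ u ∈ W L, (jj u : ℝ) / ((kk u : ℝ) + 5) =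
      ∑ u ∈ W L, (jj u : ℝ) * (1 / ((kk u : ℝ) + 5)) := by
    apply sum_congr rfl; intro u _; ring
  rw [h1, ← sum_sml L (fun u => 1 / ((kk u : ℝ) + 5))]
  apply sum_le_sum
  intro x _
  rw [mul_one]
  have e1 : (kk (big x) : ℝ) ≤ kk (sml x) + 5 := by exact_mod_cast kk_big_le x
  have e2 : (1 : ℝ) ≤ kk (big x) := by exact_mod_cast kk_big_pos x
  apply one_div_le_one_div_of_le <;> linarith

lemma S2 (L : ℕ) : ∑ u ∈ W L, (jj u : ℝ) * ((jj u - 68 : ℕ) : ℝ) /
    (((kk u : ℝ) + 5) * ((kk u : ℝ) + 10)) ≤ NN (L + 4) := by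
  refine le_trans ?_ (S3 (L + 2))
  have h := S3' L (fun w => (jj w : ℝ) / ((kk w : ℝ) + 5)) (fun w => by positivity)
  refine le_trans ?_ h
  have h1 : ∑ u ∈ W L, (jj u : ℝ) * ((jj u - 68 : ℕ) : ℝ) /
      (((kk u : ℝ) + 5) * ((kk u : ℝ) + 10)) =
      ∑ u ∈ W L, (jj u : ℝ) * (((jj u - 68 : ℕ) : ℝ) /
      (((kk u : ℝ) + 5) * ((kk u : ℝ) + 10))) := by
    apply sum_congr rfl; intro u _; ring
  rw [h1, ← sum_sml L (fun u => ((jj u - 68 : ℕ) : ℝ) /
      (((kk u : ℝ) + 5) * ((kk u : ℝ) + 10)))]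
  apply sum_le_sum
  intro x _
  have e1 : (kk (big x) : ℝ) ≤ kk (sml x) + 5 := by exact_mod_cast kk_big_le x
  have e2 : (1 : ℝ) ≤ kk (big x) := by exact_mod_cast kk_big_pos x
  have e3 : ((jj (sml x) - 68 : ℕ) : ℝ) ≤ jj (big x) := by
    have := card_JJ_sml_le x
    unfold jj
    exact_mod_cast (by omega : (JJ (sml x)).card - 68 ≤ (JJ (big x)).card)
  have e4 : (1 / (kk (big x) : ℝ)) * ((jj (big x) : ℝ) / ((kk (big x) : ℝ) + 5)) =
      (jj (big x) : ℝ) / ((kk (big x) : ℝ) * ((kk (big x) : ℝ) + 5)) := by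
    field_simp
  rw [e4]
  apply div_le_div₀ (Nat.cast_nonneg _) e3 (by positivity)
  apply mul_le_mul e1 (by linarith) (by positivity) (by positivity)

/-- near log-convexity, raw form -/
theorem lc_raw (L K : ℕ) (hK : 9 ≤ K) :
    (NN (L + 2) - bad (L + 2) K) ^ 2 ≤ (1 + 13 / ((K : ℝ) - 8)) ^ 2 *
      (NN L * (NN (L + 4) + 68 / (K : ℝ) * NN (L + 2))) := by
  have hK' : (9 : ℝ) ≤ K := by exact_mod_cast hK
  set S := (W L).filter (fun u => K - 5 ≤ kk u) with hS
  set A := ∑ u ∈ S, (jj u : ℝ) / ((kk u : ℝ) - 3) with hA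
  set B := ∑ u ∈ S, (jj u : ℝ) / ((kk u : ℝ) + 10) with hB
  have hkk : ∀ u ∈ S, (K : ℝ) - 5 ≤ kk u := by
    intro u hu
    rw [hS, mem_filter] at hu
    have h1 : K ≤ kk u + 5 := by omega
    have h2 : (K : ℝ) ≤ kk u + 5 := by exact_mod_cast h1
    linarith
  have hA0 : 0 ≤ A := by
    apply sum_nonneg
    intro u hu
    have := hkk u hu
    apply div_nonneg (Nat.cast_nonneg _); linarith
  have hB0 : 0 ≤ B := by
    apply sum_nonneg
    intro u hu
    positivity
  have hAB : A ≤ (1 + 13 / ((K : ℝ) - 8)) * B := by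
    rw [hA, hB, mul_sum]
    apply sum_le_sum
    intro u hu
    have h1 := hkk u hu
    have h2 : (0 : ℝ) < (kk u : ℝ) - 3 := by linarith
    have h3 : (0 : ℝ) < (kk u : ℝ) + 10 := by linarith
    have h4 : (0 : ℝ) < (K : ℝ) - 8 := by linarith
    have h5 : (1 : ℝ) / ((kk u : ℝ) - 3) ≤ (1 + 13 / ((K : ℝ) - 8)) * (1 / ((kk u : ℝ) + 10)) := by
      rw [mul_one_div, div_le_div_iff₀ h2 h3]
      have h6 : (13 : ℝ) ≤ 13 / ((K : ℝ) - 8) * ((kk u : ℝ) - 3) := by
        rw [div_mul_eq_mul_div, le_div_iff₀ h4]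
        nlinarith
      linarith
    calc (jj u : ℝ) / ((kk u : ℝ) - 3) = jj u * (1 / ((kk u : ℝ) - 3)) := by ring
      _ ≤ jj u * ((1 + 13 / ((K : ℝ) - 8)) * (1 / ((kk u : ℝ) + 10))) :=
        mul_le_mul_of_nonneg_left h5 (Nat.cast_nonneg _)
      _ = _ := by ring
  have hCS : B ^ 2 ≤ NN L * (NN (L + 4) + 68 / (K : ℝ) * NN (L + 2)) := by
    have h1 : B ^ 2 ≤ (S.card : ℝ) * ∑ u ∈ S, ((jj u : ℝ) / ((kk u : ℝ) + 10)) ^ 2 := by
      rw [hB]
      exact sq_sum_le_card_mul_sum_sq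
    have h2 : (S.card : ℝ) ≤ NN L := by
      unfold NN
      exact_mod_cast card_le_card (filter_subset _ _)
    have h3 : ∑ u ∈ S, ((jj u : ℝ) / ((kk u : ℝ) + 10)) ^ 2 ≤
        NN (L + 4) + 68 / (K : ℝ) * NN (L + 2) := by
      have h4 : ∑ u ∈ S, ((jj u : ℝ) * ((jj u - 68 : ℕ) : ℝ) /
          (((kk u : ℝ) + 5) * ((kk u : ℝ) + 10))) ≤ NN (L + 4) := by
        refine le_trans ?_ (S2 L)
        apply sum_le_sum_of_subset_of_nonneg (filter_subset _ _)
        intro u _ _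
        positivity
      have h5 : ∑ u ∈ S, (jj u : ℝ) / ((kk u : ℝ) + 5) ≤ NN (L + 2) := by
        refine le_trans ?_ (S3 L)
        apply sum_le_sum_of_subset_of_nonneg (filter_subset _ _)
        intro u _ _
        positivity
      refine le_trans ?_ (add_le_add h4 (mul_le_mul_of_nonneg_left h5
        (by positivity : (0 : ℝ) ≤ 68 / (K : ℝ))))
      rw [mul_sum, ← sum_add_distrib]
      apply sum_le_sum
      intro u hu
      have h6 := hkk u hu
      have h7 : (jj u : ℝ) ≤ ((jj u - 68 : ℕ) : ℝ) + 68 := by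
        have : jj u ≤ (jj u - 68) + 68 := by omega
        exact_mod_cast this
      have hj0 : (0 : ℝ) ≤ jj u := Nat.cast_nonneg _
      have hk0 : (0 : ℝ) ≤ kk u := Nat.cast_nonneg _
      have hm0 : (0 : ℝ) ≤ ((jj u - 68 : ℕ) : ℝ) := Nat.cast_nonneg _
      calc ((jj u : ℝ) / ((kk u : ℝ) + 10)) ^ 2
          = (jj u : ℝ) * jj u / (((kk u : ℝ) + 10) * ((kk u : ℝ) + 10)) := by
            rw [div_pow, sq, sq]
        _ ≤ (jj u : ℝ) * (((jj u - 68 : ℕ) : ℝ) + 68) /
            (((kk u : ℝ) + 5) * ((kk u : ℝ) + 10)) := by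
            apply div_le_div₀ (by positivity) (by gcongr) (by positivity)
            gcongr
            norm_num
        _ = (jj u : ℝ) * ((jj u - 68 : ℕ) : ℝ) / (((kk u : ℝ) + 5) * ((kk u : ℝ) + 10)) +
            68 / ((kk u : ℝ) + 10) * ((jj u : ℝ) / ((kk u : ℝ) + 5)) := by
            field_simp
        _ ≤ _ := by
            have : 68 / ((kk u : ℝ) + 10) ≤ 68 / (K : ℝ) := by
              apply div_le_div_of_nonneg_left (by norm_num) (by linarith) (by linarith)
            gcongr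
    calc B ^ 2 ≤ (S.card : ℝ) * ∑ u ∈ S, ((jj u : ℝ) / ((kk u : ℝ) + 10)) ^ 2 := h1
      _ ≤ NN L * (NN (L + 4) + 68 / (K : ℝ) * NN (L + 2)) :=
        mul_le_mul h2 h3 (sum_nonneg fun u _ => sq_nonneg _) (NN_nonneg L)
  have hS1 := S1 L K hK
  have hmono : bad (L + 2) K ≤ NN (L + 2) := by
    unfold bad NN
    exact_mod_cast card_le_card (filter_subset _ _)
  have h8 : NN (L + 2) - bad (L + 2) K ≤ (1 + 13 / ((K : ℝ) - 8)) * B := by linarith
  have h9 : 0 ≤ NN (L + 2) - bad (L + 2) K := by linarith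
  calc (NN (L + 2) - bad (L + 2) K) ^ 2 ≤ ((1 + 13 / ((K : ℝ) - 8)) * B) ^ 2 :=
        pow_le_pow_left₀ h9 h8 2
    _ = (1 + 13 / ((K : ℝ) - 8)) ^ 2 * B ^ 2 := by ring
    _ ≤ _ := mul_le_mul_of_nonneg_left hCS (sq_nonneg _)

end Pool.Agent.Work.MP_376faf_co.LC
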