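import Pool.Agent.Work.MP_376faf_co.LMu
import Pool.Agent.Work.MP_376faf_co.LBump
import Pool.Agent.Work.MP_376faf_co.LSum
import Pool.Agent.Work.MP_376faf_co.Final

/-! Words and functions. -/

set_option autoImplicit false

namespace Pool.Agent.Work.MP_376faf_co.LC

open Finset

lemma abs_vec (d : Dir) : |d.vec.1| + |d.vec.2| = 1 := by
  cases d <;> simp [Dir.vec]

lemma exists_dir (p : Pt) (h : |p.1| + |p.2| = 1) : ∃ d : Dir, d.vec = p := by
  obtain ⟨x, y⟩ := p
  simp only at h
  have hx := abs_nonneg x
  have hy := abs_nonneg y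
  rcases (by omega : (|x| = 1 ∧ |y| = 0) ∨ (|x| = 0 ∧ |y| = 1)) with ⟨h1, h2⟩ | ⟨h1, h2⟩
  · rw [abs_eq_zero] at h2
    rcases (abs_eq (by norm_num)).1 h1 with h3 | h3
    · exact ⟨.e, by rw [h2, h3]; rfl⟩
    · exact ⟨.w, by rw [h2, h3]; rfl⟩
  · rw [abs_eq_zero] at h1
    rcases (abs_eq (by norm_num)).1 h2 with h3 | h3
    · exact ⟨.n, by rw [h1, h3]; rfl⟩
    · exact ⟨.s, by rw [h1, h3]; rfl⟩

lemma vs_get (w : List Dir) (k : ℕ) (hk : k < w.length) :
    (vs w)[k]'(by rw [length_vs]; exact hk) = endp (w.take k) := by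
  have h := vs_getElem? (w.take k) w[k] (w.drop (k + 1))
  have e : w.take k ++ w[k] :: w.drop (k + 1) = w := by
    rw [← List.drop_eq_getElem_cons hk, List.take_append_drop]
  rw [e, List.length_take, min_eq_left hk.le] at h
  rw [List.getElem?_eq_getElem (by rw [length_vs]; exact hk)] at h
  exact Option.some.inj h

lemma endp_take_succ (w : List Dir) (k : ℕ) (hk : k < w.length) :
    endp (w.take (k + 1)) = endp (w.take k) + w[k].vec := by
  rw [List.take_succ_eq_append_getElem hk, endp_append]
  simp

open Classical in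
/-- the direction of a unit vector -/
noncomputable def dirOf (p : Pt) : Dir :=
  if h : |p.1| + |p.2| = 1 then (exists_dir p h).choose else .e

lemma dirOf_vec (p : Pt) (h : |p.1| + |p.2| = 1) : (dirOf p).vec = p := by
  unfold dirOf
  rw [dif_pos h]
  exact (exists_dir p h).choose_spec

/-- the word of a cyclic function -/
noncomputable def wordOf {n : ℕ} (f : PolyFun n) : List Dir :=
  List.ofFn (fun k : Fin (2 * n) => dirOf (f.1 ((k.val : ZMod (2 * n)) + 1) -
    f.1 (k.val : ZMod (2 * n))))

lemma length_wordOf {n : ℕ} (f : PolyFun n) : (wordOf f).length = 2 * n := by simp [wordOf]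

lemma wordOf_vec {n : ℕ} (f : PolyFun n) (k : ℕ) (hk : k < (wordOf f).length) :
    (wordOf f)[k].vec = f.1 ((k : ZMod (2 * n)) + 1) - f.1 (k : ZMod (2 * n)) := by
  unfold wordOf
  rw [List.getElem_ofFn]
  apply dirOf_vec
  simpa using f.2.2.2 (k : ZMod (2 * n))

lemma endp_wordOf {n : ℕ} (f : PolyFun n) (k : ℕ) (hk : k ≤ 2 * n) :
    endp ((wordOf f).take k) = f.1 (k : ZMod (2 * n)) := by
  induction k with
  | zero => simp [f.2.1]
  | succ k ih =>
    have h := length_wordOf f
    rw [endp_take_succ _ _ (by omega), ih (by omega), wordOf_vec]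
    push_cast
    abel

lemma wordOf_mem {n : ℕ} (f : PolyFun n) : wordOf f ∈ W (2 * n) := by
  rw [mem_W]
  refine ⟨length_wordOf f, ?_, ?_⟩
  · have := endp_wordOf f (2 * n) le_rfl
    rw [List.take_of_length_le (by rw [length_wordOf])] at this
    rw [this, ZMod.natCast_self, f.2.1]
  · have h : vs (wordOf f) = List.ofFn (fun k : Fin (2 * n) => f.1 (k.val : ZMod (2 * n))) := by
      apply List.ext_getElem
      · rw [length_vs, length_wordOf, List.length_ofFn]
      · intro k h1 h2
        rw [length_vs] at h1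
        rw [vs_get _ _ h1, endp_wordOf _ _ (by rw [length_wordOf] at h1; omega), List.getElem_ofFn]
    rw [h, List.nodup_ofFn]
    intro k k' hkk
    have h2 := f.2.2.1 hkk
    rw [ZMod.natCast_eq_natCast_iff', Nat.mod_eq_of_lt k.is_lt, Nat.mod_eq_of_lt k'.is_lt] at h2
    exact Fin.ext h2

lemma wordOf_inj {n : ℕ} (hn : 1 ≤ n) : Function.Injective (wordOf (n := n)) := by
  intro f g h
  have : NeZero (2 * n) := ⟨by omega⟩
  apply Subtype.ext
  funext i
  have h1 := endp_wordOf f i.val (ZMod.val_lt i).le
  have h2 := endp_wordOf g i.val (ZMod.val_lt i).le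
  rw [ZMod.natCast_zmod_val] at h1 h2
  rw [← h1, ← h2, h]

lemma card_poly_le {n : ℕ} (hn : 1 ≤ n) : Nat.card (PolyFun n) ≤ (W (2 * n)).card := by
  have h := Nat.card_le_card_of_injective
    (fun f : PolyFun n => (⟨wordOf f, wordOf_mem f⟩ : {w // w ∈ W (2 * n)}))
    (fun f g h => wordOf_inj hn (congrArg Subtype.val h))
  have e : Nat.card {w // w ∈ W (2 * n)} = (W (2 * n)).card := by simp
  rwa [e] at h

/-- the cyclic function of a word -/
def funOf {n : ℕ} (w : List Dir) (i : ZMod (2 * n)) : Pt := endp (w.take i.val)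

lemma funOf_spec {n : ℕ} (hn : 1 ≤ n) {w : List Dir} (hw : w ∈ W (2 * n)) :
    funOf (n := n) w 0 = 0 ∧ Function.Injective (funOf (n := n) w) ∧
      ∀ i : ZMod (2 * n), |(funOf w (i + 1)).1 - (funOf w i).1| +
        |(funOf w (i + 1)).2 - (funOf w i).2| = 1 := by
  have : NeZero (2 * n) := ⟨by omega⟩
  rw [mem_W] at hw
  obtain ⟨hlen, hend, hnd⟩ := hw
  refine ⟨?_, ?_, ?_⟩
  · simp [funOf]
  · intro i j hij
    have hi := ZMod.val_lt i
    have hj := ZMod.val_lt j
    unfold funOf at hij
    rw [← vs_get w i.val (by omega), ← vs_get w j.val (by omega)] at hij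
    exact ZMod.val_injective _ (hnd.getElem_inj_iff.1 hij)
  · intro i
    have hi := ZMod.val_lt i
    have key : funOf w (i + 1) - funOf w i = (w[i.val]'(by omega)).vec := by
      have h1 : funOf (n := n) w (i + 1) = endp (w.take (i.val + 1)) := by
        unfold funOf
        by_cases h : i.val + 1 < 2 * n
        · have : Fact (1 < 2 * n) := ⟨by omega⟩
          rw [ZMod.val_add, ZMod.val_one, Nat.mod_eq_of_lt h]
        · have h2 : i.val + 1 = 2 * n := by omega
          have h3 : i + 1 = 0 := by
            have : ((i.val + 1 : ℕ) : ZMod (2 * n)) = 0 := by rw [h2, ZMod.natCast_self]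
            push_cast at this
            rwa [ZMod.natCast_zmod_val] at this
          rw [h3, h2, ← hlen, List.take_length, hend]
          simp
      rw [h1, endp_take_succ _ _ (by omega)]
      unfold funOf
      abel
    have h2 := abs_vec (w[i.val]'(by omega))
    rw [← key] at h2
    exact h2

lemma le_card_poly {n : ℕ} (hn : 1 ≤ n) : (W (2 * n)).card ≤ Nat.card (PolyFun n) := by
  have : NeZero (2 * n) := ⟨by omega⟩
  have := polyFinite hn
  have h := Nat.card_le_card_of_injective
    (fun w : {w // w ∈ W (2 * n)} => (⟨funOf w.1, funOf_spec hn w.2⟩ : PolyFun n)) (by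
      intro w w' h
      have h1 := congrArg Subtype.val h
      simp only at h1
      have hw := (mem_W.1 w.2)
      have hw' := (mem_W.1 w'.2)
      apply Subtype.ext
      have key : ∀ k, k ≤ 2 * n → endp (w.1.take k) = endp (w'.1.take k) := by
        intro k hk
        rcases hk.lt_or_eq with hk | hk
        · have h2 := congrFun h1 (k : ZMod (2 * n))
          unfold funOf at h2
          rwa [ZMod.val_natCast, Nat.mod_eq_of_lt hk] at h2
        · rw [List.take_of_length_le (by omega), List.take_of_length_le (by omega), hw.2.1,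
            hw'.2.1]
      apply List.ext_getElem
      · rw [hw.1, hw'.1]
      · intro k hk hk'
        have e1 := key k (by omega)
        have e2 := key (k + 1) (by omega)
        rw [endp_take_succ _ _ hk, endp_take_succ _ _ hk', e1] at e2
        exact Dir.vec_inj (add_left_cancel e2))
  rwa [Nat.card_eq_fintype_card, Fintype.card_coe] at h

theorem card_poly {n : ℕ} (hn : 1 ≤ n) : (Nat.card (PolyFun n) : ℝ) = NN (2 * n) := by
  unfold NN
  exact_mod_cast le_antisymm (card_poly_le hn) (le_card_poly hn)

/-! walks -/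

lemma ps_get (w : List Dir) (k : ℕ) (hk : k < w.length + 1) :
    (ps w)[k]'(by simp [ps]; omega) = endp (w.take k) := by
  unfold ps
  rcases (by omega : k < w.length ∨ k = w.length) with h | h
  · rw [List.getElem_append_left (by rw [length_vs]; exact h), vs_get _ _ h]
  · subst h
    rw [List.getElem_append_right (by rw [length_vs])]
    simp

lemma card_walk (m : ℕ) : ((words m).filter IsSAW).card ≤ Nat.card (WalkFun m) := by
  have h := Nat.card_le_card_of_injective
    (fun w : {w // w ∈ (words m).filter IsSAW} => (⟨fun i => endp (w.1.take i.val), by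
      have hw := mem_filter.1 w.2
      rw [mem_words] at hw
      obtain ⟨hlen, hs⟩ := hw
      refine ⟨by simp, ?_, ?_⟩
      · intro i j hij
        simp only at hij
        rw [← ps_get w.1 i.val (by omega), ← ps_get w.1 j.val (by omega)] at hij
        exact Fin.ext (List.Nodup.getElem_inj_iff hs |>.1 hij)
      · intro i
        simp only [Fin.val_succ, Fin.val_castSucc]
        rw [endp_take_succ _ _ (by omega)]
        have := abs_vec (w.1[i.val]'(by omega))
        simpa using this⟩ : WalkFun m)) (by
      intro w w' h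
      have h1 := congrArg Subtype.val h
      simp only at h1
      have hw := (mem_filter.1 w.2).1
      have hw' := (mem_filter.1 w'.2).1
      rw [mem_words] at hw hw'
      apply Subtype.ext
      apply List.ext_getElem
      · rw [hw, hw']
      · intro k hk hk'
        have e1 := congrFun h1 ⟨k, by omega⟩
        have e2 := congrFun h1 ⟨k + 1, by omega⟩
        simp only at e1 e2
        rw [endp_take_succ _ _ hk, endp_take_succ _ _ hk', e1] at e2
        exact Dir.vec_inj (add_left_cancel e2))
  rwa [Nat.card_eq_fintype_card, Fintype.card_coe] at h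

open Filter Topology in
theorem mu_ge {μ : ℝ} (hμ : Tendsto (fun n : ℕ => ((Nat.card (WalkFun n) : ℕ) : ℝ) ^
    ((1:ℝ) / (n:ℝ))) atTop (𝓝 μ)) : 249 / 100 ≤ μ := by
  apply ge_of_tendsto hμ
  filter_upwards [eventually_gt_atTop 0] with n hn
  have hn' : (n : ℝ) ≠ 0 := by exact_mod_cast hn.ne'
  have h1 : (249 / 100 : ℝ) ^ n ≤ (Nat.card (WalkFun n) : ℝ) :=
    (many_saw n).trans (by exact_mod_cast card_walk n)
  calc (249 / 100 : ℝ) = ((249 / 100 : ℝ) ^ n) ^ ((1 : ℝ) / n) := by
        rw [← Real.rpow_natCast, ← Real.rpow_mul (by norm_num), mul_one_div_cancel hn',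
          Real.rpow_one]
    _ ≤ _ := Real.rpow_le_rpow (by positivity) h1 (by positivity)

end Pool.Agent.Work.MP_376faf_co.LC
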