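import Pool.Agent.Work.MP_376faf_co.LAll
import Pool.Agent.Work.MP_376faf_co.LBridge

/-! `n p_{2n} μ^{-2n} → 0`. -/

set_option autoImplicit false

namespace Pool.Agent.Work.MP_376faf_co.LC

open Finset Filter Topology

lemma aa_eq {μ : ℝ} {n : ℕ} (hn : 1 ≤ n) : NN (2 * n) / μ ^ (2 * n) / n = 4 * aa μ n := by
  have hn' : (n : ℝ) ≠ 0 := by exact_mod_cast (by omega : n ≠ 0)
  unfold aa
  rw [card_poly hn]
  field_simp

theorem pointwise {μ : ℝ} (hμ : IsMu μ) : Tendsto (fun n : ℕ => n * aa μ n) atTop (𝓝 0) := by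
  have hμ2 := mu_ge hμ.2
  have hall := all_lengths hμ2 (by
    intro c hc
    have hB := tailB hμ
    rw [Metric.tendsto_atTop] at hB
    obtain ⟨N0, hN0⟩ := hB (c / 4) (by positivity)
    refine ⟨max N0 1, fun n hn M => ?_⟩
    have hn1 : 1 ≤ n := (le_max_right _ _).trans hn
    have hn0 : (0 : ℝ) < n := by exact_mod_cast hn1
    have hs : 0 < Real.sqrt n := Real.sqrt_pos.2 hn0
    have h1 := hN0 n ((le_max_left _ _).trans hn)
    rw [Real.dist_eq, sub_zero] at h1
    have h2 := (le_abs_self _).trans h1.le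
    have hsum : Summable (fun k => aa μ (k + n)) := (summable_nat_add_iff n).2 (tail_summable hμ)
    have h3 : ∑ m ∈ Ico n M, aa μ m ≤ ∑' k, aa μ (k + n) := by
      rw [sum_Ico_eq_sum_range]
      have : ∑ k ∈ range (M - n), aa μ (n + k) = ∑ k ∈ range (M - n), aa μ (k + n) := by
        apply sum_congr rfl; intro k _; rw [add_comm]
      rw [this]
      exact hsum.sum_le_tsum _ (fun k _ => aa_nonneg hμ.1 _)
    have h4 : ∑ m ∈ Ico n M, NN (2 * m) / μ ^ (2 * m) / m = 4 * ∑ m ∈ Ico n M, aa μ m := by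
      rw [mul_sum]
      apply sum_congr rfl
      intro m hm
      rw [mem_Ico] at hm
      exact aa_eq (by omega)
    rw [h4, le_div_iff₀ hs]
    calc (4 * ∑ m ∈ Ico n M, aa μ m) * Real.sqrt n =
          4 * (Real.sqrt n * ∑ m ∈ Ico n M, aa μ m) := by ring
      _ ≤ 4 * (Real.sqrt n * ∑' k, aa μ (k + n)) := by gcongr
      _ ≤ 4 * (c / 4) := by linarith
      _ = c := by ring)
  have h5 := hall.div_const 4
  rw [zero_div] at h5
  refine h5.congr' ?_
  filter_upwards [eventually_ge_atTop 1] with n hn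
  have hn' : (n : ℝ) ≠ 0 := by exact_mod_cast (by omega : n ≠ 0)
  have := aa_eq (μ := μ) hn
  rw [div_eq_iff hn'] at this
  rw [this]
  ring

end Pool.Agent.Work.MP_376faf_co.LC
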