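import Pool.Agent.Work.MP_376faf_co.LBase

/-! A large class of self-avoiding walks: there are at least `2.49 ^ m` self-avoiding walks of
length `m`. -/

set_option autoImplicit false

namespace Pool.Agent.Work.MP_376faf_co.LC

open Finset

/-- the positions of a walk, the last one included -/
def ps (w : List Dir) : List Pt := vs w ++ [endp w]

lemma ps_nil : ps [] = [0] := rfl

lemma ps_cons (d : Dir) (t : List Dir) : ps (d :: t) = 0 :: (ps t).map (fun q => d.vec + q) := by
  unfold ps
  rw [vs_cons]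
  simp

/-- self-avoiding words -/
def IsSAW (w : List Dir) : Prop := (ps w).Nodup

instance (w : List Dir) : Decidable (IsSAW w) := by unfold IsSAW; infer_instance

/-- states of the automaton -/
inductive St
  | ab | a | b | u | d | p | q | p2 | q2 | p3 | q3
  deriving DecidableEq, Fintype

/-- transitions -/
def del : St → Dir → Option St
  | .ab, .e => some .ab
  | .ab, .n => some .p
  | .ab, .s => some .q
  | .a, .e => some .ab
  | .a, .n => some .p
  | .a, .s => some .d
  | .b, .e => some .ab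
  | .b, .n => some .u
  | .b, .s => some .q
  | .u, .n => some .u
  | .u, .e => some .a
  | .d, .s => some .d
  | .d, .e => some .b
  | .p, .n => some .p
  | .p, .w => some .p2
  | .p, .e => some .a
  | .q, .s => some .q
  | .q, .w => some .q2
  | .q, .e => some .b
  | .p2, .n => some .p3
  | .q2, .s => some .q3
  | .p3, .n => some .p3
  | .p3, .e => some .u
  | .q3, .s => some .q3
  | .q3, .e => some .d
  | _, _ => none

/-- region allowed for the rest of the walk -/
def Reg : St → Pt → Prop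
  | .ab, z => 0 ≤ z.1 ∨ (z.1 = -1 ∧ z.2 ≠ 0)
  | .a, z => 0 ≤ z.1 ∨ (z.1 = -1 ∧ 1 ≤ z.2)
  | .b, z => 0 ≤ z.1 ∨ (z.1 = -1 ∧ z.2 ≤ -1)
  | .u, z => 0 < z.1 ∨ (z.1 = 0 ∧ 0 ≤ z.2)
  | .d, z => 0 < z.1 ∨ (z.1 = 0 ∧ z.2 ≤ 0)
  | .p, z => 0 < z.1 ∨ (z.1 = 0 ∧ 0 ≤ z.2) ∨ (z.1 = -1 ∧ 0 ≤ z.2)
  | .q, z => 0 < z.1 ∨ (z.1 = 0 ∧ z.2 ≤ 0) ∨ (z.1 = -1 ∧ z.2 ≤ 0)
  | .p2, z => (z.1 = 0 ∧ 0 ≤ z.2) ∨ (z.1 = 1 ∧ 1 ≤ z.2) ∨ 2 ≤ z.1
  | .q2, z => (z.1 = 0 ∧ z.2 ≤ 0) ∨ (z.1 = 1 ∧ z.2 ≤ -1) ∨ 2 ≤ z.1
  | .p3, z => (z.1 = 0 ∧ 0 ≤ z.2) ∨ (z.1 = 1 ∧ 0 ≤ z.2) ∨ 2 ≤ z.1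
  | .q3, z => (z.1 = 0 ∧ z.2 ≤ 0) ∨ (z.1 = 1 ∧ z.2 ≤ 0) ∨ 2 ≤ z.1

lemma Reg_zero (s : St) : Reg s 0 := by
  cases s <;> simp [Reg]

lemma Reg_step {s s' : St} {d : Dir} (h : del s d = some s') {z : Pt} (hz : Reg s' z) :
    Reg s (d.vec + z) ∧ d.vec + z ≠ 0 := by
  obtain ⟨x, y⟩ := z
  cases s <;> cases d <;> simp only [del, reduceCtorEq, Option.some.injEq] at h <;> subst h <;>
    simp only [Reg, Dir.vec, Prod.mk_add_mk, ne_eq, Prod.mk_eq_zero] at hz ⊢ <;>
    omega

/-- accepted words -/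
def acc : St → List Dir → Bool
  | _, [] => true
  | σ, d :: t => match del σ d with
    | some σ' => acc σ' t
    | none => false

lemma acc_spec {s : St} {w : List Dir} (h : acc s w = true) :
    (∀ z ∈ ps w, Reg s z) ∧ IsSAW w := by
  induction w generalizing s with
  | nil =>
    refine ⟨?_, ?_⟩
    · intro z hz
      rw [ps_nil, List.mem_singleton] at hz
      rw [hz]; exact Reg_zero s
    · simp [IsSAW, ps_nil]
  | cons d t ih =>
    rw [acc] at h
    rcases hd : del s d with _ | s'
    · rw [hd] at h; simp at h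
    · rw [hd] at h
      simp only at h
      obtain ⟨h1, h2⟩ := ih h
      refine ⟨?_, ?_⟩
      · intro z hz
        rw [ps_cons, List.mem_cons, List.mem_map] at hz
        rcases hz with rfl | ⟨q, hq, rfl⟩
        · exact Reg_zero s
        · exact (Reg_step hd (h1 q hq)).1
      · unfold IsSAW
        rw [ps_cons, List.nodup_cons]
        refine ⟨?_, ?_⟩
        · rw [List.mem_map]
          rintro ⟨q, hq, h3⟩
          exact (Reg_step hd (h1 q hq)).2 h3
        · exact h2.map (fun x y hxy => by simpa using hxy)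

/-- potential of a state -/
noncomputable def gs : St → ℝ
  | .ab => 10600
  | .a => 10000
  | .b => 10000
  | .u => 6710
  | .d => 6710
  | .p => 7919
  | .q => 7919
  | .p2 => 1800
  | .q2 => 1800
  | .p3 => 4500
  | .q3 => 4500

/-- number of accepted words -/
noncomputable def cnt (m : ℕ) (σ : St) : ℝ :=
  ∑ w ∈ words m, (if acc σ w = true then (1 : ℝ) else 0)

/-- count after a transition -/
noncomputable def cnto (m : ℕ) : Option St → ℝ
  | some σ => cnt m σ
  | none => 0

lemma cnt_succ (m : ℕ) (σ : St) : cnt (m + 1) σ = cnto m (del σ .e) + cnto m (del σ .n) +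
    cnto m (del σ .w) + cnto m (del σ .s) := by
  unfold cnt
  rw [sum_words_succ, sum_dir]
  have key : ∀ d : Dir, ∑ t ∈ words m, (if acc σ (d :: t) = true then (1 : ℝ) else 0) =
      cnto m (del σ d) := by
    intro d
    rcases hd : del σ d with _ | σ'
    · simp [acc, hd, cnto]
    · simp only [acc, hd, cnto, cnt]
  rw [key, key, key, key]

lemma count_acc (m : ℕ) (s : St) : (249 / 100 : ℝ) ^ m * gs s ≤ 10600 * cnt m s := by
  induction m generalizing s with
  | zero =>
    have : cnt 0 s = 1 := by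
      have h : acc s [] = true := by rw [acc]
      unfold cnt words
      rw [sum_singleton, if_pos h]
    rw [this, pow_zero, one_mul]
    cases s <;> simp [gs] <;> norm_num
  | succ m ih =>
    have hp : (0 : ℝ) < (249 / 100 : ℝ) ^ m := by positivity
    rw [cnt_succ, pow_succ, mul_assoc]
    cases s <;> simp only [del, cnto]
    · have a1 := ih .ab; have a2 := ih .p; have a3 := ih .q
      simp only [gs] at a1 a2 a3 ⊢
      nlinarith
    · have a1 := ih .ab; have a2 := ih .p; have a3 := ih .d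
      simp only [gs] at a1 a2 a3 ⊢
      nlinarith
    · have a1 := ih .ab; have a2 := ih .u; have a3 := ih .q
      simp only [gs] at a1 a2 a3 ⊢
      nlinarith
    · have a1 := ih .u; have a2 := ih .a
      simp only [gs] at a1 a2 ⊢
      nlinarith
    · have a1 := ih .d; have a2 := ih .b
      simp only [gs] at a1 a2 ⊢
      nlinarith
    · have a1 := ih .p; have a2 := ih .p2; have a3 := ih .a
      simp only [gs] at a1 a2 a3 ⊢
      nlinarith
    · have a1 := ih .q; have a2 := ih .q2; have a3 := ih .b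
      simp only [gs] at a1 a2 a3 ⊢
      nlinarith
    · have a1 := ih .p3
      simp only [gs] at a1 ⊢
      nlinarith
    · have a1 := ih .q3
      simp only [gs] at a1 ⊢
      nlinarith
    · have a1 := ih .p3; have a2 := ih .u
      simp only [gs] at a1 a2 ⊢
      nlinarith
    · have a1 := ih .q3; have a2 := ih .d
      simp only [gs] at a1 a2 ⊢
      nlinarith

theorem many_saw (m : ℕ) :
    (249 / 100 : ℝ) ^ m ≤ (((words m).filter IsSAW).card : ℝ) := by
  have h := count_acc m .ab
  have h1 : cnt m .ab ≤ (((words m).filter IsSAW).card : ℝ) := by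
    rw [cnt, sum_boole]
    have : (words m).filter (fun w => acc .ab w = true) ⊆ (words m).filter IsSAW := by
      intro w hw
      rw [mem_filter] at hw ⊢
      exact ⟨hw.1, (acc_spec hw.2).2⟩
    exact_mod_cast card_le_card this
  simp only [gs] at h
  linarith

end Pool.Agent.Work.MP_376faf_co.LC
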