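import Mathlib

/-! Near log-convexity and a tail bound give a uniform bound. -/

set_option autoImplicit false

namespace Pool.Agent.Work.MP_376faf_co.LC

open Finset Filter Topology

/-- algebra of the near log-convexity relation -/
lemma rel_simpl {x y z β η : ℝ} (hη : 0 ≤ η) (hη1 : η ≤ 1)
    (hβ : β ≤ η * y) (hy : 0 ≤ y)
    (h : (y - β) ^ 2 ≤ (1 + η) ^ 2 * (x * (z + η * y))) :
    y ^ 2 * (1 - 4 * η) ≤ x * (z + η * y) := by
  have h1 : ((1 - η) * y) ^ 2 ≤ (y - β) ^ 2 := by
    apply pow_le_pow_left₀ (mul_nonneg (by linarith) hy)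
    linarith
  have h2 : (1 - η) ^ 2 * y ^ 2 ≤ (1 + η) ^ 2 * (x * (z + η * y)) := by
    rw [← mul_pow]; exact h1.trans h
  have h3 : (1 - 4 * η) * (1 + η) ^ 2 ≤ (1 - η) ^ 2 := by nlinarith [sq_nonneg η, mul_nonneg hη (sq_nonneg η)]
  have h4 : 0 < (1 + η) ^ 2 := by positivity
  have h5 : (1 + η) ^ 2 * (y ^ 2 * (1 - 4 * η)) ≤ (1 + η) ^ 2 * (x * (z + η * y)) := by
    refine le_trans ?_ h2
    nlinarith [sq_nonneg y]
  exact le_of_mul_le_mul_left h5 h4

lemma fwd {x y z η t : ℝ} (hz : 0 ≤ z) (hη : 0 ≤ η)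
    (hy : 0 < y) (ht0 : 0 ≤ t) (ht1 : t ≤ 1) (hty : t * x ≤ y)
    (h : y ^ 2 * (1 - 4 * η) ≤ x * (z + η * y)) : (t - 5 * η) * y ≤ z := by
  have h1 : t * (y ^ 2 * (1 - 4 * η)) ≤ y * (z + η * y) := by
    calc t * (y ^ 2 * (1 - 4 * η)) ≤ t * (x * (z + η * y)) := mul_le_mul_of_nonneg_left h ht0
      _ = t * x * (z + η * y) := by ring
      _ ≤ y * (z + η * y) := mul_le_mul_of_nonneg_right hty (by positivity)
  have h2 : t * y * (1 - 4 * η) ≤ z + η * y := by
    apply le_of_mul_le_mul_left _ hy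
    linarith
  have h3 : t * (y * η) ≤ 1 * (y * η) := mul_le_mul_of_nonneg_right ht1 (by positivity)
  nlinarith

lemma bwd {x y z η t : ℝ} (hx : 0 ≤ x) (hη : 0 ≤ η)
    (hy : 0 < y) (ht0 : 0 ≤ t) (ht1 : t ≤ 1) (hty : t * z ≤ y)
    (h : y ^ 2 * (1 - 4 * η) ≤ x * (z + η * y)) : (t - 5 * η) * y ≤ x := by
  have h1 : t * (y ^ 2 * (1 - 4 * η)) ≤ x * (y + η * y) := by
    calc t * (y ^ 2 * (1 - 4 * η)) ≤ t * (x * (z + η * y)) := mul_le_mul_of_nonneg_left h ht0
      _ = x * (t * z + t * (η * y)) := by ring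
      _ ≤ x * (y + 1 * (η * y)) := by
        apply mul_le_mul_of_nonneg_left _ hx
        exact add_le_add hty (mul_le_mul_of_nonneg_right ht1 (by positivity))
      _ = _ := by ring
  have h2 : t * y * (1 - 4 * η) ≤ x * (1 + η) := by
    apply le_of_mul_le_mul_left _ hy
    linarith
  by_contra hcon
  push Not at hcon
  have h3 : x * (1 + η) < (t - 5 * η) * y * (1 + η) :=
    mul_lt_mul_of_pos_right hcon (by linarith)
  have h4 : (t - 5 * η) * y * (1 + η) ≤ t * y * (1 - 4 * η) := by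
    have : t * y * (1 - 4 * η) - (t - 5 * η) * y * (1 + η) = y * η * (5 - 5 * t) + 5 * η ^ 2 * y := by
      ring
    have h5 : 0 ≤ y * η * (5 - 5 * t) := mul_nonneg (by positivity) (by linarith)
    have h6 : 0 ≤ 5 * η ^ 2 * y := by positivity
    linarith
  linarith

lemma chain {b : ℕ → ℝ} {ε s : ℝ} {J : ℕ} (hs : 0 < s) (hε : 0 ≤ ε) (hJ : ε * (J : ℝ) ^ 2 ≤ 1 / 2)
    (h0 : s ≤ b 0) (h1 : (1 - ε) * b 0 ≤ b 1)
    (hstep : ∀ j, j + 1 < J → ∀ t : ℝ, 0 ≤ t → t ≤ 1 → s / 4 ≤ b (j + 1) → t * b j ≤ b (j + 1) →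
      (t - ε) * b (j + 1) ≤ b (j + 2)) :
    ∀ j, j < J → (1 - ε * (j + 1) ^ 2) * b 0 ≤ b j ∧ (1 - ε * (j + 1)) * b j ≤ b (j + 1) := by
  intro j
  induction j with
  | zero =>
    intro _
    norm_num
    refine ⟨?_, h1⟩
    nlinarith
  | succ j ih =>
    intro hj
    obtain ⟨ih1, ih2⟩ := ih (by omega)
    have hjJ : ((j : ℝ) + 1 + 1) ≤ J := by exact_mod_cast hj
    have hj0 : (0 : ℝ) ≤ j := Nat.cast_nonneg j
    have e1 : ε * ((j : ℝ) + 1 + 1) ^ 2 ≤ 1 / 2 := by
      refine le_trans ?_ hJ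
      apply mul_le_mul_of_nonneg_left _ hε
      apply pow_le_pow_left₀ (by positivity) hjJ
    have e2 : ε * ((j : ℝ) + 1) ≤ ε * ((j : ℝ) + 1) ^ 2 := by
      apply mul_le_mul_of_nonneg_left _ hε
      nlinarith
    have e3 : ε * ((j : ℝ) + 1) ^ 2 ≤ ε * ((j : ℝ) + 1 + 1) ^ 2 := by
      apply mul_le_mul_of_nonneg_left _ hε
      nlinarith
    have e4 : 0 ≤ ε * ((j : ℝ) + 1) := by positivity
    have e5 : 0 ≤ ε * ((j : ℝ) + 1) ^ 2 := by positivity
    have a1 : (1 - ε * ((j : ℝ) + 1 + 1) ^ 2) * b 0 ≤ b (j + 1) := by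
      have h2 : (1 - ε * ((j : ℝ) + 1)) * ((1 - ε * (j + 1) ^ 2) * b 0) ≤
          (1 - ε * ((j : ℝ) + 1)) * b j := mul_le_mul_of_nonneg_left ih1 (by linarith)
      have h3 : (1 - ε * ((j : ℝ) + 1 + 1) ^ 2) ≤ (1 - ε * ((j : ℝ) + 1)) * (1 - ε * (j + 1) ^ 2) := by
        have : (1 - ε * ((j : ℝ) + 1)) * (1 - ε * (j + 1) ^ 2) =
          1 - ε * ((j : ℝ) + 1) - ε * (j + 1) ^ 2 + (ε * ((j : ℝ) + 1)) * (ε * (j + 1) ^ 2) := by ring
        have h4 : 0 ≤ (ε * ((j : ℝ) + 1)) * (ε * (j + 1) ^ 2) := mul_nonneg e4 e5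
        have h5 : ε * ((j : ℝ) + 1 + 1) ^ 2 = ε * (j + 1) ^ 2 + 2 * (ε * (j + 1)) + ε := by ring
        linarith
      have h6 := mul_le_mul_of_nonneg_right h3 (by linarith : 0 ≤ b 0)
      linarith
    have a2 : s / 4 ≤ b (j + 1) := by
      have : 1 / 2 * b 0 ≤ (1 - ε * ((j : ℝ) + 1 + 1) ^ 2) * b 0 :=
        mul_le_mul_of_nonneg_right (by linarith) (by linarith)
      linarith
    have a3 := hstep j hj (1 - ε * ((j : ℝ) + 1)) (by linarith) (by linarith) a2 ih2
    push_cast
    refine ⟨a1, ?_⟩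
    have : (1 - ε * ((j : ℝ) + 1)) - ε = 1 - ε * ((j : ℝ) + 1 + 1) := by ring
    rw [← this]
    exact a3

theorem window_bound {a β : ℕ → ℝ} {D C0 C1 ρ s : ℝ} {n0 : ℕ} (hs : 0 < s) (ha : ∀ n, 0 ≤ a n)
    (hD : 1 ≤ D) (hC1 : 0 < C1) (hρ0 : 0 ≤ ρ) (hρ1 : ρ < 1)
    (hβ : ∀ n, β n ≤ C0 * ρ ^ n)
    (hrel : ∀ n, n0 ≤ n → (a (n + 1) - β n) ^ 2 ≤
      (1 + D / n) ^ 2 * (a n * (a (n + 2) + D / n * a (n + 1))))
    (htail : ∀ n, n0 ≤ n → ∀ M, ∑ m ∈ Ico n M, a m / m ≤ C1 / Real.sqrt n) :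
    ∃ n2, ∀ n, n2 ≤ n → s ≤ a n → a n ≤ 16 * C1 * Real.sqrt (20 * D) := by
  -- exponential smallness
  have hexp : ∀ᶠ n : ℕ in atTop, β n ≤ D / n * (s / 4) := by
    have h1 : Tendsto (fun n : ℕ => (n : ℝ) * ρ ^ n) atTop (𝓝 0) :=
      tendsto_self_mul_const_pow_of_lt_one hρ0 hρ1
    have h2 : Tendsto (fun n : ℕ => C0 * ((n : ℝ) * ρ ^ n)) atTop (𝓝 0) := by
      have := h1.const_mul C0
      rwa [mul_zero] at this
    filter_upwards [h2.eventually (gt_mem_nhds (by positivity : 0 < D * (s / 4))),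
      eventually_gt_atTop 0] with n hn hn0
    have hn' : (0 : ℝ) < n := by exact_mod_cast hn0
    refine (hβ n).trans ?_
    rw [div_mul_eq_mul_div, le_div_iff₀ hn']
    linarith
  obtain ⟨n1, hn1⟩ := eventually_atTop.1 hexp
  -- threshold
  obtain ⟨n2, hn2⟩ := exists_nat_gt (80 * D + 2 * (n0 : ℝ) + 2 * n1 + 10)
  have hD0 : 0 < 20 * D := by linarith
  -- simplified relation
  have hR : ∀ m, n0 ≤ m → n1 ≤ m → D ≤ m → s / 4 ≤ a (m + 1) →
      a (m + 1) ^ 2 * (1 - 4 * (D / m)) ≤ a m * (a (m + 2) + D / m * a (m + 1)) := by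
    intro m hm0 hm1 hmD hy
    have hm' : (0 : ℝ) < m := by linarith
    apply rel_simpl (by positivity) (by rwa [div_le_one hm']) _ (ha _)
      (hrel m hm0)
    refine (hn1 m hm1).trans ?_
    apply mul_le_mul_of_nonneg_left hy (by positivity)
  refine ⟨n2, ?_⟩
  · intro n hn han
    have hnR : (80 * D + 2 * (n0 : ℝ) + 2 * n1 + 10) < n := hn2.trans_le (by exact_mod_cast hn)
    have hn0R : (0 : ℝ) ≤ n0 := Nat.cast_nonneg _
    have hn1R : (0 : ℝ) ≤ n1 := Nat.cast_nonneg _
    have hnpos : (0 : ℝ) < n := by linarith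
    set ε : ℝ := 10 * D / n with hε
    have hε0 : 0 ≤ ε := by positivity
    set J : ℕ := ⌊Real.sqrt (n / (20 * D))⌋₊ with hJd
    have hJle : (J : ℝ) ≤ Real.sqrt (n / (20 * D)) := Nat.floor_le (Real.sqrt_nonneg _)
    have hsq : Real.sqrt (n / (20 * D)) ^ 2 = n / (20 * D) := Real.sq_sqrt (by positivity)
    have hs2 : 2 ≤ Real.sqrt (n / (20 * D)) := by
      apply Real.le_sqrt_of_sq_le
      rw [le_div_iff₀ hD0]; linarith
    have hJge : Real.sqrt (n / (20 * D)) / 2 ≤ J := by
      have := Nat.lt_floor_add_one (Real.sqrt (n / (20 * D)))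
      rw [← hJd] at this
      linarith
    have hJ1 : (1 : ℝ) ≤ J := by linarith
    have hJ2 : ε * (J : ℝ) ^ 2 ≤ 1 / 2 := by
      calc ε * (J : ℝ) ^ 2 ≤ ε * (n / (20 * D)) := by
            apply mul_le_mul_of_nonneg_left _ hε0
            rw [← hsq]
            exact pow_le_pow_left₀ (Nat.cast_nonneg _) hJle 2
        _ = 1 / 2 := by rw [hε]; field_simp; norm_num
    -- J ≤ n / 2
    have hJn : 2 * (J : ℝ) ≤ n := by
      have h1 : (J : ℝ) ^ 2 ≤ n / 4 := by
        calc (J : ℝ) ^ 2 ≤ n / (20 * D) := by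
              rw [← hsq]; exact pow_le_pow_left₀ (Nat.cast_nonneg _) hJle 2
          _ ≤ n / 4 := by
              apply div_le_div_of_nonneg_left hnpos.le (by norm_num) (by linarith)
      nlinarith
    have hJnN : 2 * J ≤ n := by exact_mod_cast hJn
    have hJ1N : 1 ≤ J := by exact_mod_cast hJ1
    have hsn : 0 < Real.sqrt n := Real.sqrt_pos.2 hnpos
    have hsnsq : Real.sqrt n * Real.sqrt n = n := Real.mul_self_sqrt hnpos.le
    have hratio : Real.sqrt n ≤ 2 * J * Real.sqrt (20 * D) := by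
      have h1 : Real.sqrt n = Real.sqrt (n / (20 * D)) * Real.sqrt (20 * D) := by
        rw [← Real.sqrt_mul (by positivity), div_mul_cancel₀ _ hD0.ne']
      rw [h1]
      apply mul_le_mul_of_nonneg_right _ (Real.sqrt_nonneg _)
      linarith
    have hhalf : ∀ j : ℕ, j < J → 1 / 2 ≤ 1 - ε * ((j : ℝ) + 1) ^ 2 := by
      intro j hj
      have h1 : ((j : ℝ) + 1) ≤ J := by exact_mod_cast hj
      have h2 : ε * ((j : ℝ) + 1) ^ 2 ≤ ε * (J : ℝ) ^ 2 := by
        apply mul_le_mul_of_nonneg_left _ hε0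
        exact pow_le_pow_left₀ (by positivity) h1 2
      linarith
    have hη : ∀ m : ℕ, n ≤ 2 * m → 5 * (D / m) ≤ ε := by
      intro m hm
      have hm' : (n : ℝ) ≤ 2 * m := by exact_mod_cast hm
      have hm0 : (0 : ℝ) < m := by linarith
      rw [hε, ← mul_div_assoc, div_le_div_iff₀ hm0 hnpos]
      nlinarith
    have hbig : ∀ m : ℕ, n ≤ 2 * m → n0 ≤ m ∧ n1 ≤ m ∧ D ≤ m := by
      intro m hm
      have hm' : (n : ℝ) ≤ 2 * m := by exact_mod_cast hm
      refine ⟨?_, ?_, by linarith⟩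
      · have : (n0 : ℝ) ≤ m := by linarith
        exact_mod_cast this
      · have : (n1 : ℝ) ≤ m := by linarith
        exact_mod_cast this
    -- conclusion from the sum
    have hfin : ∀ (c : ℝ), 0 ≤ c → (J : ℝ) * (a n / 2) / (2 * n) ≤ c / Real.sqrt n →
        a n ≤ 8 * c * Real.sqrt (20 * D) := by
      intro c hc h
      rw [div_le_div_iff₀ (by positivity) hsn] at h
      have h1 : (J : ℝ) * (a n / 2) ≤ 2 * c * Real.sqrt n := by
        have h2 : (J : ℝ) * (a n / 2) * Real.sqrt n ≤ (2 * c * Real.sqrt n) * Real.sqrt n := by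
          calc (J : ℝ) * (a n / 2) * Real.sqrt n ≤ c * (2 * n) := h
            _ = (2 * c * Real.sqrt n) * Real.sqrt n := by
              rw [mul_assoc (2 * c), hsnsq]; ring
        exact le_of_mul_le_mul_right h2 hsn
      have h3 : (J : ℝ) * a n ≤ J * (8 * c * Real.sqrt (20 * D)) := by
        have h4 : 2 * c * Real.sqrt n ≤ 2 * c * (2 * J * Real.sqrt (20 * D)) :=
          mul_le_mul_of_nonneg_left hratio (by positivity)
        linarith
      exact le_of_mul_le_mul_left h3 (by linarith)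
    rcases le_or_gt (a n) (a (n + 1)) with hcase | hcase
    · -- forward
      have hch := chain (b := fun j => a (n + j)) (ε := ε) (J := J) hs hε0 hJ2 (by simpa using han)
        (by
          simp only [add_zero]
          have : ε * a n ≥ 0 := mul_nonneg hε0 (ha n)
          linarith)
        (by
          intro j hj t ht0 ht1 hb hbt
          obtain ⟨h1, h2, h3⟩ := hbig (n + j) (by omega)
          have e1 : n + (j + 1) = n + j + 1 := by omega
          have e2 : n + (j + 2) = n + j + 2 := by omega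
          rw [e1] at hb hbt ⊢
          rw [e2]
          have hr := hR (n + j) h1 h2 h3 hb
          have hf := fwd (ha _) (by positivity) (by linarith : 0 < a (n + j + 1)) ht0 ht1 hbt hr
          have h5 := hη (n + j) (by omega)
          refine le_trans ?_ hf
          apply mul_le_mul_of_nonneg_right _ (ha _)
          linarith)
      have hsm := htail n (hbig n (by omega)).1 (n + J)
      have h2C : a n ≤ 8 * C1 * Real.sqrt (20 * D) := by
        apply hfin C1 hC1.le
        refine le_trans ?_ hsm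
        rw [sum_Ico_eq_sum_range, Nat.add_sub_cancel_left]
        have : (J : ℝ) * (a n / 2) / (2 * n) = ∑ _j ∈ range J, (a n / 2) / (2 * n) := by
          rw [sum_const, card_range, nsmul_eq_mul, mul_div_assoc]
        rw [this]
        apply sum_le_sum
        intro j hj
        rw [mem_range] at hj
        obtain ⟨h1, -⟩ := hch j hj
        simp only [add_zero] at h1
        have h2 := hhalf j hj
        have h3 : a n / 2 ≤ a (n + j) := by
          have := mul_le_mul_of_nonneg_right h2 (ha n)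
          linarith
        have hjJ : (j : ℝ) ≤ J := by exact_mod_cast hj.le
        push_cast
        apply div_le_div₀ (ha _) h3 (by positivity)
        linarith
      have : 8 * C1 * Real.sqrt (20 * D) ≤ 16 * C1 * Real.sqrt (20 * D) := by
        have := mul_nonneg hC1.le (Real.sqrt_nonneg (20 * D))
        linarith
      linarith
    · -- backward
      have hch := chain (b := fun j => a (n - j)) (ε := ε) (J := J) hs hε0 hJ2 (by simpa using han)
        (by
          simp only [Nat.sub_zero]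
          obtain ⟨h1, h2, h3⟩ := hbig (n - 1) (by omega)
          have e1 : n - 1 + 1 = n := by omega
          have e2 : n - 1 + 2 = n + 1 := by omega
          have hr := hR (n - 1) h1 h2 h3 (by rw [e1]; linarith)
          rw [e1, e2] at hr
          have hf := bwd (ha _) (by positivity) (by linarith : 0 < a n)
            zero_le_one le_rfl (by rw [one_mul]; exact hcase.le) hr
          have h5 := hη (n - 1) (by omega)
          refine le_trans ?_ hf
          apply mul_le_mul_of_nonneg_right _ (ha _)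
          linarith)
        (by
          intro j hj t ht0 ht1 hb hbt
          obtain ⟨h1, h2, h3⟩ := hbig (n - (j + 2)) (by omega)
          have e1 : n - (j + 1) = n - (j + 2) + 1 := by omega
          have e2 : n - j = n - (j + 2) + 2 := by omega
          rw [e1] at hb hbt ⊢
          rw [e2] at hbt
          have hr := hR (n - (j + 2)) h1 h2 h3 hb
          have hf := bwd (ha _) (by positivity) (by linarith : 0 < a (n - (j + 2) + 1))
            ht0 ht1 hbt hr
          have h5 := hη (n - (j + 2)) (by omega)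
          refine le_trans ?_ hf
          apply mul_le_mul_of_nonneg_right _ (ha _)
          linarith)
      have hsm := htail (n - J + 1) (hbig _ (by omega)).1 (n + 1)
      have h2C : a n ≤ 8 * (2 * C1) * Real.sqrt (20 * D) := by
        apply hfin (2 * C1) (by linarith)
        have hs2' : C1 / Real.sqrt ((n - J + 1 : ℕ) : ℝ) ≤ 2 * C1 / Real.sqrt n := by
          have h1 : (n : ℝ) ≤ 4 * ((n - J + 1 : ℕ) : ℝ) := by
            have : n ≤ 4 * (n - J + 1) := by omega
            exact_mod_cast this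
          have h2 : Real.sqrt n ≤ 2 * Real.sqrt ((n - J + 1 : ℕ) : ℝ) := by
            rw [show (2 : ℝ) = Real.sqrt 4 by
              rw [show (4 : ℝ) = 2 ^ 2 by norm_num]; exact (Real.sqrt_sq (by norm_num)).symm,
              ← Real.sqrt_mul (by norm_num)]
            exact Real.sqrt_le_sqrt h1
          have h3 : 0 < Real.sqrt ((n - J + 1 : ℕ) : ℝ) := by
            apply Real.sqrt_pos.2
            have : 0 < n - J + 1 := by omega
            exact_mod_cast this
          rw [div_le_div_iff₀ h3 hsn]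
          nlinarith
        refine le_trans ?_ (hsm.trans hs2')
        have hreidx : ∑ m ∈ Ico (n - J + 1) (n + 1), a m / m =
            ∑ j ∈ range J, a (n - j) / ((n - j : ℕ) : ℝ) := by
          have := sum_Ico_reflect (fun m => a m / (m : ℝ)) 0 (m := J) (n := n) (by omega)
          rw [Nat.sub_zero, ← range_eq_Ico] at this
          rw [this]
          congr 2
          omega
        rw [hreidx]
        have : (J : ℝ) * (a n / 2) / (2 * n) = ∑ _j ∈ range J, (a n / 2) / (2 * n) := by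
          rw [sum_const, card_range, nsmul_eq_mul, mul_div_assoc]
        rw [this]
        apply sum_le_sum
        intro j hj
        rw [mem_range] at hj
        obtain ⟨h1, -⟩ := hch j hj
        simp only [Nat.sub_zero] at h1
        have h2 := hhalf j hj
        have h3 : a n / 2 ≤ a (n - j) := by
          have := mul_le_mul_of_nonneg_right h2 (ha n)
          linarith
        have h4 : (0 : ℝ) < ((n - j : ℕ) : ℝ) := by
          have : 0 < n - j := by omega
          exact_mod_cast this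
        have h5 : ((n - j : ℕ) : ℝ) ≤ n := by
          have : n - j ≤ n := by omega
          exact_mod_cast this
        apply div_le_div₀ (ha _) h3 h4
        linarith
      linarith

theorem tendsto_zero {a β : ℕ → ℝ} {D C0 ρ : ℝ} {n0 : ℕ} (ha : ∀ n, 0 ≤ a n)
    (hD : 1 ≤ D) (hρ0 : 0 ≤ ρ) (hρ1 : ρ < 1)
    (hβ : ∀ n, β n ≤ C0 * ρ ^ n)
    (hrel : ∀ n, n0 ≤ n → (a (n + 1) - β n) ^ 2 ≤
      (1 + D / n) ^ 2 * (a n * (a (n + 2) + D / n * a (n + 1))))
    (htail : ∀ c : ℝ, 0 < c → ∃ N0 : ℕ, ∀ n, N0 ≤ n → ∀ M,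
      ∑ m ∈ Ico n M, a m / m ≤ c / Real.sqrt n) :
    Tendsto a atTop (𝓝 0) := by
  rw [Metric.tendsto_atTop]
  intro ε hε
  have hq : 0 < 16 * Real.sqrt (20 * D) := by positivity
  obtain ⟨N0, hN0⟩ := htail (ε / 2 / (16 * Real.sqrt (20 * D))) (by positivity)
  obtain ⟨n2, hn2⟩ := window_bound (s := ε / 2) (n0 := max n0 N0) (half_pos hε) ha hD
    (by positivity : 0 < ε / 2 / (16 * Real.sqrt (20 * D))) hρ0 hρ1 hβ
    (fun n hn => hrel n ((le_max_left _ _).trans hn))
    (fun n hn => hN0 n ((le_max_right _ _).trans hn))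
  refine ⟨n2, fun n hn => ?_⟩
  rw [dist_zero_right, Real.norm_of_nonneg (ha n)]
  by_contra hcon
  push Not at hcon
  have h1 := hn2 n hn (by linarith)
  have h2 : 16 * (ε / 2 / (16 * Real.sqrt (20 * D))) * Real.sqrt (20 * D) = ε / 2 := by
    have : Real.sqrt (20 * D) ≠ 0 := by positivity
    field_simp
  linarith

end Pool.Agent.Work.MP_376faf_co.LC
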