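import Pool.Agent.Work.MP_376faf_co.Place

/-! The two kinds of moves: attach a tall polygon, or a short one followed by a tall one. -/

set_option autoImplicit false

namespace Pool.Agent.Work.MP_376faf_co

def IsTop (P : List Pt) (t : ℤ) : Prop := (∃ p ∈ P, p.2 = t) ∧ ∀ p ∈ P, p.2 ≤ t

theorem IsTop.unique {P : List Pt} {t t' : ℤ} (h : IsTop P t) (h' : IsTop P t') : t = t' := by
  obtain ⟨⟨p, hp, rfl⟩, h2⟩ := h
  obtain ⟨⟨p', hp', rfl⟩, h2'⟩ := h'
  exact le_antisymm (h2' p hp) (h2 p' hp')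

theorem exists_top {P : List Pt} (h : P ≠ []) : ∃ t, IsTop P t := by
  classical
  obtain ⟨p, hp, hmax⟩ := P.toFinset.exists_max_image (fun x => x.2) (by simpa using h)
  exact ⟨p.2, ⟨p, by simpa using hp, rfl⟩, fun q hq => hmax q (by simpa using hq)⟩

def Inv (c : ℤ) (s : St) : Prop := ∃ (v : Pt) (L0 U0 P0 : List Pt) (t : ℤ),
  Good s v L0 U0 P0 ∧ IsTop (v :: P0) t ∧ ∀ x, (x ∈ v :: L0 ∨ x ∈ v :: U0) → x.2 + c ≤ t

theorem Inv.good {c : ℤ} {s : St} (h : Inv c s) : IsGood s := by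
  obtain ⟨v, L0, U0, P0, t, g, -⟩ := h
  exact ⟨v, L0, U0, P0, g⟩

def wt (s : St) : ℕ := s.1.length + s.2.1.length + s.2.2.length

/-- the data recorded by a direct move -/
def Rec (s : St) (Q : List Pt) (k : ℤ) (s' : St) : Prop :=
  ∃ (d : Pt) (t : ℤ), Placed Q d s'.2.2 ∧ IsTop s.2.2 t ∧ d.2 + k = t

theorem Rec.unique {s : St} {Q1 Q2 : List Pt} {k1 k2 : ℤ} {s' : St} (hQ1 : Canon Q1)
    (hQ2 : Canon Q2) (h1 : Rec s Q1 k1 s') (h2 : Rec s Q2 k2 s') : Q1 = Q2 ∧ k1 = k2 := by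
  obtain ⟨d1, t1, a1, b1, c1⟩ := h1
  obtain ⟨d2, t2, a2, b2, c2⟩ := h2
  obtain ⟨e1, e2⟩ := placed_unique hQ1 hQ2 a1 a2
  have := b1.unique b2
  subst e2
  exact ⟨e1, by omega⟩

theorem move {c k : ℤ} (hk0 : 0 ≤ k) (hk : k < c) {s : St} (hs : Inv c s) {Q : List Pt}
    (hQ : Canon Q) (hh : ∃ q ∈ Q, c + k ≤ q.2) :
    ∃ s', Step s s' ∧ Inv c s' ∧ wt s' = wt s + Q.length + 2 ∧ Rec s Q k s' := by
  obtain ⟨v, L0, U0, P0, t, g, ht, hc⟩ := hs
  obtain ⟨q0, hq0, hq0c⟩ := hh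
  obtain ⟨pt, hpt, hptt⟩ := ht.1
  have hv := hc v (by simp)
  obtain ⟨p1, hp1, hp1b⟩ := ivt g.poly.saw.2 (p := v) (q := pt) (by simp) hpt (t - k) (by omega)
    (by omega)
  obtain ⟨p, q, hm⟩ := exists_maxPair (v :: P0) Q (t - k) ⟨p1, hp1, 0, hQ.zero_mem, by
    simp [hp1b]⟩
  have hplow := hQ.low q hm.2.1
  have hpb := hm.2.2.1
  obtain ⟨L', U', P0', h1, h2, h3, h4, h5, h6⟩ := place g hQ.poly hm
    (fun h => by rw [h] at hpb; omega)
    (fun x hx y hy hxy => by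
      have e1 := hc x (by simp [hx])
      have e2 := hQ.low y hy
      have e3 := congrArg Prod.snd hxy
      simp only [Prod.snd_add] at e3
      omega)
    (fun x hx y hy hxy => by
      have e1 := hc x (by simp [hx])
      have e2 := hQ.low y hy
      have e3 := congrArg Prod.snd hxy
      simp only [Prod.snd_add] at e3
      omega)
  have hptop := ht.2 p hm.1
  refine ⟨_, h1, ?_, ?_, ?_⟩
  · obtain ⟨t', ht'⟩ := exists_top (P := (p + (1, 0)) :: P0') (by simp)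
    refine ⟨_, _, _, _, t', h2, ht', ?_⟩
    have htt : t + c ≤ t' := by
      have := ht'.2 (q0 + (p.1 - q.1 + 1, t - k)) ((h3.mem _).2 ⟨q0, hq0, rfl⟩)
      simp only [Prod.snd_add] at this
      omega
    intro x hx
    have hx' : x = p + (1, 0) ∨ (x ∈ L' ∨ x ∈ U') := by
      simp only [List.mem_cons] at hx; tauto
    rcases hx' with rfl | hx'
    · simp only [Prod.snd_add]; omega
    · rcases h6 x hx' with h | h | h
      · have := ht.2 x h; omega
      · have := hc x (by simp [h]); omega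
      · have := hc x (by simp [h]); omega
  · rw [g.eq]
    simp only [wt, List.length_cons]
    omega
  · refine ⟨_, t, h3, ?_, ?_⟩
    · rw [g.eq]; exact ht
    · simp

/-- the touching height, as a function of the shapes and the relative height -/
noncomputable def touchHeight (P Q : List Pt) (b : ℤ) : ℤ :=
  Classical.epsilon (fun y => ∃ p q, IsMaxPair P Q b p q ∧ p.2 = y)

theorem touchHeight_spec {P Q : List Pt} {b : ℤ} (h : ∃ p ∈ P, ∃ q ∈ Q, p.2 = q.2 + b) :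
    ∃ p q, IsMaxPair P Q b p q ∧ p.2 = touchHeight P Q b := by
  obtain ⟨p, q, hm⟩ := exists_maxPair P Q b h
  exact Classical.epsilon_spec (p := fun y => ∃ p q, IsMaxPair P Q b p q ∧ p.2 = y)
    ⟨p.2, p, q, hm, rfl⟩

/-- the data recorded when R is inserted between s and the tall polygon Q -/
def Rec2 (s : St) (Q : List Pt) (k : ℤ) (R : List Pt) (o : ℤ) (s1 s' : St) : Prop :=
  ∃ (d e : Pt) (t : ℤ), Placed Q d s'.2.2 ∧ Placed R e s1.2.2 ∧ IsTop s.2.2 t ∧ d.2 + k = t ∧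
    touchHeight s.2.2 Q d.2 = e.2 + o

theorem Rec2.unique {s : St} {Q1 Q2 : List Pt} {k1 k2 : ℤ} {R1 R2 : List Pt} {o1 o2 : ℤ}
    {s1 s' : St} (hQ1 : Canon Q1) (hQ2 : Canon Q2) (hR1 : Canon R1) (hR2 : Canon R2)
    (h1 : Rec2 s Q1 k1 R1 o1 s1 s') (h2 : Rec2 s Q2 k2 R2 o2 s1 s') :
    Q1 = Q2 ∧ k1 = k2 ∧ R1 = R2 ∧ o1 = o2 := by
  obtain ⟨d1, e1, t1, a1, b1, c1, f1, g1⟩ := h1
  obtain ⟨d2, e2, t2, a2, b2, c2, f2, g2⟩ := h2
  obtain ⟨i1, i2⟩ := placed_unique hQ1 hQ2 a1 a2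
  obtain ⟨j1, j2⟩ := placed_unique hR1 hR2 b1 b2
  have := c1.unique c2
  subst i1; subst i2; subst j1; subst j2
  rw [g1] at g2
  exact ⟨rfl, by omega, rfl, by omega⟩

theorem move2 {m k : ℤ} (hk0 : 0 ≤ k) (hk : k < m) {s : St} (hs : Inv (2 * m) s) {Q : List Pt}
    (hQ : Canon Q) (hh : ∃ q ∈ Q, 4 * m - 1 ≤ q.2) {R : List Pt} (hR : Canon R)
    (hRm : ∀ r ∈ R, r.2 ≤ m) {o : ℤ} (ho0 : 0 ≤ o) (ho : ∃ r ∈ R, o ≤ r.2) :
    ∃ s1 s', Step s s1 ∧ Step s1 s' ∧ Inv (2 * m) s' ∧ IsGood s1 ∧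
      wt s' = wt s + Q.length + R.length + 4 ∧ Rec2 s Q k R o s1 s' := by
  obtain ⟨v, L0, U0, P0, t, g, ht, hc⟩ := hs
  obtain ⟨q1, hq1, hq1c⟩ := hh
  obtain ⟨pt, hpt, hptt⟩ := ht.1
  have hv := hc v (by simp)
  obtain ⟨p1, hp1, hp1b⟩ := ivt g.poly.saw.2 (p := v) (q := pt) (by simp) hpt (t - k) (by omega)
    (by omega)
  obtain ⟨p0, q0, hm0, hth⟩ := touchHeight_spec (P := v :: P0) (Q := Q) (b := t - k)
    ⟨p1, hp1, 0, hQ.zero_mem, by simp [hp1b]⟩
  have hp0b := hm0.2.2.1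
  have hq0low := hQ.low q0 hm0.2.1
  have hp0t := ht.2 p0 hm0.1
  -- the point of R at height o
  obtain ⟨rt, hrt, hrto⟩ := ho
  obtain ⟨r0, hr0, hr0o⟩ := ivt hR.poly.saw.2 (p := 0) (q := rt) hR.zero_mem hrt o
    (by simpa using ho0) hrto
  have hr0m := hRm r0 hr0
  -- place R
  obtain ⟨p, r, hm⟩ := exists_maxPair (v :: P0) R (p0.2 - o) ⟨p0, hm0.1, r0, hr0, by omega⟩
  have hpb := hm.2.2.1
  have hrlow := hR.low r hm.2.1
  have hpt' := ht.2 p hm.1
  obtain ⟨L1, U1, P1, h1, h2, h3, h4, h5, h6⟩ := place g hR.poly hm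
    (fun h => by rw [h] at hpb; omega)
    (fun x hx y hy hxy => by
      have e1 := hc x (by simp [hx])
      have e2 := hR.low y hy
      have e3 := congrArg Prod.snd hxy
      simp only [Prod.snd_add] at e3
      omega)
    (fun x hx y hy hxy => by
      have e1 := hc x (by simp [hx])
      have e2 := hR.low y hy
      have e3 := congrArg Prod.snd hxy
      simp only [Prod.snd_add] at e3
      omega)
  have hbefR := hm.before h3
  -- the point of R' at height p0.2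
  have hz : r0 + (p.1 - r.1 + 1, p0.2 - o) ∈ (p + (1, 0)) :: P1 := (h3.mem _).2 ⟨r0, hr0, rfl⟩
  set z : Pt := r0 + (p.1 - r.1 + 1, p0.2 - o) with hzdef
  have hz2 : z.2 = p0.2 := by rw [hzdef]; simp only [Prod.snd_add]; omega
  have hz1 : p0.1 < z.1 := hbefR p0 hm0.1 z hz hz2.symm
  -- place Q
  obtain ⟨p', q', hm'⟩ := exists_maxPair ((p + (1, 0)) :: P1) Q (t - k)
    ⟨z, hz, q0, hm0.2.1, by omega⟩
  have hq'low := hQ.low q' hm'.2.1
  have hp'b := hm'.2.2.1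
  have hzq : z.1 - q0.1 ≤ p'.1 - q'.1 := hm'.2.2.2 z hz q0 hm0.2.1 (by omega)
  have hne : p' ≠ p + (1, 0) := by
    intro he
    obtain ⟨w, hw, hw2⟩ := two_at_height h2.poly
    have hww : w ≠ p + (1, 0) := by
      rintro rfl
      exact (List.nodup_cons.1 h2.poly.1).1 hw
    have a1 : p.1 < w.1 := hbefR p hm.1 w (by simp [hw]) (by rw [hw2]; simp)
    have a2 := hm'.2.2.2 w (by simp [hw]) q' hm'.2.1 (by rw [hw2, ← he]; exact hp'b)
    rw [he] at a2
    simp only [Prod.fst_add] at a2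
    have a3 : w.1 = p.1 + 1 := by omega
    apply hww
    ext
    · simp [a3]
    · rw [hw2]
  have hPdis : ∀ x ∈ v :: P0, ∀ y ∈ Q, y + (p'.1 - q'.1 + 1, t - k) ≠ x := by
    intro x hx y hy hxy
    have e3 := congrArg Prod.snd hxy
    have e4 := congrArg Prod.fst hxy
    simp only [Prod.snd_add, Prod.fst_add] at e3 e4
    have e5 := hm0.2.2.2 x hx y hy (by omega)
    omega
  have hLUdis : ∀ x, (x ∈ L1 ∨ x ∈ U1) → ∀ y ∈ Q, y + (p'.1 - q'.1 + 1, t - k) ≠ x := by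
    intro x hx y hy hxy
    rcases h6 x hx with h | h | h
    · exact hPdis x h y hy hxy
    · have e1 := hc x (by simp [h])
      have e2 := hQ.low y hy
      have e3 := congrArg Prod.snd hxy
      simp only [Prod.snd_add] at e3
      omega
    · have e1 := hc x (by simp [h])
      have e2 := hQ.low y hy
      have e3 := congrArg Prod.snd hxy
      simp only [Prod.snd_add] at e3
      omega
  obtain ⟨L2, U2, P2, i1, i2, i3, i4, i5, i6⟩ := place h2 hQ.poly hm' hne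
    (fun x hx => hLUdis x (Or.inl hx)) (fun x hx => hLUdis x (Or.inr hx))
  have hR1top : ∀ x ∈ (p + (1, 0)) :: P1, x.2 ≤ t + m := by
    intro x hx
    obtain ⟨y, hy, rfl⟩ := (h3.mem x).1 hx
    have := hRm y hy
    simp only [Prod.snd_add]
    omega
  refine ⟨_, _, h1, i1, ?_, ⟨_, _, _, _, h2⟩, ?_, ?_⟩
  · obtain ⟨t', ht'⟩ := exists_top (P := (p' + (1, 0)) :: P2) (by simp)
    refine ⟨_, _, _, _, t', i2, ht', ?_⟩
    have htt : t + 3 * m ≤ t' := by
      have := ht'.2 (q1 + (p'.1 - q'.1 + 1, t - k)) ((i3.mem _).2 ⟨q1, hq1, rfl⟩)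
      simp only [Prod.snd_add] at this
      omega
    intro x hx
    have hx' : x = p' + (1, 0) ∨ (x ∈ L2 ∨ x ∈ U2) := by
      simp only [List.mem_cons] at hx; tauto
    have key : ∀ x, (x ∈ L1 ∨ x ∈ U1) → x.2 ≤ t + m := by
      intro x hx
      rcases h6 x hx with h | h | h
      · have := ht.2 x h; omega
      · have := hc x (by simp [h]); omega
      · have := hc x (by simp [h]); omega
    rcases hx' with rfl | hx'
    · have := hR1top p' hm'.1
      simp only [Prod.snd_add]; omega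
    · rcases i6 x hx' with h | h | h
      · have := hR1top x h; omega
      · have := key x (Or.inl h); omega
      · have := key x (Or.inr h); omega
  · rw [g.eq]
    simp only [wt, List.length_cons]
    omega
  · refine ⟨_, _, t, i3, h3, ?_, ?_, ?_⟩
    · rw [g.eq]; exact ht
    · simp
    · rw [g.eq]; simp only; rw [← hth]; ring

end Pool.Agent.Work.MP_376faf_co
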