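import Pool.Agent.Work.MP_376faf_co.Step

/-! Placing canonical polygons by sliding them from the right. -/

set_option autoImplicit false

namespace Pool.Agent.Work.MP_376faf_co

/-- canonical representatives of oriented polygons up to translation -/
structure Canon (Q : List Pt) : Prop where
  poly : IsPoly Q
  head : Q.head? = some 0
  low : ∀ p ∈ Q, 0 ≤ p.2
  left : ∀ p ∈ Q, p.2 = 0 → 0 ≤ p.1

theorem Canon.zero_mem {Q : List Pt} (h : Canon Q) : (0 : Pt) ∈ Q :=
  List.mem_of_head? h.head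

def Placed (Q : List Pt) (d : Pt) (P' : List Pt) : Prop := (Q.map (· + d)).IsRotated P'

theorem Placed.mem {Q : List Pt} {d : Pt} {P' : List Pt} (h : Placed Q d P') (x : Pt) :
    x ∈ P' ↔ ∃ q ∈ Q, q + d = x := by
  rw [← h.mem_iff]; simp

theorem placed_unique {Q1 Q2 : List Pt} {d1 d2 : Pt} {P' : List Pt} (h1 : Canon Q1)
    (h2 : Canon Q2) (p1 : Placed Q1 d1 P') (p2 : Placed Q2 d2 P') : Q1 = Q2 ∧ d1 = d2 := by
  have hd1 : d1 ∈ P' := (p1.mem _).2 ⟨0, h1.zero_mem, by simp⟩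
  have hd2 : d2 ∈ P' := (p2.mem _).2 ⟨0, h2.zero_mem, by simp⟩
  obtain ⟨q2, hq2, e2⟩ := (p2.mem _).1 hd1
  obtain ⟨q1, hq1, e1⟩ := (p1.mem _).1 hd2
  have a1 := h1.low q1 hq1
  have a2 := h2.low q2 hq2
  have b1 := congrArg Prod.snd e1
  have b2 := congrArg Prod.snd e2
  have c1 := congrArg Prod.fst e1
  have c2 := congrArg Prod.fst e2
  simp only [Prod.snd_add, Prod.fst_add] at b1 b2 c1 c2
  have l1 := h1.left q1 hq1 (by omega)
  have l2 := h2.left q2 hq2 (by omega)
  have hd : d1 = d2 := Prod.ext (by omega) (by omega)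
  subst hd
  refine ⟨?_, rfl⟩
  have hr : (Q1.map (· + d1)).IsRotated (Q2.map (· + d1)) := p1.trans p2.symm
  have hn : (Q1.map (· + d1)).Nodup := (h1.poly.translate d1).1
  have := rot_eq hn hr d1 (by simp [h1.head]) (by simp [h2.head])
  exact List.map_injective_iff.2 (add_left_injective d1) this

/-- the pairs of points which touch first when Q (with bottom at height b) slides in from
the right towards P -/
def IsMaxPair (P Q : List Pt) (b : ℤ) (p q : Pt) : Prop :=
  p ∈ P ∧ q ∈ Q ∧ p.2 = q.2 + b ∧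
    ∀ p' ∈ P, ∀ q' ∈ Q, p'.2 = q'.2 + b → p'.1 - q'.1 ≤ p.1 - q.1

theorem exists_maxPair (P Q : List Pt) (b : ℤ) (h : ∃ p ∈ P, ∃ q ∈ Q, p.2 = q.2 + b) :
    ∃ p q, IsMaxPair P Q b p q := by
  classical
  obtain ⟨p0, hp0, q0, hq0, he⟩ := h
  set T : Finset (Pt × Pt) := (P.toFinset ×ˢ Q.toFinset).filter (fun x => x.1.2 = x.2.2 + b)
    with hT
  have hne : T.Nonempty := ⟨(p0, q0), by simp [hT, hp0, hq0, he]⟩
  obtain ⟨⟨p, q⟩, hm, hmax⟩ := T.exists_max_image (fun x => x.1.1 - x.2.1) hne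
  simp only [hT, Finset.mem_filter, Finset.mem_product, List.mem_toFinset] at hm
  refine ⟨p, q, hm.1.1, hm.1.2, hm.2, fun p' hp' q' hq' he' => ?_⟩
  exact hmax (p', q') (by simp [hT, hp', hq', he'])

def Before (P Q : List Pt) : Prop := ∀ p ∈ P, ∀ q ∈ Q, p.2 = q.2 → p.1 < q.1

theorem IsMaxPair.before {P Q : List Pt} {b : ℤ} {p q : Pt} (h : IsMaxPair P Q b p q)
    {P' : List Pt} (hp : Placed Q (p.1 - q.1 + 1, b) P') : Before P P' := by
  intro x hx y hy hxy
  obtain ⟨z, hz, rfl⟩ := (hp.mem y).1 hy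
  simp only [Prod.snd_add, Prod.fst_add] at hxy ⊢
  have := h.2.2.2 x hx z hz hxy
  omega

theorem exists_rot {S : List Pt} {v : Pt} (h : v ∈ S) : ∃ S', S.IsRotated (v :: S') := by
  obtain ⟨X, Y, rfl⟩ := List.append_of_mem h
  exact ⟨Y ++ X, by
    have : (X ++ v :: Y).IsRotated ((v :: Y) ++ X) := List.isRotated_append
    simpa using this⟩

theorem place {s : St} {v : Pt} {L0 U0 P0 : List Pt} (g : Good s v L0 U0 P0)
    {R : List Pt} (hR : IsPoly R) {p r : Pt} {b : ℤ} (hm : IsMaxPair (v :: P0) R b p r)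
    (hpv : p ≠ v) (hL : ∀ x ∈ L0, ∀ y ∈ R, y + (p.1 - r.1 + 1, b) ≠ x)
    (hU : ∀ x ∈ U0, ∀ y ∈ R, y + (p.1 - r.1 + 1, b) ≠ x) :
    ∃ (L' U' P0' : List Pt),
      Step s ((p + (1, 0)) :: L', (p + (1, 0)) :: U', (p + (1, 0)) :: P0') ∧
      Good ((p + (1, 0)) :: L', (p + (1, 0)) :: U', (p + (1, 0)) :: P0') (p + (1, 0)) L' U' P0' ∧
      Placed R (p.1 - r.1 + 1, b) ((p + (1, 0)) :: P0') ∧
      L'.length + U'.length = (L0.length + 1) + (U0.length + 1) + (P0.length + 1) ∧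
      P0'.length + 1 = R.length ∧
      (∀ x, x ∈ L' ∨ x ∈ U' → x ∈ v :: P0 ∨ x ∈ L0 ∨ x ∈ U0) := by
  have hv' : p + (1, 0) ∈ R.map (· + (p.1 - r.1 + 1, b)) := by
    rw [List.mem_map]
    refine ⟨r, hm.2.1, ?_⟩
    have := hm.2.2.1
    ext
    · simp; ring
    · simp; omega
  obtain ⟨P0', hrot⟩ := exists_rot hv'
  have hpl : Placed R (p.1 - r.1 + 1, b) ((p + (1, 0)) :: P0') := hrot
  have hpoly : IsPoly ((p + (1, 0)) :: P0') := (hR.translate _).rot hrot
  have hb := hm.before hpl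
  have hu : p ∈ P0 := by
    rcases List.mem_cons.1 hm.1 with h | h
    · exact absurd h hpv
    · exact h
  obtain ⟨L', U', h1, h2, h3, h4⟩ := attach g hu (v' := p + (1, 0)) (nb_right p).symm hpoly
    (fun x hx hx' => lt_irrefl _ (hb x hx x hx' rfl))
    (fun x hx hx' => by
      obtain ⟨y, hy, he⟩ := (hpl.mem x).1 hx'
      exact hL x hx y hy he)
    (fun x hx hx' => by
      obtain ⟨y, hy, he⟩ := (hpl.mem x).1 hx'
      exact hU x hx y hy he)
  refine ⟨L', U', P0', h1, h2, hpl, h3, ?_, h4⟩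
  have := hrot.perm.length_eq
  simpa using this.symm

/-- a polygon meets every one of its heights at least twice -/
theorem two_at_height {v : Pt} {P0 : List Pt} (h : IsPoly (v :: P0)) : ∃ z ∈ P0, z.2 = v.2 := by
  have hn := h.1
  have hl := h.2.1
  have hc := (Cycle.chain_coe_cons Nb v P0).1 h.2.2
  rcases P0 with - | ⟨a, P1⟩
  · simp at hl
  · have hne : P1 ≠ [] := by rintro rfl; simp at hl
    rw [List.cons_append, List.isChain_cons_cons] at hc
    obtain ⟨hva, hc⟩ := hc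
    obtain ⟨P2, z, rfl⟩ : ∃ P2 z, P1 = P2 ++ [z] := ⟨P1.dropLast, P1.getLast hne,
      (List.dropLast_append_getLast hne).symm⟩
    have hch : List.IsChain Nb (a :: (P2 ++ [z])) := by
      have : a :: (P2 ++ [z] ++ [v]) = (a :: (P2 ++ [z])) ++ [v] := by simp
      rw [this] at hc
      exact hc.left_of_append
    have hzv : Nb z v := by
      have : a :: (P2 ++ [z] ++ [v]) = (a :: P2) ++ z :: ([] ++ [v]) := by simp
      rw [this, List.isChain_split] at hc
      simpa using hc.2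
    by_cases ha : a.2 = v.2
    · exact ⟨a, by simp, ha⟩
    by_cases hz : z.2 = v.2
    · exact ⟨z, by simp, hz⟩
    have haz : a ≠ z := by
      rintro rfl
      simp at hn
    have h1 : a.1 = v.1 ∧ (a.2 = v.2 + 1 ∨ a.2 = v.2 - 1) := by
      unfold Nb at hva
      have h3 := abs_nonneg (a.1 - v.1)
      have h4 : 1 ≤ |a.2 - v.2| := Int.one_le_abs (sub_ne_zero.2 ha)
      have h5 : |a.1 - v.1| = 0 := by omega
      have h6 : |a.2 - v.2| = 1 := by omega
      rw [abs_eq_zero] at h5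
      rcases (abs_eq (by norm_num)).1 h6 with h7 | h7
      · exact ⟨by omega, Or.inl (by omega)⟩
      · exact ⟨by omega, Or.inr (by omega)⟩
    have h2 : z.1 = v.1 ∧ (z.2 = v.2 + 1 ∨ z.2 = v.2 - 1) := by
      have hzv' := hzv.symm
      unfold Nb at hzv'
      have h3 := abs_nonneg (z.1 - v.1)
      have h4 : 1 ≤ |z.2 - v.2| := Int.one_le_abs (sub_ne_zero.2 hz)
      have h5 : |z.1 - v.1| = 0 := by omega
      have h6 : |z.2 - v.2| = 1 := by omega
      rw [abs_eq_zero] at h5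
      rcases (abs_eq (by norm_num)).1 h6 with h7 | h7
      · exact ⟨by omega, Or.inl (by omega)⟩
      · exact ⟨by omega, Or.inr (by omega)⟩
    rcases h1.2 with ha' | ha' <;> rcases h2.2 with hz' | hz'
    · exact absurd (Prod.ext (by omega) (by omega)) haz
    · obtain ⟨r, hr, hr2⟩ := ivt hch (p := z) (q := a) (by simp) (by simp) v.2 (by omega)
        (by omega)
      exact ⟨r, hr, hr2⟩
    · obtain ⟨r, hr, hr2⟩ := ivt hch (p := a) (q := z) (by simp) (by simp) v.2 (by omega)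
        (by omega)
      exact ⟨r, hr, hr2⟩
    · exact absurd (Prod.ext (by omega) (by omega)) haz

end Pool.Agent.Work.MP_376faf_co
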