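import Pool.Agent.Work.MP_376faf_co.Count

/-! From cyclic functions to canonical lists. -/

set_option autoImplicit false

namespace Pool.Agent.Work.MP_376faf_co

open Filter Topology

abbrev PolyFun (n : ℕ) : Type := {f : ZMod (2*n) → ℤ × ℤ // f 0 = 0 ∧ Function.Injective f ∧
  ∀ i : ZMod (2*n), |(f (i+1)).1 - (f i).1| + |(f (i+1)).2 - (f i).2| = 1}

theorem poly_box {n : ℕ} (f : PolyFun n) (k : ℕ) :
    |(f.1 (k : ZMod (2*n))).1| ≤ k ∧ |(f.1 (k : ZMod (2*n))).2| ≤ k := by
  induction k with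
  | zero => simp [f.2.1]
  | succ k ih =>
    have h : Nb (f.1 (k : ZMod (2*n))) (f.1 ((k : ZMod (2*n)) + 1)) := f.2.2.2 _
    have h := h.le_one
    push_cast
    obtain ⟨h1, h2⟩ := ih
    rw [abs_le] at h1 h2
    constructor
    · rw [abs_le]; constructor <;> omega
    · rw [abs_le]; constructor <;> omega

theorem polyFinite {n : ℕ} (hn : 1 ≤ n) : Finite (PolyFun n) := by
  have : NeZero (2 * n) := ⟨by omega⟩
  have hfin : (Set.pi Set.univ (fun _ : ZMod (2*n) =>
      (Set.Icc ((-(2*n:ℤ), -(2*n:ℤ)) : ℤ × ℤ) ((2*n:ℤ), (2*n:ℤ))))).Finite :=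
    Set.Finite.pi (fun _ => Set.finite_Icc _ _)
  refine (hfin.subset (t := {f : ZMod (2*n) → ℤ × ℤ | f 0 = 0 ∧ Function.Injective f ∧
  ∀ i : ZMod (2*n), |(f (i+1)).1 - (f i).1| + |(f (i+1)).2 - (f i).2| = 1}) ?_).to_subtype
  intro f hf i _
  have := poly_box ⟨f, hf⟩ i.val
  rw [ZMod.natCast_zmod_val i] at this
  have hi : (i.val : ℤ) < 2 * n := by have := ZMod.val_lt i; exact_mod_cast this
  rw [abs_le, abs_le] at this
  simp only [Set.mem_Icc, Prod.le_def] at this ⊢
  omega

theorem isPoly_of {l : List Pt} (hn : l.Nodup) (hl : 3 ≤ l.length)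
    (h : ∀ i (hi : i < l.length), Nb l[i] (l[(i+1) % l.length]'(Nat.mod_lt _ (by omega)))) :
    IsPoly l := by
  refine ⟨hn, hl, ?_⟩
  rcases l with - | ⟨v, t⟩
  · simp at hl
  rw [Cycle.chain_coe_cons]
  rw [← List.cons_append, List.isChain_iff_getElem]
  intro i hi
  have hi' : i < (v :: t).length := by simp at hi ⊢; omega
  have h1 := h i hi'
  rw [List.getElem_append_left hi']
  by_cases hlt : i + 1 < (v :: t).length
  · rw [List.getElem_append_left hlt]
    simp only [Nat.mod_eq_of_lt hlt] at h1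
    exact h1
  · have he : i + 1 = (v :: t).length := by omega
    rw [List.getElem_append_right (by omega)]
    simp only [he, Nat.mod_self, List.getElem_cons_zero] at h1
    simpa using h1

def canonList {n : ℕ} (f : ZMod (2*n) → ℤ × ℤ) (j : ZMod (2*n)) : List Pt :=
  List.ofFn (fun k : Fin (2*n) => f (j + (k.val : ZMod (2*n))) - f j)

theorem canonList_mem {n : ℕ} [NeZero (2*n)] (f : ZMod (2*n) → ℤ × ℤ) (j : ZMod (2*n)) (p : Pt) :
    p ∈ canonList f j ↔ ∃ i, f i - f j = p := by
  unfold canonList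
  rw [List.mem_ofFn]
  constructor
  · rintro ⟨k, hk⟩; exact ⟨_, hk⟩
  · rintro ⟨i, hi⟩
    refine ⟨⟨(i - j).val, ZMod.val_lt _⟩, ?_⟩
    simp [hi]

theorem canonList_poly {n : ℕ} (hn : 2 ≤ n) (f : PolyFun n) (j : ZMod (2*n)) :
    IsPoly (canonList f.1 j) := by
  have : NeZero (2 * n) := ⟨by omega⟩
  have hlen : (canonList f.1 j).length = 2 * n := by simp [canonList]
  refine isPoly_of ?_ (by rw [hlen]; omega) ?_
  · unfold canonList
    rw [List.nodup_ofFn]
    intro k k' h
    have h1 : f.1 (j + (k.val : ZMod (2*n))) = f.1 (j + (k'.val : ZMod (2*n))) := by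
      simpa using h
    have h2 := f.2.2.1 h1
    have h3 : (k.val : ZMod (2*n)) = (k'.val : ZMod (2*n)) := by simpa using h2
    rw [ZMod.natCast_eq_natCast_iff'] at h3
    rw [Nat.mod_eq_of_lt k.is_lt, Nat.mod_eq_of_lt k'.is_lt] at h3
    exact Fin.ext h3
  · intro i hi
    simp only [hlen]
    simp only [canonList, List.getElem_ofFn]
    have h := f.2.2.2 (j + (i : ZMod (2*n)))
    have e : (((i + 1) % (2*n) : ℕ) : ZMod (2*n)) = (i : ZMod (2*n)) + 1 := by
      rw [ZMod.natCast_mod]; push_cast; ring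
    rw [e, ← add_assoc]
    unfold Nb
    simpa using h

theorem canonList_canon {n : ℕ} (hn : 2 ≤ n) (f : PolyFun n) (j : ZMod (2*n))
    (hj : ∀ i, (f.1 j).2 ≤ (f.1 i).2 ∧ ((f.1 i).2 = (f.1 j).2 → (f.1 j).1 ≤ (f.1 i).1)) :
    Canon (canonList f.1 j) := by
  have : NeZero (2 * n) := ⟨by omega⟩
  refine ⟨canonList_poly hn f j, ?_, ?_, ?_⟩
  · have hlen : (canonList f.1 j).length = 2 * n := by simp [canonList]
    rw [List.head?_eq_getElem?, List.getElem?_eq_getElem (by omega)]
    simp [canonList]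
  · intro p hp
    obtain ⟨i, rfl⟩ := (canonList_mem _ _ _).1 hp
    have := (hj i).1
    simp only [Prod.snd_sub]; omega
  · intro p hp hp2
    obtain ⟨i, rfl⟩ := (canonList_mem _ _ _).1 hp
    simp only [Prod.snd_sub, Prod.fst_sub] at *
    have := (hj i).2 (by omega)
    omega

theorem canonList_inj {n : ℕ} [NeZero (2*n)] {f g : PolyFun n} {j : ZMod (2*n)}
    (h : canonList f.1 j = canonList g.1 j) : f = g := by
  unfold canonList at h
  have h := List.ofFn_injective h
  have key : ∀ i : ZMod (2*n), f.1 (j + i) - f.1 j = g.1 (j + i) - g.1 j := by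
    intro i
    have := congrFun h ⟨i.val, ZMod.val_lt _⟩
    simpa using this
  have h0 := key (-j)
  simp only [add_neg_cancel, f.2.1, g.2.1, zero_sub, neg_inj] at h0
  apply Subtype.ext
  funext i
  have := key (i - j)
  rw [h0] at this
  simpa using this

theorem exists_argmin {n : ℕ} [NeZero (2*n)] (f : PolyFun n) : ∃ j : ZMod (2*n),
    ∀ i, (f.1 j).2 ≤ (f.1 i).2 ∧ ((f.1 i).2 = (f.1 j).2 → (f.1 j).1 ≤ (f.1 i).1) := by
  obtain ⟨j, -, hj⟩ := (Finset.univ : Finset (ZMod (2*n))).exists_min_image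
    (fun i => toLex ((f.1 i).2, (f.1 i).1)) Finset.univ_nonempty
  refine ⟨j, fun i => ?_⟩
  have := hj i (Finset.mem_univ i)
  rw [Prod.Lex.toLex_le_toLex] at this
  simp only at this
  omega

/-- polygons with vertical extent at least t -/
abbrev TallFun (n : ℕ) (t : ℤ) : Type := {f : PolyFun n // ∃ i j, t ≤ (f.1 i).2 - (f.1 j).2}

theorem tall_count {n : ℕ} (hn : 2 ≤ n) (t : ℤ) : ∃ 𝒬 : Finset (List Pt),
    (∀ Q ∈ 𝒬, Canon Q ∧ Q.length = 2 * n ∧ ∃ q ∈ Q, t ≤ q.2) ∧
      Nat.card (TallFun n t) ≤ 2 * n * 𝒬.card := by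
  classical
  have : NeZero (2 * n) := ⟨by omega⟩
  have := polyFinite (n := n) (by omega)
  have : Fintype (TallFun n t) := Fintype.ofFinite _
  choose j hj using fun f : PolyFun n => exists_argmin f
  set 𝒬 : Finset (List Pt) := Finset.univ.image (fun f : TallFun n t => canonList f.1.1 (j f.1))
    with h𝒬
  refine ⟨𝒬, ?_, ?_⟩
  · intro Q hQ
    obtain ⟨f, -, rfl⟩ := Finset.mem_image.1 hQ
    refine ⟨canonList_canon hn _ _ (hj _), by simp [canonList], ?_⟩
    obtain ⟨a, b, hab⟩ := f.2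
    refine ⟨f.1.1 a - f.1.1 (j f.1), (canonList_mem _ _ _).2 ⟨a, rfl⟩, ?_⟩
    have := (hj f.1 b).1
    simp only [Prod.snd_sub]; omega
  · let φ : TallFun n t → 𝒬 × ZMod (2*n) := fun f =>
      (⟨canonList f.1.1 (j f.1), Finset.mem_image_of_mem _ (Finset.mem_univ f)⟩, j f.1)
    have hinj : Function.Injective φ := by
      intro f g h
      simp only [φ, Prod.mk.injEq, Subtype.mk.injEq] at h
      obtain ⟨h1, h2⟩ := h
      rw [h2] at h1
      exact Subtype.ext (canonList_inj h1)
    have := Nat.card_le_card_of_injective φ hinj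
    rw [Nat.card_prod, Nat.card_zmod] at this
    rw [mul_comm]
    simpa using this

theorem poly_split {n : ℕ} (hn : 1 ≤ n) (t : ℕ) (ht : t ^ 2 < 2 * n) :
    Nat.card (PolyFun n) ≤ 2 * Nat.card (TallFun n t) := by
  classical
  have : NeZero (2 * n) := ⟨by omega⟩
  have := polyFinite (n := n) (by omega)
  let sw : PolyFun n → PolyFun n := fun f => ⟨fun i => (f.1 i).swap, by simp [f.2.1], by
    refine ⟨fun i k h => f.2.2.1 (Prod.swap_injective h), fun i => ?_⟩
    have := f.2.2.2 i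
    simp only [Prod.fst_swap, Prod.snd_swap]
    rw [add_comm]; exact this⟩
  have hsw : Function.Injective sw := by
    intro f g h
    apply Subtype.ext
    funext i
    have := congrFun (congrArg Subtype.val h) i
    exact Prod.swap_injective this
  have hcase : ∀ f : PolyFun n, (¬ ∃ i j, (t:ℤ) ≤ (f.1 i).2 - (f.1 j).2) →
      ∃ i j, (t:ℤ) ≤ ((sw f).1 i).2 - ((sw f).1 j).2 := by
    intro f hf
    by_contra hf2
    push Not at hf hf2
    simp only [sw, Prod.snd_swap] at hf2
    obtain ⟨a, -, ha⟩ := (Finset.univ : Finset (ZMod (2*n))).exists_min_image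
      (fun i => (f.1 i).1) Finset.univ_nonempty
    obtain ⟨b, -, hb⟩ := (Finset.univ : Finset (ZMod (2*n))).exists_min_image
      (fun i => (f.1 i).2) Finset.univ_nonempty
    have hcard := Finset.card_le_card_of_injOn (s := (Finset.univ : Finset (ZMod (2*n))))
      (t := Finset.Ico (f.1 a).1 ((f.1 a).1 + t) ×ˢ Finset.Ico (f.1 b).2 ((f.1 b).2 + t)) f.1
      (by
        intro i _
        have h1 := ha i (Finset.mem_univ i)
        have h2 := hb i (Finset.mem_univ i)
        have h3 := hf i b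
        have h4 := hf2 i a
        simp only [Finset.coe_product, Finset.coe_Ico, Set.mem_prod, Set.mem_Ico]
        omega) (f.2.2.1.injOn)
    rw [Finset.card_univ, ZMod.card, Finset.card_product, Int.card_Ico, Int.card_Ico] at hcard
    simp only [add_sub_cancel_left, Int.toNat_natCast] at hcard
    nlinarith
  let φ : PolyFun n → TallFun n t ⊕ TallFun n t := fun f =>
    if h : ∃ i j, (t:ℤ) ≤ (f.1 i).2 - (f.1 j).2 then Sum.inl ⟨f, h⟩
    else Sum.inr ⟨sw f, hcase f h⟩
  have hinj : Function.Injective φ := by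
    intro f g h
    simp only [φ] at h
    split_ifs at h with h1 h2 h2
    · simpa using h
    · have := Subtype.mk.inj (Sum.inr.inj h)
      exact hsw this
  have := Nat.card_le_card_of_injective φ hinj
  rw [Nat.card_sum] at this
  omega

end Pool.Agent.Work.MP_376faf_co
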