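import Pool.Agent.Work.MP_376faf_co.Basic

/-! States (left walk, right walk, last polygon) and the attaching step. -/

set_option autoImplicit false

namespace Pool.Agent.Work.MP_376faf_co

abbrev St := List Pt × List Pt × List Pt

structure Good (s : St) (v : Pt) (L0 U0 P0 : List Pt) : Prop where
  eq : s = (v :: L0, v :: U0, v :: P0)
  sawL : IsSaw (v :: L0)
  sawU : IsSaw (v :: U0)
  poly : IsPoly (v :: P0)
  lastL : (v :: L0).getLast? = some 0
  lastU : (v :: U0).getLast? = some 0
  disL : ∀ p ∈ L0, p ∉ v :: P0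
  disU : ∀ p ∈ U0, p ∉ v :: P0

def IsGood (s : St) : Prop := ∃ v L0 U0 P0, Good s v L0 U0 P0

def Step (s s' : St) : Prop := ∃ (v : Pt) (L0 U0 A : List Pt) (u : Pt) (B : List Pt) (v' : Pt)
  (P0' : List Pt), s = (v :: L0, v :: U0, v :: (A ++ u :: B)) ∧
    s' = (v' :: u :: (A.reverse ++ v :: L0), v' :: u :: (B ++ v :: U0), v' :: P0')

theorem first_unique {S : Pt → Prop} : ∀ {A1 A2 : List Pt} {v1 v2 : Pt} {L1 L2 : List Pt},
    A1 ++ v1 :: L1 = A2 ++ v2 :: L2 → (∀ a ∈ A1, ¬ S a) → (∀ a ∈ A2, ¬ S a) → S v1 → S v2 →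
    A1 = A2 ∧ v1 = v2 ∧ L1 = L2 := by
  intro A1
  induction A1 with
  | nil =>
    intro A2 v1 v2 L1 L2 h _ h2 hv1 _
    rcases A2 with - | ⟨a, A2⟩
    · simpa using h
    · simp only [List.nil_append, List.cons_append, List.cons.injEq] at h
      exact absurd (h.1 ▸ hv1) (h2 a (by simp))
  | cons a A1 ih =>
    intro A2 v1 v2 L1 L2 h h1 h2 hv1 hv2
    rcases A2 with - | ⟨b, A2⟩
    · simp only [List.nil_append, List.cons_append, List.cons.injEq] at h
      exact absurd (h.1 ▸ hv2) (h1 a (by simp))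
    · simp only [List.cons_append, List.cons.injEq] at h
      obtain ⟨e1, e2, e3⟩ := ih h.2 (fun x hx => h1 x (by simp [hx]))
        (fun x hx => h2 x (by simp [hx])) hv1 hv2
      exact ⟨by rw [h.1, e1], e2, e3⟩

theorem good_dis {s : St} (hs : IsGood s) {v : Pt} {L0 U0 A : List Pt} {u : Pt} {B : List Pt}
    (he : s = (v :: L0, v :: U0, v :: (A ++ u :: B))) :
    (∀ a ∈ A, a ∉ B ++ v :: U0) ∧ (∀ b ∈ B, b ∉ A.reverse ++ v :: L0) := by
  obtain ⟨w, L1, U1, P1, g⟩ := hs
  have h := g.eq
  rw [he] at h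
  simp only [Prod.mk.injEq, List.cons.injEq] at h
  obtain ⟨⟨hv, hL⟩, ⟨-, hU⟩, ⟨-, hP⟩⟩ := h
  subst hv; subst hL; subst hU; subst hP
  have hn := g.poly.1
  rw [List.nodup_cons, List.nodup_append] at hn
  obtain ⟨hv, -, -, hAB⟩ := hn
  refine ⟨fun a ha hmem => ?_, fun b hb hmem => ?_⟩
  · rw [List.mem_append, List.mem_cons] at hmem
    rcases hmem with h1 | h1 | h1
    · exact hAB a ha a (by simp [h1]) rfl
    · subst h1; exact hv (by simp [ha])
    · exact g.disU a h1 (by simp [ha])
  · rw [List.mem_append, List.mem_cons, List.mem_reverse] at hmem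
    rcases hmem with h1 | h1 | h1
    · exact hAB b h1 b (by simp [hb]) rfl
    · subst h1; exact hv (by simp [hb])
    · exact g.disL b h1 (by simp [hb])

theorem step_unique {s1 s2 s' : St} (g1 : IsGood s1) (g2 : IsGood s2) (h1 : Step s1 s')
    (h2 : Step s2 s') : s1 = s2 := by
  obtain ⟨v1, L1, U1, A1, u1, B1, w1, Q1, e1, f1⟩ := h1
  obtain ⟨v2, L2, U2, A2, u2, B2, w2, Q2, e2, f2⟩ := h2
  obtain ⟨a1, b1⟩ := good_dis g1 e1
  obtain ⟨a2, b2⟩ := good_dis g2 e2
  rw [f1] at f2
  simp only [Prod.mk.injEq, List.cons.injEq] at f2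
  obtain ⟨⟨-, hu, hX⟩, ⟨-, -, hY⟩, -⟩ := f2
  obtain ⟨hA, hv, hL⟩ := first_unique (S := fun p => p ∈ B1 ++ v1 :: U1) hX
    (fun a ha => a1 a (by simpa using ha))
    (fun a ha => by rw [hY]; exact a2 a (by simpa using ha)) (by simp)
    (by rw [hY]; simp)
  obtain ⟨hB, -, hU⟩ := first_unique (S := fun p => p ∈ A1.reverse ++ v1 :: L1) hY
    (fun a ha => b1 a ha)
    (fun a ha => by rw [hX]; exact b2 a ha) (by simp)
    (by rw [hX]; simp)
  have hA' : A1 = A2 := by simpa using hA
  rw [e1, e2, hA', hv, hL, hu, hB, hU]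

/-- attaching a new polygon -/
theorem attach {s : St} {v : Pt} {L0 U0 P0 : List Pt} (g : Good s v L0 U0 P0) {u v' : Pt}
    (hu : u ∈ P0) (hnb : Nb v' u) {P0' : List Pt} (hP' : IsPoly (v' :: P0'))
    (hdP : ∀ p ∈ v :: P0, p ∉ v' :: P0') (hdL : ∀ p ∈ L0, p ∉ v' :: P0')
    (hdU : ∀ p ∈ U0, p ∉ v' :: P0') :
    ∃ (L' U' : List Pt), Step s (v' :: L', v' :: U', v' :: P0') ∧
      Good (v' :: L', v' :: U', v' :: P0') v' L' U' P0' ∧
      L'.length + U'.length = (L0.length + 1) + (U0.length + 1) + (P0.length + 1) ∧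
      (∀ p, p ∈ L' ∨ p ∈ U' → p ∈ v :: P0 ∨ p ∈ L0 ∨ p ∈ U0) := by
  obtain ⟨A, B, rfl⟩ := List.append_of_mem hu
  have hn := g.poly.1
  rw [List.nodup_cons, List.nodup_append, List.nodup_cons] at hn
  obtain ⟨hv, hA, ⟨huB, hB⟩, hAB⟩ := hn
  have hch := (Cycle.chain_coe_cons Nb v (A ++ u :: B)).1 g.poly.2.2
  have hch' : List.IsChain Nb ((v :: A) ++ u :: (B ++ [v])) := by simpa using hch
  rw [List.isChain_split] at hch'
  obtain ⟨hc1, hc2⟩ := hch'
  have hv' : ∀ p ∈ v :: (A ++ u :: B), p ≠ v' := fun p hp h => by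
    subst h; exact hdP p hp (by simp)
  have hLv' : ∀ p ∈ L0, p ≠ v' := fun p hp h => by subst h; exact hdL p hp (by simp)
  have hUv' : ∀ p ∈ U0, p ≠ v' := fun p hp h => by subst h; exact hdU p hp (by simp)
  refine ⟨u :: (A.reverse ++ v :: L0), u :: (B ++ v :: U0), ?_, ?_, ?_, ?_⟩
  · exact ⟨v, L0, U0, A, u, B, v', P0', g.eq, rfl⟩
  · refine ⟨rfl, ⟨?_, ?_⟩, ⟨?_, ?_⟩, hP', ?_, ?_, ?_, ?_⟩
    · -- nodup left
      rw [List.nodup_cons, List.nodup_cons, List.nodup_append]
      refine ⟨?_, ?_, List.nodup_reverse.2 hA, g.sawL.1, ?_⟩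
      · simp only [List.mem_cons, List.mem_append, List.mem_reverse, not_or]
        refine ⟨fun h => hv' u (by simp) h.symm, fun h => hv' v' (by simp [h]) rfl,
          fun h => hv' v (by simp) h.symm, fun h => hLv' _ h rfl⟩
      · simp only [List.mem_cons, List.mem_append, List.mem_reverse, not_or]
        refine ⟨fun h => hAB u h u (by simp) rfl, fun h => hv (by simp [h]),
          fun h => g.disL u h (by simp)⟩
      · intro a ha b hb hab
        subst hab
        rw [List.mem_reverse] at ha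
        rcases List.mem_cons.1 hb with h | h
        · exact hv (by simp [← h, ha])
        · exact g.disL a h (by simp [ha])
    · -- chain left
      have h1 : List.IsChain Nb (u :: (A.reverse ++ [v])) := by
        have : (u :: (A.reverse ++ [v])) = ((v :: A) ++ [u]).reverse := by simp
        rw [this, List.isChain_reverse]
        exact hc1.imp (fun a b hab => hab.symm)
      have h2 : List.IsChain Nb ((v' :: u :: A.reverse) ++ [v]) := by
        have : (v' :: u :: A.reverse) ++ [v] = v' :: (u :: (A.reverse ++ [v])) := by simp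
        rw [this, List.isChain_cons]
        exact ⟨by simpa using hnb, h1⟩
      have : (v' :: u :: (A.reverse ++ v :: L0)) = (v' :: u :: A.reverse) ++ v :: L0 := by simp
      rw [this, List.isChain_split]
      exact ⟨h2, g.sawL.2⟩
    · rw [List.nodup_cons, List.nodup_cons, List.nodup_append]
      refine ⟨?_, ?_, hB, g.sawU.1, ?_⟩
      · simp only [List.mem_cons, List.mem_append, not_or]
        refine ⟨fun h => hv' u (by simp) h.symm, fun h => hv' v' (by simp [h]) rfl,
          fun h => hv' v (by simp) h.symm, fun h => hUv' _ h rfl⟩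
      · simp only [List.mem_cons, List.mem_append, not_or]
        refine ⟨huB, fun h => hv (by simp [h]),
          fun h => g.disU u h (by simp)⟩
      · intro a ha b hb hab
        subst hab
        rcases List.mem_cons.1 hb with h | h
        · exact hv (by simp [← h, ha])
        · exact g.disU a h (by simp [ha])
    · have h2 : List.IsChain Nb ((v' :: u :: B) ++ [v]) := by
        have : (v' :: u :: B) ++ [v] = v' :: (u :: (B ++ [v])) := by simp
        rw [this, List.isChain_cons]
        exact ⟨by simpa using hnb, hc2⟩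
      have : (v' :: u :: (B ++ v :: U0)) = (v' :: u :: B) ++ v :: U0 := by simp
      rw [this, List.isChain_split]
      exact ⟨h2, g.sawU.2⟩
    · have := g.lastL
      rw [show (v' :: u :: (A.reverse ++ v :: L0)) = (v' :: u :: A.reverse) ++ (v :: L0) by simp,
        List.getLast?_append_cons]
      exact this
    · have := g.lastU
      rw [show (v' :: u :: (B ++ v :: U0)) = (v' :: u :: B) ++ (v :: U0) by simp,
        List.getLast?_append_cons]
      exact this
    · intro p hp
      simp only [List.mem_cons, List.mem_append, List.mem_reverse] at hp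
      rcases hp with h | h | h | h
      · exact hdP p (by simp [h])
      · exact hdP p (by simp [h])
      · exact hdP p (by simp [h])
      · exact hdL p h
    · intro p hp
      simp only [List.mem_cons, List.mem_append] at hp
      rcases hp with h | h | h | h
      · exact hdP p (by simp [h])
      · exact hdP p (by simp [h])
      · exact hdP p (by simp [h])
      · exact hdU p h
  · simp; omega
  · intro p hp
    simp only [List.mem_cons, List.mem_append, List.mem_reverse] at hp ⊢
    tauto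

end Pool.Agent.Work.MP_376faf_co
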